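import Mathlib

/-!
Cake cutting on the interval [0,1] with piecewise-constant value densities.
-/

namespace Pool.Agent.Lib.MP_e28e82_lc

open MeasureTheory Set

/-- A piecewise-constant value density on the cake `[0,1]`: nonnegative, constant between
finitely many breakpoints, with positive integral. -/
structure Density where
  val : ℝ → ℝ
  nonneg : ∀ x ∈ Icc (0 : ℝ) 1, 0 ≤ val x
  pieces : ∃ s : Finset ℝ, ∀ x ∈ Icc (0 : ℝ) 1, ∀ y ∈ Icc (0 : ℝ) 1,
    (∀ z ∈ s, z ∉ uIcc x y) → val x = val y
  pos : 0 < ∫ x in Icc (0 : ℝ) 1, val x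

/-- The value of a piece of cake. -/
noncomputable def Density.value (f : Density) (X : Set ℝ) : ℝ := ∫ x in X, f.val x

/-- A deterministic direct-revelation mechanism for `n` agents. -/
structure Mechanism (n : ℕ) where
  alloc : (Fin n → Density) → Fin n → Set ℝ
  measurable : ∀ f i, MeasurableSet (alloc f i)
  subset : ∀ f i, alloc f i ⊆ Icc (0 : ℝ) 1
  disjoint : ∀ f i j, i ≠ j → Disjoint (alloc f i) (alloc f j)

/-- Reporting the true density is a dominant strategy. -/
def Mechanism.Truthful {n : ℕ} (M : Mechanism n) : Prop :=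
  ∀ (f : Fin n → Density) (i : Fin n) (g : Density),
    (f i).value (M.alloc (Function.update f i g) i) ≤ (f i).value (M.alloc f i)

/-- Two profiles have the same joint law: every vector of density values is taken on sets of
the same length. -/
def SameLaw {n : ℕ} (f g : Fin n → Density) : Prop :=
  ∀ r : Fin n → ℝ, volume {x ∈ Icc (0 : ℝ) 1 | ∀ j, (f j).val x = r j} =
    volume {x ∈ Icc (0 : ℝ) 1 | ∀ j, (g j).val x = r j}

/-- Position oblivious on a class `P` of densities: profiles from `P` with the same joint law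
give every agent the same value. -/
def Mechanism.ObliviousOn {n : ℕ} (M : Mechanism n) (P : Density → Prop) : Prop :=
  ∀ f g : Fin n → Density, (∀ j, P (f j)) → (∀ j, P (g j)) → SameLaw f g →
    ∀ i, (f i).value (M.alloc f i) = (g i).value (M.alloc g i)

/-- The density takes only the values 0 and 1 on the cake. -/
def Density.Uniform (f : Density) : Prop := ∀ x ∈ Icc (0 : ℝ) 1, f.val x = 0 ∨ f.val x = 1

/-- The density takes at most `k` different values on the cake. -/
def Density.ValuesLe (f : Density) (k : ℕ) : Prop :=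
  ∃ V : Finset ℝ, V.card ≤ k ∧ ∀ x ∈ Icc (0 : ℝ) 1, f.val x ∈ V

/-- A finite union of intervals. -/
def IsFiniteUnionOfIntervals (A : Set ℝ) : Prop :=
  ∃ s : Finset (Set ℝ), (∀ J ∈ s, J.OrdConnected) ∧ A = ⋃ J ∈ s, J

end Pool.Agent.Lib.MP_e28e82_lc
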