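import Pool.Agent.Lib.MP_e28e82_lc.EntireMain

/-!
From two agents to `n` agents.
-/

namespace Pool.Agent.Lib.MP_e28e82_lc

open MeasureTheory Set Entire

/-- The cake that goes neither to agent `i` nor to agent `k` nor to an agent whose density is
positive there. -/
def Mechanism.wasted {n : ℕ} (M : Mechanism n) (i k : Fin n) (f : Fin n → Density) : Set ℝ :=
  {x ∈ Icc (0 : ℝ) 1 | x ∉ M.alloc f i ∧ x ∉ M.alloc f k ∧
    ∀ l, x ∈ M.alloc f l → (f l).val x = 0}

lemma Mechanism.measurableSet_wasted {n : ℕ} (M : Mechanism n) (i k : Fin n)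
    (f : Fin n → Density) : MeasurableSet (M.wasted i k f) := by
  have : M.wasted i k f = (Icc (0 : ℝ) 1 ∩ ((M.alloc f i)ᶜ ∩ (M.alloc f k)ᶜ)) ∩
      ⋂ l, ((M.alloc f l)ᶜ ∪ {x ∈ Icc (0 : ℝ) 1 | (f l).val x = 0}) := by
    ext x
    simp only [Mechanism.wasted, mem_ofPred_eq, mem_inter_iff, mem_compl_iff, mem_iInter,
      mem_union]
    constructor
    · rintro ⟨h1, h2, h3, h4⟩
      refine ⟨⟨h1, h2, h3⟩, fun l => ?_⟩
      by_cases h : x ∈ M.alloc f l
      · exact Or.inr ⟨h1, h4 l h⟩
      · exact Or.inl h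
    · rintro ⟨⟨h1, h2, h3⟩, h4⟩
      exact ⟨h1, h2, h3, fun l h => ((h4 l).resolve_left (not_not.mpr h)).2⟩
  rw [this]
  refine (measurableSet_Icc.inter ((M.measurable f i).compl.inter (M.measurable f k).compl)).inter
    (MeasurableSet.iInter fun l => (M.measurable f l).compl.union ?_)
  exact (PC.level (f l) fun v => v = 0).measurableSet

lemma nu_zero (g : Density) {Z : Set ℝ} (hZ : MeasurableSet Z) (h : ∀ x ∈ Z, g.val x = 0) :
    (nu g).real Z = 0 := by
  have h1 := nu_real g hZ
  rw [setIntegral_eq_zero_of_forall_eq_zero h] at h1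
  exact (mul_eq_zero.mp h1).resolve_left (tot_pos g).ne'

theorem waste_bound (n : ℕ) (i k : Fin n) (hik : i ≠ k) (M : Mechanism n) (hT : M.Truthful)
    (α w : ℝ) (hα : ∀ (f : Fin n → Density) (j : Fin n),
      α / n * (f j).value (Icc 0 1) ≤ (f j).value (M.alloc f j))
    (hw : ∀ (f : Fin n → Density) (j : Fin n), j = i ∨ j = k →
      (f j).value (M.wasted i k f) ≤ w * (f j).value (Icc 0 1)) :
    α ^ 5 ≤ 35 / 2 * n ^ 5 * w := by
  have hn0 : (0 : ℝ) < n := by exact_mod_cast i.pos
  have p1 : 0 < m.real (Icc (1 / 2 : ℝ) 1) := by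
    rw [Measure.real, m_eq_volume measurableSet_Icc (Icc_subset_Icc_left (by norm_num))]
    norm_num
  have p0 : 0 < m.real (Ico (0 : ℝ) (1 / 2)) := by
    rw [Measure.real, m_eq_volume measurableSet_Ico
      (Ico_subset_Icc_self.trans (Icc_subset_Icc_right (by norm_num)))]
    norm_num
  let h := ind (Icc (1 / 2) 1) (PC.Icc _ _) p1
  have key : ∀ f g d : Density, (∀ x ∈ Icc (1 / 2 : ℝ) 1, d.val x = 0) →
      d.value (Icc 0 1 \ (M.alloc (patt i k f g h) i ∪ M.alloc (patt i k f g h) k)) ≤
        d.value (M.wasted i k (patt i k f g h)) := by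
    intro f g d hd
    rw [value_nu d (measurableSet_Icc.diff ((M.measurable _ _).union (M.measurable _ _)))
      sdiff_subset, value_nu d (M.measurableSet_wasted _ _ _) fun x hx => hx.1]
    refine mul_le_mul_of_nonneg_left ?_ (tot_pos d).le
    have h1 := le2 (nu d)
      (X := Icc 0 1 \ (M.alloc (patt i k f g h) i ∪ M.alloc (patt i k f g h) k))
      (Y := M.wasted i k (patt i k f g h)) (Z := Icc (1 / 2 : ℝ) 1) (by
        rintro x ⟨hx, hx'⟩
        by_cases hz : x ∈ Icc (1 / 2 : ℝ) 1
        · exact Or.inr hz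
        · refine Or.inl ⟨hx, fun e => hx' (Or.inl e), fun e => hx' (Or.inr e), fun l hl => ?_⟩
          have h1 : l ≠ i := fun e => hx' (Or.inl (e ▸ hl))
          have h2 : l ≠ k := fun e => hx' (Or.inr (e ▸ hl))
          have h3 : patt i k f g h l = h := by simp [patt, h1, h2]
          rw [h3]
          exact indicator_of_notMem hz fun _ => (1 : ℝ))
    rw [nu_zero d measurableSet_Icc hd] at h1
    linarith
  rcases le_or_gt α 0 with h0 | h0
  · have h1 := hw (fun _ => one) i (Or.inl rfl)
    rw [value_nu one (M.measurableSet_wasted _ _ _) fun x hx => hx.1] at h1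
    have h2 : 0 ≤ w * tot one := (mul_nonneg (tot_pos one).le (nn _ _)).trans h1
    have h3 : 0 ≤ w := nonneg_of_mul_nonneg_left h2 (tot_pos one)
    exact (Odd.pow_nonpos (by decide) h0).trans (by positivity)
  let N : Pair (Icc (1 / 2 : ℝ) 1) (α / n) w :=
    { A := fun f g => M.alloc (patt i k f g h) i
      B := fun f g => M.alloc (patt i k f g h) k
      mA := fun _ _ => M.measurable _ _
      mB := fun _ _ => M.measurable _ _
      sA := fun _ _ => M.subset _ _
      sB := fun _ _ => M.subset _ _
      disj := fun _ _ => M.disjoint _ _ _ hik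
      tA := fun f f' g => by
        have := hT (patt i k f g h) i f'
        rwa [update_fst, patt_fst] at this
      tB := fun f g g' => by
        have := hT (patt i k f g h) k g'
        rwa [update_snd hik, patt_snd hik] at this
      pA := fun f g => by
        have := hα (patt i k f g h) i
        rwa [patt_fst] at this
      pB := fun f g => by
        have := hα (patt i k f g h) k
        rwa [patt_snd hik] at this
      wA := fun f g hf _ => by
        have := hw (patt i k f g h) i (Or.inl rfl)
        rw [patt_fst] at this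
        exact (key f g f hf).trans this
      wB := fun f g _ hg => by
        have := hw (patt i k f g h) k (Or.inr rfl)
        rw [patt_snd hik] at this
        exact (key f g g hg).trans this }
  have hb := N.bound (div_pos h0 hn0) (ind (Ico 0 (1 / 2)) (PC.Ico _ _) p0) fun x hx =>
    indicator_of_notMem (s := Ico (0 : ℝ) (1 / 2)) (fun h' => absurd h'.2 (not_lt.mpr hx.1))
      fun _ => (1 : ℝ)
  rw [div_pow, div_le_iff₀ (by positivity)] at hb
  linarith

end Pool.Agent.Lib.MP_e28e82_lc
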