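import Mathlib

/-!
Measure estimates for the two exchange steps used against mechanisms that waste little cake.
-/

namespace Pool.Agent.Lib.MP_e28e82_lc.Entire

open MeasureTheory Set

variable (ν : Measure ℝ) [IsProbabilityMeasure ν]

lemma mono {X Y : Set ℝ} (h : X ⊆ Y) : ν.real X ≤ ν.real Y := measureReal_mono h

lemma le2 {X Y Z : Set ℝ} (h : X ⊆ Y ∪ Z) : ν.real X ≤ ν.real Y + ν.real Z :=
  (measureReal_mono h).trans (measureReal_union_le _ _)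

lemma le3 {X Y Z W : Set ℝ} (h : X ⊆ Y ∪ Z ∪ W) :
    ν.real X ≤ ν.real Y + ν.real Z + ν.real W := by
  have h1 := le2 ν h
  have h2 := measureReal_union_le (μ := ν) Y Z
  linarith

lemma dis2 {X Y Z : Set ℝ} (hY : MeasurableSet Y) (hd : Disjoint X Y) (h : X ∪ Y ⊆ Z) :
    ν.real X + ν.real Y ≤ ν.real Z := by
  rw [← measureReal_union hd hY]
  exact measureReal_mono h

lemma split (X : Set ℝ) {P : Set ℝ} (hP : MeasurableSet P) :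
    ν.real (X ∩ P) + ν.real (X ∩ Pᶜ) = ν.real X :=
  measureReal_inter_add_sdiff hP

lemma le1 (X : Set ℝ) : ν.real X ≤ 1 := measureReal_le_one

omit [IsProbabilityMeasure ν] in
lemma nn (X : Set ℝ) : 0 ≤ ν.real X := measureReal_nonneg

lemma compl_eq {P : Set ℝ} (hP : MeasurableSet P) : ν.real Pᶜ = 1 - ν.real P := by
  have := split ν univ hP
  simp only [univ_inter, probReal_univ] at this
  linarith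

/-- First step: the second agent loses both the part kept and the part bought by the first. -/
lemma stepI {P U A' Ah X1 Y1 X2 Y2 Z2 W2 : Set ℝ} {c K γ e w y : ℝ}
    (mP : MeasurableSet P) (mAh : MeasurableSet Ah) (mY1 : MeasurableSet Y1)
    (mY2 : MeasurableSet Y2)
    (hc0 : 0 ≤ c) (hc1 : c ≤ 1) (hK : 1 ≤ K) (hγ : 0 < γ) (hKγ : K * γ = 1) (hy : 0 ≤ y)
    (eU : ν.real (U \ P) ≤ e) (eA : ν.real (A' \ Ah) ≤ e) (eA' : ν.real (Ah \ A') ≤ e)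
    (h1 : c * ν.real (A' ∩ Pᶜ) + ν.real (A' ∩ P) + K * ν.real (A' ∩ (Pᶜ ∩ Ah)) +
        ν.real (A' ∩ (P ∩ Ah)) ≤ c * ν.real (X1 ∩ Pᶜ) + ν.real (X1 ∩ P) +
        K * ν.real (X1 ∩ (Pᶜ ∩ Ah)) + ν.real (X1 ∩ (P ∩ Ah)))
    (h2 : c * ν.real (X1 ∩ Pᶜ) + ν.real (X1 ∩ P) ≤ c * ν.real (A' ∩ Pᶜ) + ν.real (A' ∩ P))
    (h3 : Disjoint X1 Y1) (h4 : ν.real (Y2 ∩ P) ≤ ν.real (Y1 ∩ P))
    (h5 : (1 - γ) * ν.real (U ∩ (Pᶜ ∩ Ah)) + ν.real (U ∩ P) ≤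
        (1 - γ) * ν.real (W2 ∩ (Pᶜ ∩ Ah)) + ν.real (W2 ∩ P))
    (h6 : ν.real W2 ≤ ν.real U) (h7 : ν.real (Z2 ∪ W2)ᶜ ≤ w)
    (h8 : c * ν.real (Z2 ∩ Pᶜ) + ν.real (Z2 ∩ P) + K * ν.real (Z2 ∩ (Pᶜ ∩ Ah)) +
        ν.real (Z2 ∩ (P ∩ Ah)) ≤ c * ν.real (X2 ∩ Pᶜ) + ν.real (X2 ∩ P) +
        K * ν.real (X2 ∩ (Pᶜ ∩ Ah)) + ν.real (X2 ∩ (P ∩ Ah)))
    (h9 : Disjoint X2 Y2)
    (h10 : y * ((1 - γ) * ν.real (Pᶜ ∩ Ah) + ν.real P) ≤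
        (1 - γ) * ν.real (Y2 ∩ (Pᶜ ∩ Ah)) + ν.real (Y2 ∩ P)) :
    y * ((1 - γ) * (ν.real (A' ∩ Pᶜ) - e) + ν.real P) ≤
      ν.real P - ν.real (A' ∩ P) + (2 * K + 2) * e + w + 2 * γ := by
  have hγ1 : γ ≤ 1 := by
    have := mul_le_mul_of_nonneg_right hK hγ.le
    linarith
  have he : 0 ≤ e := (nn ν _).trans eU
  have mT : MeasurableSet (Pᶜ ∩ Ah) := mP.compl.inter mAh
  -- part a
  have a1 : ν.real (Pᶜ ∩ Ah) ≤ ν.real (A' ∩ (Pᶜ ∩ Ah)) + ν.real (Ah \ A') :=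
    le2 ν fun x hx => by by_cases h : x ∈ A' <;> simp_all
  have a2 : ν.real (A' ∩ P) ≤ ν.real (A' ∩ (P ∩ Ah)) + ν.real (A' \ Ah) :=
    le2 ν fun x hx => by by_cases h : x ∈ Ah <;> simp_all
  have a3 : ν.real (X1 ∩ (Pᶜ ∩ Ah)) ≤ ν.real (Pᶜ ∩ Ah) := mono ν inter_subset_right
  have a4 : K * (ν.real (X1 ∩ (Pᶜ ∩ Ah)) - ν.real (A' ∩ (Pᶜ ∩ Ah))) ≤ K * e :=
    mul_le_mul_of_nonneg_left (by linarith) (by linarith)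
  have a5 : ν.real (X1 ∩ (P ∩ Ah)) + ν.real (Y1 ∩ P) ≤ ν.real P :=
    dis2 ν (mY1.inter mP) (h3.mono inter_subset_left inter_subset_left)
      (by rintro x (hx | hx); exacts [hx.2.1, hx.2])
  have a6 : ν.real (Y2 ∩ P) ≤ ν.real P - ν.real (A' ∩ P) + (K + 1) * e := by linarith
  -- part b
  have b1 : ν.real U ≤ ν.real (U ∩ P) + ν.real (U \ P) :=
    le2 ν fun x hx => by by_cases h : x ∈ P <;> simp_all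
  have b2 : ν.real (W2 ∩ (Pᶜ ∩ Ah)) ≤ ν.real (W2 ∩ Pᶜ) :=
    mono ν fun x hx => ⟨hx.1, hx.2.1⟩
  have b3 := split ν W2 mP
  have b4 : 0 ≤ (1 - γ) * ν.real (U ∩ (Pᶜ ∩ Ah)) := mul_nonneg (by linarith) (nn ν _)
  have b5 : γ * ν.real (W2 ∩ (Pᶜ ∩ Ah)) ≤ e := by linarith
  have b6 : ν.real (W2 ∩ (Pᶜ ∩ Ah)) ≤ K * e := by
    have := mul_le_mul_of_nonneg_left b5 (show 0 ≤ K by linarith)
    rw [← mul_assoc, hKγ, one_mul] at this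
    exact this
  have b7 : ν.real (Pᶜ ∩ Ah) ≤ ν.real (Z2 ∩ (Pᶜ ∩ Ah)) + ν.real (W2 ∩ (Pᶜ ∩ Ah)) +
      ν.real (Z2 ∪ W2)ᶜ :=
    le3 ν fun x hx => by by_cases h : x ∈ Z2 <;> by_cases h' : x ∈ W2 <;> simp_all
  -- part c
  have c1 := split ν X2 mP
  have c2 := le1 ν X2
  have c3 := le1 ν (X2 ∩ (P ∩ Ah))
  have c4 : c * ν.real (X2 ∩ Pᶜ) ≤ ν.real (X2 ∩ Pᶜ) := mul_le_of_le_one_left (nn ν _) hc1
  have c5 : 0 ≤ c * ν.real (Z2 ∩ Pᶜ) := mul_nonneg hc0 (nn ν _)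
  have c6 : K * (ν.real (Z2 ∩ (Pᶜ ∩ Ah)) - ν.real (X2 ∩ (Pᶜ ∩ Ah))) ≤ 2 := by
    linarith [nn ν (Z2 ∩ P), nn ν (Z2 ∩ (P ∩ Ah))]
  have c7 : ν.real (Z2 ∩ (Pᶜ ∩ Ah)) - ν.real (X2 ∩ (Pᶜ ∩ Ah)) ≤ 2 * γ := by
    have := mul_le_mul_of_nonneg_left c6 hγ.le
    rw [← mul_assoc, mul_comm γ K, hKγ, one_mul] at this
    linarith
  have c8 : ν.real (X2 ∩ (Pᶜ ∩ Ah)) + ν.real (Y2 ∩ (Pᶜ ∩ Ah)) ≤ ν.real (Pᶜ ∩ Ah) :=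
    dis2 ν (mY2.inter mT) (h9.mono inter_subset_left inter_subset_left)
      (by rintro x (hx | hx); exacts [hx.2, hx.2])
  have c9 : (1 - γ) * ν.real (Y2 ∩ (Pᶜ ∩ Ah)) ≤ ν.real (Y2 ∩ (Pᶜ ∩ Ah)) :=
    mul_le_of_le_one_left (nn ν _) (by linarith)
  -- part d
  have d1 : ν.real (A' ∩ Pᶜ) ≤ ν.real (Pᶜ ∩ Ah) + ν.real (A' \ Ah) :=
    le2 ν fun x hx => by by_cases h : x ∈ Ah <;> simp_all
  have d2 : y * ((1 - γ) * (ν.real (A' ∩ Pᶜ) - e) + ν.real P) ≤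
      y * ((1 - γ) * ν.real (Pᶜ ∩ Ah) + ν.real P) := by
    refine mul_le_mul_of_nonneg_left ?_ hy
    have := mul_le_mul_of_nonneg_left (show ν.real (A' ∩ Pᶜ) - e ≤ ν.real (Pᶜ ∩ Ah) by linarith)
      (show 0 ≤ 1 - γ by linarith)
    linarith
  linarith

/-- Second step: what the second agent can grab at the extremal report is an option for the
first agent. -/
lemma stepII {P U B' Bh X3 Y3 Z3 W3 : Set ℝ} {c K γ e w y : ℝ}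
    (mP : MeasurableSet P) (mY3 : MeasurableSet Y3) (mW3 : MeasurableSet W3)
    (hc0 : 0 ≤ c) (hc1 : c ≤ 1) (hK : 1 ≤ K) (hγ : 0 < γ) (hKγ : K * γ = 1) (hy : 0 ≤ y)
    (hy1 : y ≤ 1)
    (eU : ν.real (U \ P) ≤ e) (eB : ν.real (B' \ Bh) ≤ e) (eB' : ν.real (Bh \ B') ≤ e)
    (h1 : ν.real (B' ∩ P) + ν.real (B' ∩ (P ∩ Bh)) + K * ν.real (B' ∩ (Pᶜ ∩ Bh)) ≤
        ν.real (Y3 ∩ P) + ν.real (Y3 ∩ (P ∩ Bh)) + K * ν.real (Y3 ∩ (Pᶜ ∩ Bh)))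
    (h2 : ν.real (Y3 ∩ P) ≤ ν.real (B' ∩ P)) (h3 : Disjoint X3 Y3)
    (h4 : y * (ν.real P + ν.real (P ∩ Bh) + K * ν.real (Pᶜ ∩ Bh)) ≤
        ν.real (W3 ∩ P) + ν.real (W3 ∩ (P ∩ Bh)) + K * ν.real (W3 ∩ (Pᶜ ∩ Bh)))
    (h5 : ν.real W3 ≤ ν.real U) (h6 : ν.real (Z3 ∪ W3)ᶜ ≤ w) (h7 : Disjoint Z3 W3)
    (h8 : c * ν.real (Z3 ∩ Pᶜ) + ν.real (Z3 ∩ P) ≤ c * ν.real (X3 ∩ Pᶜ) + ν.real (X3 ∩ P)) :
    c * ν.real (B' ∩ Pᶜ) + (1 - c) * (y * ν.real (B' ∩ Pᶜ)) ≤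
      ν.real P - ν.real (B' ∩ P) + w + (K + 6) * e + 2 * γ := by
  have he : 0 ≤ e := (nn ν _).trans eU
  have a1 : ν.real (P ∩ Bh) ≤ ν.real (B' ∩ (P ∩ Bh)) + ν.real (Bh \ B') :=
    le2 ν fun x hx => by by_cases h : x ∈ B' <;> simp_all
  have a2 : ν.real (Pᶜ ∩ Bh) ≤ ν.real (B' ∩ (Pᶜ ∩ Bh)) + ν.real (Bh \ B') :=
    le2 ν fun x hx => by by_cases h : x ∈ B' <;> simp_all
  have a3 : ν.real (Y3 ∩ (Pᶜ ∩ Bh)) ≤ ν.real (Pᶜ ∩ Bh) := mono ν inter_subset_right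
  have a4 : ν.real (Y3 ∩ (P ∩ Bh)) ≤ ν.real (P ∩ Bh) := mono ν inter_subset_right
  have a5 : ν.real (B' ∩ P) ≤ ν.real (B' ∩ (P ∩ Bh)) + ν.real (B' \ Bh) :=
    le2 ν fun x hx => by by_cases h : x ∈ Bh <;> simp_all
  have a6 : ν.real (B' ∩ Pᶜ) ≤ ν.real (B' ∩ (Pᶜ ∩ Bh)) + ν.real (B' \ Bh) :=
    le2 ν fun x hx => by by_cases h : x ∈ Bh <;> simp_all
  have a7 : K * (ν.real (Y3 ∩ (Pᶜ ∩ Bh)) - ν.real (B' ∩ (Pᶜ ∩ Bh))) ≤ K * e :=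
    mul_le_mul_of_nonneg_left (by linarith) (by linarith)
  have a8 : ν.real (Y3 ∩ (P ∩ Bh)) ≤ ν.real (Y3 ∩ P) := mono ν fun x hx => ⟨hx.1, hx.2.1⟩
  have a9 : ν.real (B' ∩ P) - (K + 1) * e ≤ ν.real (Y3 ∩ P) := by linarith
  have a10 : K * (ν.real (B' ∩ (Pᶜ ∩ Bh)) - ν.real (Y3 ∩ (Pᶜ ∩ Bh))) ≤ e := by linarith
  have a11 : ν.real (B' ∩ (Pᶜ ∩ Bh)) - ν.real (Y3 ∩ (Pᶜ ∩ Bh)) ≤ e := by
    by_contra hcon
    push Not at hcon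
    have := mul_le_mul_of_nonneg_right hK (he.trans hcon.le)
    linarith
  have a12 : ν.real (Y3 ∩ (Pᶜ ∩ Bh)) ≤ ν.real (Y3 ∩ Pᶜ) := mono ν fun x hx => ⟨hx.1, hx.2.1⟩
  have a13 : ν.real (X3 ∩ P) + ν.real (Y3 ∩ P) ≤ ν.real P :=
    dis2 ν (mY3.inter mP) (h3.mono inter_subset_left inter_subset_left)
      (by rintro x (hx | hx); exacts [hx.2, hx.2])
  have a14 : ν.real (X3 ∩ Pᶜ) + ν.real (Y3 ∩ Pᶜ) ≤ ν.real Pᶜ :=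
    dis2 ν (mY3.inter mP.compl) (h3.mono inter_subset_left inter_subset_left)
      (by rintro x (hx | hx); exacts [hx.2, hx.2])
  have a15 : c * ν.real (X3 ∩ Pᶜ) ≤ c * (ν.real Pᶜ - ν.real (B' ∩ Pᶜ) + 2 * e) :=
    mul_le_mul_of_nonneg_left (by linarith) hc0
  -- the grab
  have b1 : ν.real (B' ∩ (Pᶜ ∩ Bh)) ≤ ν.real (Pᶜ ∩ Bh) := mono ν inter_subset_right
  have b2 := le1 ν (W3 ∩ P)
  have b3 := le1 ν (W3 ∩ (P ∩ Bh))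
  have b4 : 0 ≤ y * (ν.real P + ν.real (P ∩ Bh)) := mul_nonneg hy (add_nonneg (nn ν _) (nn ν _))
  have b5 : K * (y * ν.real (Pᶜ ∩ Bh) - ν.real (W3 ∩ (Pᶜ ∩ Bh))) ≤ 2 := by linarith
  have b6 : y * ν.real (Pᶜ ∩ Bh) - ν.real (W3 ∩ (Pᶜ ∩ Bh)) ≤ 2 * γ := by
    have := mul_le_mul_of_nonneg_left b5 hγ.le
    rw [← mul_assoc, mul_comm γ K, hKγ, one_mul] at this
    linarith
  have b7 : ν.real (W3 ∩ (Pᶜ ∩ Bh)) ≤ ν.real (W3 ∩ Pᶜ) := mono ν fun x hx => ⟨hx.1, hx.2.1⟩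
  have b8 : y * (ν.real (B' ∩ Pᶜ) - e) ≤ y * ν.real (Pᶜ ∩ Bh) :=
    mul_le_mul_of_nonneg_left (by linarith) hy
  have b9 : y * e ≤ e := mul_le_of_le_one_left he hy1
  have b10 : y * ν.real (B' ∩ Pᶜ) - e - 2 * γ ≤ ν.real (W3 ∩ Pᶜ) := by linarith
  have b11 : ν.real (Z3 ∩ Pᶜ) + ν.real (W3 ∩ Pᶜ) ≤ ν.real Pᶜ :=
    dis2 ν (mW3.inter mP.compl) (h7.mono inter_subset_left inter_subset_left)
      (by rintro x (hx | hx); exacts [hx.2, hx.2])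
  have b12 : ν.real (univ : Set ℝ) ≤ ν.real Z3 + ν.real W3 + ν.real (Z3 ∪ W3)ᶜ :=
    le3 ν fun x _ => by by_cases h : x ∈ Z3 <;> by_cases h' : x ∈ W3 <;> simp_all
  rw [probReal_univ] at b12
  have b13 := split ν Z3 mP
  have b14 : ν.real U ≤ ν.real P + ν.real (U \ P) :=
    le2 ν fun x hx => by by_cases h : x ∈ P <;> simp_all
  have b15 := compl_eq ν mP
  have b16 : (1 - c) * ν.real (Z3 ∩ Pᶜ) ≤
      (1 - c) * (ν.real Pᶜ - (y * ν.real (B' ∩ Pᶜ) - e - 2 * γ)) :=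
    mul_le_mul_of_nonneg_left (by linarith) (by linarith)
  have b17 : (1 - c) * (e + 2 * γ) ≤ e + 2 * γ :=
    mul_le_of_le_one_left (by linarith) (by linarith)
  have b18 : c * e ≤ e := mul_le_of_le_one_left he hc1
  linarith

end Pool.Agent.Lib.MP_e28e82_lc.Entire
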