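import Pool.Agent.Lib.MP_e28e82_lc.Reduce
import Pool.Agent.Lib.MP_e28e82_lc.EntireCore

/-!
The normalised value measure of a density, reweighted densities, and the final arithmetic.
-/

namespace Pool.Agent.Lib.MP_e28e82_lc.Entire

open MeasureTheory Set

/-- Total value of the cake. -/
noncomputable def tot (β : Density) : ℝ := β.value (Icc 0 1)

lemma tot_pos (β : Density) : 0 < tot β := β.pos

/-- The value measure of a density, normalised to total mass one. -/
noncomputable def nu (β : Density) : Measure ℝ :=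
  m.withDensity fun x => ENNReal.ofReal (β.val x / tot β)

lemma nu_real (β : Density) {X : Set ℝ} (hX : MeasurableSet X) :
    tot β * (nu β).real X = ∫ x in X, β.val x ∂m := by
  have hint : Integrable (fun x => β.val x / tot β) (m.restrict X) :=
    (β.integrable.div_const _).restrict
  have hnn : 0 ≤ᵐ[m.restrict X] fun x => β.val x / tot β := by
    refine ae_restrict_of_ae ?_
    filter_upwards [ae_mem_I] with x hx
    exact div_nonneg (β.nonneg x hx) (tot_pos β).le
  rw [Measure.real, nu, withDensity_apply _ hX, ← ofReal_integral_eq_lintegral_ofReal hint hnn,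
    ENNReal.toReal_ofReal (integral_nonneg_of_ae hnn), integral_div,
    mul_div_cancel₀ _ (tot_pos β).ne']

instance (β : Density) : IsProbabilityMeasure (nu β) := by
  constructor
  have h := nu_real β MeasurableSet.univ
  rw [Measure.restrict_univ] at h
  have h2 : ∫ x, β.val x ∂m = tot β := rfl
  rw [h2] at h
  have h3 : (nu β).real univ = 1 := by
    have := tot_pos β
    nlinarith
  exact (ENNReal.toReal_eq_one_iff _).mp h3

lemma value_nu (β : Density) {X : Set ℝ} (hX : MeasurableSet X) (hs : X ⊆ Icc (0 : ℝ) 1) :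
    β.value X = tot β * (nu β).real X := by
  rw [nu_real β hX, β.value_eq hX hs]

lemma nu_compl_I (β : Density) : (nu β).real (Icc (0 : ℝ) 1)ᶜ = 0 := by
  have h := value_nu β measurableSet_Icc subset_rfl
  have h1 : (nu β).real (Icc (0 : ℝ) 1) = 1 := by
    have := tot_pos β
    have h2 : β.value (Icc 0 1) = tot β := rfl
    nlinarith
  rw [compl_eq _ measurableSet_Icc, h1, sub_self]

lemma nu_I_inter (β : Density) (S : Set ℝ) : (nu β).real (Icc (0 : ℝ) 1 ∩ S) = (nu β).real S := by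
  refine le_antisymm (mono _ inter_subset_right) ?_
  have := le2 (nu β) (X := S) (Y := Icc (0 : ℝ) 1 ∩ S) (Z := (Icc (0 : ℝ) 1)ᶜ)
    fun x hx => by by_cases h : x ∈ Icc (0 : ℝ) 1 <;> simp_all
  rw [nu_compl_I] at this
  linarith

lemma exists_PC_close (β : Density) {A : Set ℝ} (hA : MeasurableSet A) {δ : ℝ} (hδ : 0 < δ) :
    ∃ T, PC T ∧ (nu β).real (A \ T) ≤ δ ∧ (nu β).real (T \ A) ≤ δ := by
  have hring : IsSetRing {B : Set ℝ | PC B} :=
    ⟨PC.empty, fun _ _ h1 h2 => PC.union h1 h2, fun _ _ h1 h2 => PC.diff h1 h2⟩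
  have hgen : (inferInstance : MeasurableSpace ℝ) =
      MeasurableSpace.generateFrom {B : Set ℝ | PC B} := by
    refine le_antisymm ?_ (MeasurableSpace.generateFrom_le fun B hB => PC.measurableSet hB)
    have h1 : (inferInstance : MeasurableSpace ℝ) = borel ℝ := BorelSpace.measurable_eq
    rw [h1, borel_eq_generateFrom_Iic]
    refine MeasurableSpace.generateFrom_mono ?_
    rintro _ ⟨c, rfl⟩
    exact PC.Iic c
  obtain ⟨T, hT, hlt⟩ := exists_measure_symmDiff_lt_of_generateFrom_isSetRing (μ := nu β) hring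
    ⟨{univ}, countable_singleton _, singleton_subset_iff.mpr PC.univ, by simp⟩ hgen hA
    (ENNReal.ofReal_pos.mpr hδ)
  have hlt' : (nu β).real (symmDiff T A) ≤ δ := ENNReal.toReal_le_of_le_ofReal hδ.le hlt.le
  exact ⟨T, hT, (mono _ fun x hx => Or.inr hx).trans hlt', (mono _ fun x hx => Or.inl hx).trans hlt'⟩

/-- Four sets with finitely many breakpoints and four nonnegative weights. -/
structure Wt where
  S : Fin 4 → Set ℝ
  d : Fin 4 → ℝ
  pc : ∀ j, PC (S j)
  nonneg : ∀ j, 0 ≤ d j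

/-- The normalised value of a set for the reweighted density. -/
noncomputable def Wt.val (W : Wt) (β : Density) (X : Set ℝ) : ℝ :=
  ∑ j, W.d j * (nu β).real (X ∩ W.S j)

lemma Wt.integral (W : Wt) (β : Density) {X : Set ℝ} (hX : MeasurableSet X) :
    ∫ x in X, ∑ j, (W.S j).indicator (fun x => W.d j * β.val x) x ∂m = tot β * W.val β X := by
  rw [integral_finsetSum, Wt.val, Finset.mul_sum]
  · refine Finset.sum_congr rfl fun j _ => ?_
    rw [setIntegral_indicator (W.pc j).measurableSet, integral_const_mul,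
      ← nu_real β (hX.inter (W.pc j).measurableSet)]
    ring
  · intro j _
    exact ((β.integrable.const_mul _).indicator (W.pc j).measurableSet).integrableOn

/-- The reweighted density. -/
noncomputable def Wt.dens (W : Wt) (β : Density) (hpos : 0 < W.val β univ) : Density where
  val := fun x => ∑ j, (W.S j).indicator (fun x => W.d j * β.val x) x
  nonneg := fun x hx => Finset.sum_nonneg fun j _ => by
    by_cases h : x ∈ W.S j
    · rw [indicator_of_mem h]
      exact mul_nonneg (W.nonneg j) (β.nonneg x hx)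
    · rw [indicator_of_notMem h]
  pieces := by
    classical
    choose s hs using W.pc
    obtain ⟨t, ht⟩ := β.pieces
    refine ⟨t ∪ Finset.univ.biUnion s, fun x hx y hy h => Finset.sum_congr rfl fun j hj => ?_⟩
    have hiff := hs j x y fun z hz =>
      h z (Finset.mem_union_right _ (Finset.mem_biUnion.mpr ⟨j, hj, hz⟩))
    have hv := ht x hx y hy fun z hz => h z (Finset.mem_union_left _ hz)
    by_cases hxS : x ∈ W.S j
    · rw [indicator_of_mem hxS, indicator_of_mem (hiff.mp hxS), hv]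
    · rw [indicator_of_notMem hxS, indicator_of_notMem fun hy => hxS (hiff.mpr hy)]
  pos := by
    have := W.integral β MeasurableSet.univ
    rw [Measure.restrict_univ] at this
    exact this ▸ mul_pos (tot_pos β) hpos

lemma Wt.value (W : Wt) (β : Density) (hpos : 0 < W.val β univ) {X : Set ℝ}
    (hX : MeasurableSet X) (hs : X ⊆ Icc (0 : ℝ) 1) :
    (W.dens β hpos).value X = tot β * W.val β X := by
  rw [Density.value_eq _ hX hs]
  exact W.integral β hX

lemma Wt.value_I (W : Wt) (β : Density) (hpos : 0 < W.val β univ) :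
    (W.dens β hpos).value (Icc 0 1) = tot β * W.val β univ := by
  rw [W.value β hpos measurableSet_Icc subset_rfl]
  simp only [Wt.val, nu_I_inter, univ_inter]

lemma Wt.zero (W : Wt) (β : Density) (hpos : 0 < W.val β univ) {x : ℝ} (hx : β.val x = 0) :
    (W.dens β hpos).val x = 0 := by
  show ∑ j, (W.S j).indicator (fun x => W.d j * β.val x) x = 0
  refine Finset.sum_eq_zero fun j _ => ?_
  by_cases h : x ∈ W.S j
  · rw [indicator_of_mem h, hx, mul_zero]
  · rw [indicator_of_notMem h]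

lemma arith {a y u w γ e c K p q r s t : ℝ} (ha : 0 < a) (hay : a ≤ y) (hyu : y ≤ u)
    (hu : u ≤ y + γ + w) (hua : u ≤ 1 - a) (hγ : 0 < γ) (he0 : 0 ≤ e) (heγ : e ≤ γ)
    (hKe : K * e = γ) (hc : c = a * y / 2) (hq : q ≤ u + e) (hq' : u - e ≤ q) (hq1 : q ≤ 1)
    (hs0 : 0 ≤ s) (ht0 : 0 ≤ t) (hq0 : 0 ≤ q) (hD : 0 ≤ 1 - q - s - t) (hE : 0 ≤ q - p - r)
    (hW : c * (1 - q - s - t) + (q - p - r) ≤ w) (hF : a * (c * (1 - q) + q) ≤ c * s + p)
    (h1 : y * ((1 - γ) * (s - e) + q) ≤ q - p + (2 * K + 2) * e + w + 2 * γ)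
    (h2 : c * t + (1 - c) * (y * t) ≤ q - r + w + (K + 6) * e + 2 * γ) :
    a ^ 5 ≤ 35 / 2 * w + 41 * γ := by
  have hy0 : 0 < y := by linarith
  have hy1 : y ≤ 1 - a := by linarith
  have ha2 : a ≤ 1 / 2 := by linarith
  have hc0 : 0 ≤ c := by rw [hc]; positivity
  have hcD : 0 ≤ c * (1 - q - s - t) := mul_nonneg hc0 hD
  have hw : 0 ≤ w := by linarith
  obtain ⟨Δ, hΔ⟩ : ∃ Δ, Δ = y * (1 - q - s - t) := ⟨_, rfl⟩
  obtain ⟨τ, hτ⟩ : ∃ τ, τ = y * t := ⟨_, rfl⟩
  have hΔ0 : 0 ≤ Δ := hΔ ▸ mul_nonneg hy0.le hD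
  have hτ0 : 0 ≤ τ := hτ ▸ mul_nonneg hy0.le ht0
  have hΔw : a * Δ ≤ 2 * w := by
    have : c * (1 - q - s - t) = a * Δ / 2 := by rw [hc, hΔ]; ring
    linarith
  have k1 : y * s ≤ 1 := mul_le_one₀ (by linarith) hs0 (by linarith)
  have k2 : γ * (y * s) ≤ γ := mul_le_of_le_one_right hγ.le k1
  have k3 : y * e ≤ e := mul_le_of_le_one_left he0 (by linarith)
  have k4 : 0 ≤ y * γ * e := by positivity
  have k5 : p ≤ τ + Δ + 2 * w + 10 * γ := by rw [hτ, hΔ]; linarith
  have k6 : a / 2 * ((1 - y) * τ) ≤ Δ + 4 * w + 19 * γ := by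
    have : a / 2 * ((1 - y) * τ) = c * t + (1 - c) * (y * t) - τ := by rw [hc, hτ]; ring
    rw [this]
    linarith
  have k7 : a * τ ≤ (1 - y) * τ := mul_le_mul_of_nonneg_right (by linarith) hτ0
  have k8 : a / 2 * (a * τ) ≤ a / 2 * ((1 - y) * τ) := mul_le_mul_of_nonneg_left k7 (by linarith)
  have k9 : c * s ≤ c := mul_le_of_le_one_right hc0 (by linarith)
  have k10 : 0 ≤ a * (c * (1 - q)) := mul_nonneg ha.le (mul_nonneg hc0 (by linarith))
  have k11 : a * (y - e) ≤ a * q := mul_le_mul_of_nonneg_left (by linarith) ha.le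
  have k12 : a * e ≤ e := mul_le_of_le_one_left he0 (by linarith)
  have k13 : a * a ≤ a * y := mul_le_mul_of_nonneg_left hay ha.le
  have k14 : a * a / 2 - Δ - 2 * w - 11 * γ ≤ τ := by linarith
  have k15 : a ^ 3 / 2 * (a * a / 2 - Δ - 2 * w - 11 * γ) ≤ a ^ 3 / 2 * τ :=
    mul_le_mul_of_nonneg_left k14 (by positivity)
  have k16 : a * (a / 2 * (a * τ)) ≤ a * (Δ + 4 * w + 19 * γ) :=
    mul_le_mul_of_nonneg_left (by linarith) ha.le
  have a2 : a ^ 2 ≤ 1 / 4 := by nlinarith
  have a3 : a ^ 3 ≤ 1 / 8 := by nlinarith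
  have k17 : a ^ 2 * (a * Δ) ≤ 1 / 4 * (2 * w) :=
    mul_le_mul a2 hΔw (by positivity) (by norm_num)
  have k18 : a ^ 3 * w ≤ 1 / 8 * w := mul_le_mul_of_nonneg_right a3 hw
  have k19 : a ^ 3 * γ ≤ 1 / 8 * γ := mul_le_mul_of_nonneg_right a3 hγ.le
  have k20 : a * w ≤ 1 / 2 * w := mul_le_mul_of_nonneg_right ha2 hw
  have k21 : a * γ ≤ 1 / 2 * γ := mul_le_mul_of_nonneg_right ha2 hγ.le
  linarith

end Pool.Agent.Lib.MP_e28e82_lc.Entire
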