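import Pool.Agent.Lib.MP_e28e82_lc.EntireComb

/-!
Two truthful agents, approximate proportionality and little waste are incompatible.
-/

namespace Pool.Agent.Lib.MP_e28e82_lc.Entire

open MeasureTheory Set

/-- The data of a two-agent mechanism, on densities vanishing on a set `Z`. -/
structure Pair (Z : Set ℝ) (a w : ℝ) where
  A : Density → Density → Set ℝ
  B : Density → Density → Set ℝ
  mA : ∀ f g, MeasurableSet (A f g)
  mB : ∀ f g, MeasurableSet (B f g)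
  sA : ∀ f g, A f g ⊆ Icc (0 : ℝ) 1
  sB : ∀ f g, B f g ⊆ Icc (0 : ℝ) 1
  disj : ∀ f g, Disjoint (A f g) (B f g)
  tA : ∀ f f' g : Density, f.value (A f' g) ≤ f.value (A f g)
  tB : ∀ f g g' : Density, g.value (B f g') ≤ g.value (B f g)
  pA : ∀ f g : Density, a * f.value (Icc 0 1) ≤ f.value (A f g)
  pB : ∀ f g : Density, a * g.value (Icc 0 1) ≤ g.value (B f g)
  wA : ∀ f g : Density, (∀ x ∈ Z, f.val x = 0) → (∀ x ∈ Z, g.val x = 0) →
    f.value (Icc 0 1 \ (A f g ∪ B f g)) ≤ w * f.value (Icc 0 1)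
  wB : ∀ f g : Density, (∀ x ∈ Z, f.val x = 0) → (∀ x ∈ Z, g.val x = 0) →
    g.value (Icc 0 1 \ (A f g ∪ B f g)) ≤ w * g.value (Icc 0 1)

lemma cancel {N x z : ℝ} (hN : 0 < N) (h : N * x ≤ N * z) : x ≤ z := le_of_mul_le_mul_left h hN

lemma cancel' {N a x z : ℝ} (hN : 0 < N) (h : a * (N * x) ≤ N * z) : a * x ≤ z :=
  cancel hN (by linarith)

lemma cancel'' {N a x z : ℝ} (hN : 0 < N) (h : N * x ≤ a * (N * z)) : x ≤ a * z :=
  cancel hN (by linarith)

variable {Z : Set ℝ} {a w : ℝ} (M : Pair Z a w)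

lemma Pair.waste_A (β g : Density) (hβ : ∀ x ∈ Z, β.val x = 0) (hg : ∀ x ∈ Z, g.val x = 0) :
    (nu β).real (M.A β g ∪ M.B β g)ᶜ ≤ w := by
  have h := M.wA β g hβ hg
  rw [value_nu β (measurableSet_Icc.diff ((M.mA _ _).union (M.mB _ _))) sdiff_subset, sdiff_eq,
    nu_I_inter] at h
  exact cancel (tot_pos β) (by rw [mul_comm _ w]; exact h)

lemma Pair.waste_B (f β : Density) (hf : ∀ x ∈ Z, f.val x = 0) (hβ : ∀ x ∈ Z, β.val x = 0) :
    (nu β).real (M.A f β ∪ M.B f β)ᶜ ≤ w := by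
  have h := M.wB f β hf hβ
  rw [value_nu β (measurableSet_Icc.diff ((M.mA _ _).union (M.mB _ _))) sdiff_subset, sdiff_eq,
    nu_I_inter] at h
  exact cancel (tot_pos β) (by rw [mul_comm _ w]; exact h)

include M in
lemma Pair.script (ha : 0 < a) {y γ : ℝ} (hay : a ≤ y) (hγ : 0 < γ) (hγa : γ < a)
    (hy : ∀ f g : Density, (∀ x ∈ Z, f.val x = 0) → (∀ x ∈ Z, g.val x = 0) →
      y * g.value (Icc 0 1) ≤ g.value (M.B f g))
    (β : Density) (hβ : ∀ x ∈ Z, β.val x = 0) (hu : (nu β).real (M.B β β) ≤ y + γ + w) :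
    a ^ 5 ≤ 35 / 2 * w + 41 * γ := by
  have hN := tot_pos β
  have vA : ∀ f g, β.value (M.A f g) = tot β * (nu β).real (M.A f g) :=
    fun f g => value_nu β (M.mA _ _) (M.sA _ _)
  have vB : ∀ f g, β.value (M.B f g) = tot β * (nu β).real (M.B f g) :=
    fun f g => value_nu β (M.mB _ _) (M.sB _ _)
  have hyu : y ≤ (nu β).real (M.B β β) := by
    have := hy β β hβ hβ
    rw [vB] at this
    exact cancel hN (by rw [mul_comm _ y]; exact this)
  have hua : (nu β).real (M.B β β) ≤ 1 - a := by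
    have h1 := M.pA β β
    rw [vA] at h1
    have h2 : a ≤ (nu β).real (M.A β β) := cancel hN (by rw [mul_comm _ a]; exact h1)
    have h3 := dis2 (nu β) (M.mB β β) (M.disj β β) (subset_univ _)
    rw [probReal_univ] at h3
    linarith
  have hγ1 : γ ≤ 1 := by linarith
  have he : 0 < γ * γ := mul_pos hγ hγ
  have heγ : γ * γ ≤ γ := mul_le_of_le_one_left hγ.le hγ1
  have hK : 1 ≤ γ⁻¹ := (one_le_inv₀ hγ).mpr hγ1
  have hKγ : γ⁻¹ * γ = 1 := inv_mul_cancel₀ hγ.ne'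
  obtain ⟨c, hc⟩ : ∃ c, c = a * y / 2 := ⟨_, rfl⟩
  have hc0 : 0 ≤ c := by rw [hc]; have : 0 < y := by linarith
                         positivity
  have hc1 : c ≤ 1 := by rw [hc]; nlinarith
  obtain ⟨P, hP, eU, eU'⟩ := exists_PC_close β (M.mB β β) he
  have mP := hP.measurableSet
  have hq : (nu β).real P ≤ (nu β).real (M.B β β) + γ * γ := by
    have := le2 (nu β) (X := P) (Y := M.B β β) (Z := P \ M.B β β)
      fun x hx => by by_cases h : x ∈ M.B β β <;> simp_all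
    linarith
  have hq' : (nu β).real (M.B β β) - γ * γ ≤ (nu β).real P := by
    have := le2 (nu β) (X := M.B β β) (Y := P) (Z := M.B β β \ P)
      fun x hx => by by_cases h : x ∈ P <;> simp_all
    linarith
  have hqpos : 0 < (nu β).real P := by linarith
  let W2 : Wt := ⟨![Pᶜ, P, ∅, ∅], ![c, 1, 0, 0],
    fun j => by fin_cases j; exacts [hP.compl, hP, PC.empty, PC.empty],
    fun j => by fin_cases j; exacts [hc0, zero_le_one, le_rfl, le_rfl]⟩
  have eW2 : ∀ X, W2.val β X = c * (nu β).real (X ∩ Pᶜ) + (nu β).real (X ∩ P) := fun X => by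
    simp [W2, Wt.val, Fin.sum_univ_four]
  have pW2 : 0 < W2.val β univ := by
    rw [eW2, univ_inter, univ_inter]
    have := mul_nonneg hc0 (nn (nu β) Pᶜ)
    linarith
  let V1 : Wt := ⟨![P, ∅, ∅, ∅], ![1, 0, 0, 0],
    fun j => by fin_cases j; exacts [hP, PC.empty, PC.empty, PC.empty],
    fun j => by fin_cases j; exacts [zero_le_one, le_rfl, le_rfl, le_rfl]⟩
  have eV1 : ∀ X, V1.val β X = (nu β).real (X ∩ P) := fun X => by
    simp [V1, Wt.val, Fin.sum_univ_four]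
  have pV1 : 0 < V1.val β univ := by rwa [eV1, univ_inter]
  obtain ⟨f2, hf2⟩ : ∃ f, f = W2.dens β pW2 := ⟨_, rfl⟩
  obtain ⟨g1, hg1⟩ : ∃ f, f = V1.dens β pV1 := ⟨_, rfl⟩
  obtain ⟨Ah, hAh, eA, eA'⟩ := exists_PC_close β (M.mA f2 g1) he
  obtain ⟨Bh, hBh, eB, eB'⟩ := exists_PC_close β (M.mB f2 g1) he
  let W1 : Wt := ⟨![Pᶜ, P, Pᶜ ∩ Ah, P ∩ Ah], ![c, 1, γ⁻¹, 1],
    fun j => by fin_cases j; exacts [hP.compl, hP, hP.compl.inter hAh, hP.inter hAh],
    fun j => by fin_cases j; exacts [hc0, zero_le_one, zero_le_one.trans hK, zero_le_one]⟩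
  have eW1 : ∀ X, W1.val β X = c * (nu β).real (X ∩ Pᶜ) + (nu β).real (X ∩ P) +
      γ⁻¹ * (nu β).real (X ∩ (Pᶜ ∩ Ah)) + (nu β).real (X ∩ (P ∩ Ah)) := fun X => by
    simp [W1, Wt.val, Fin.sum_univ_four]
  have pW1 : 0 < W1.val β univ := by
    rw [eW1, univ_inter, univ_inter]
    have h1 := mul_nonneg hc0 (nn (nu β) Pᶜ)
    have h2 := mul_nonneg (zero_le_one.trans hK) (nn (nu β) (univ ∩ (Pᶜ ∩ Ah)))
    have h3 := nn (nu β) (univ ∩ (P ∩ Ah))
    linarith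
  let V2 : Wt := ⟨![Pᶜ ∩ Ah, P, ∅, ∅], ![1 - γ, 1, 0, 0],
    fun j => by fin_cases j; exacts [hP.compl.inter hAh, hP, PC.empty, PC.empty],
    fun j => by fin_cases j; exacts [sub_nonneg.mpr hγ1, zero_le_one, le_rfl, le_rfl]⟩
  have eV2 : ∀ X, V2.val β X = (1 - γ) * (nu β).real (X ∩ (Pᶜ ∩ Ah)) + (nu β).real (X ∩ P) :=
    fun X => by simp [V2, Wt.val, Fin.sum_univ_four]
  have pV2 : 0 < V2.val β univ := by
    rw [eV2, univ_inter, univ_inter]
    have := mul_nonneg (sub_nonneg.mpr hγ1) (nn (nu β) (Pᶜ ∩ Ah))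
    linarith
  let V3 : Wt := ⟨![P, P ∩ Bh, Pᶜ ∩ Bh, ∅], ![1, 1, γ⁻¹, 0],
    fun j => by fin_cases j; exacts [hP, hP.inter hBh, hP.compl.inter hBh, PC.empty],
    fun j => by fin_cases j; exacts [zero_le_one, zero_le_one, zero_le_one.trans hK, le_rfl]⟩
  have eV3 : ∀ X, V3.val β X = (nu β).real (X ∩ P) + (nu β).real (X ∩ (P ∩ Bh)) +
      γ⁻¹ * (nu β).real (X ∩ (Pᶜ ∩ Bh)) := fun X => by
    simp [V3, Wt.val, Fin.sum_univ_four]
  have pV3 : 0 < V3.val β univ := by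
    rw [eV3, univ_inter]
    have h2 := mul_nonneg (zero_le_one.trans hK) (nn (nu β) (univ ∩ (Pᶜ ∩ Bh)))
    have h3 := nn (nu β) (univ ∩ (P ∩ Bh))
    linarith
  obtain ⟨f1, hf1⟩ : ∃ f, f = W1.dens β pW1 := ⟨_, rfl⟩
  obtain ⟨g2, hg2⟩ : ∃ f, f = V2.dens β pV2 := ⟨_, rfl⟩
  obtain ⟨g3, hg3⟩ : ∃ f, f = V3.dens β pV3 := ⟨_, rfl⟩
  have zf1 : ∀ x ∈ Z, f1.val x = 0 := fun x hx => hf1 ▸ W1.zero β pW1 (hβ x hx)
  have zf2 : ∀ x ∈ Z, f2.val x = 0 := fun x hx => hf2 ▸ W2.zero β pW2 (hβ x hx)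
  have zg1 : ∀ x ∈ Z, g1.val x = 0 := fun x hx => hg1 ▸ V1.zero β pV1 (hβ x hx)
  have zg2 : ∀ x ∈ Z, g2.val x = 0 := fun x hx => hg2 ▸ V2.zero β pV2 (hβ x hx)
  have zg3 : ∀ x ∈ Z, g3.val x = 0 := fun x hx => hg3 ▸ V3.zero β pV3 (hβ x hx)
  have vf1 : ∀ f g, f1.value (M.A f g) = tot β * W1.val β (M.A f g) :=
    fun f g => hf1 ▸ W1.value β pW1 (M.mA _ _) (M.sA _ _)
  have vf2 : ∀ f g, f2.value (M.A f g) = tot β * W2.val β (M.A f g) :=
    fun f g => hf2 ▸ W2.value β pW2 (M.mA _ _) (M.sA _ _)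
  have vg1 : ∀ f g, g1.value (M.B f g) = tot β * V1.val β (M.B f g) :=
    fun f g => hg1 ▸ V1.value β pV1 (M.mB _ _) (M.sB _ _)
  have vg2 : ∀ f g, g2.value (M.B f g) = tot β * V2.val β (M.B f g) :=
    fun f g => hg2 ▸ V2.value β pV2 (M.mB _ _) (M.sB _ _)
  have vg3 : ∀ f g, g3.value (M.B f g) = tot β * V3.val β (M.B f g) :=
    fun f g => hg3 ▸ V3.value β pV3 (M.mB _ _) (M.sB _ _)
  have If2 : f2.value (Icc 0 1) = tot β * W2.val β univ := hf2 ▸ W2.value_I β pW2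
  have Ig2 : g2.value (Icc 0 1) = tot β * V2.val β univ := hg2 ▸ V2.value_I β pV2
  have Ig3 : g3.value (Icc 0 1) = tot β * V3.val β univ := hg3 ▸ V3.value_I β pV3
  have hy0 : 0 ≤ y := by linarith
  have s1 := stepI (nu β) (P := P) (U := M.B β β) (A' := M.A f2 g1) (Ah := Ah) (X1 := M.A f1 g1)
    (Y1 := M.B f1 g1) (X2 := M.A f1 g2) (Y2 := M.B f1 g2) (Z2 := M.A β g2) (W2 := M.B β g2)
    (c := c) (w := w) (y := y) mP hAh.measurableSet (M.mB _ _) (M.mB _ _) hc0 hc1 hK hγ hKγ hy0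
    eU eA eA'
    (by have := M.tA f1 f2 g1; rw [vf1, vf1, eW1, eW1] at this; exact cancel hN this)
    (by have := M.tA f2 f1 g1; rw [vf2, vf2, eW2, eW2] at this; exact cancel hN this)
    (M.disj _ _)
    (by have := M.tB f1 g1 g2; rw [vg1, vg1, eV1, eV1] at this; exact cancel hN this)
    (by have := M.tB β g2 β; rw [vg2, vg2, eV2, eV2] at this; exact cancel hN this)
    (by have := M.tB β β g2; rw [vB, vB] at this; exact cancel hN this)
    (M.waste_A β g2 hβ zg2)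
    (by have := M.tA f1 β g2; rw [vf1, vf1, eW1, eW1] at this; exact cancel hN this)
    (M.disj _ _)
    (by
      have := hy f1 g2 zf1 zg2
      rw [vg2, Ig2, eV2, eV2, univ_inter, univ_inter] at this
      exact cancel' hN this)
  have s2 := stepII (nu β) (P := P) (U := M.B β β) (B' := M.B f2 g1) (Bh := Bh) (X3 := M.A f2 g3)
    (Y3 := M.B f2 g3) (Z3 := M.A β g3) (W3 := M.B β g3)
    (c := c) (w := w) (y := y) mP (M.mB _ _) (M.mB _ _) hc0 hc1 hK hγ hKγ hy0 (by linarith)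
    eU eB eB'
    (by have := M.tB f2 g3 g1; rw [vg3, vg3, eV3, eV3] at this; exact cancel hN this)
    (by have := M.tB f2 g1 g3; rw [vg1, vg1, eV1, eV1] at this; exact cancel hN this)
    (M.disj _ _)
    (by
      have := hy β g3 hβ zg3
      rw [vg3, Ig3, eV3, eV3, univ_inter, univ_inter, univ_inter] at this
      exact cancel' hN this)
    (by have := M.tB β β g3; rw [vB, vB] at this; exact cancel hN this)
    (M.waste_A β g3 hβ zg3) (M.disj _ _)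
    (by have := M.tA f2 β g3; rw [vf2, vf2, eW2, eW2] at this; exact cancel hN this)
  have hQ := compl_eq (nu β) mP
  have hF : a * (c * (1 - (nu β).real P) + (nu β).real P) ≤
      c * (nu β).real (M.A f2 g1 ∩ Pᶜ) + (nu β).real (M.A f2 g1 ∩ P) := by
    have := M.pA f2 g1
    rw [vf2, If2, eW2, eW2, univ_inter, univ_inter, hQ] at this
    exact cancel' hN this
  have hD := dis2 (nu β) (X := M.A f2 g1 ∩ Pᶜ) (Y := M.B f2 g1 ∩ Pᶜ) (Z := Pᶜ)
    ((M.mB _ _).inter mP.compl) ((M.disj _ _).mono inter_subset_left inter_subset_left)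
    (by rintro x (hx | hx); exacts [hx.2, hx.2])
  have hE := dis2 (nu β) (X := M.A f2 g1 ∩ P) (Y := M.B f2 g1 ∩ P) (Z := P)
    ((M.mB _ _).inter mP) ((M.disj _ _).mono inter_subset_left inter_subset_left)
    (by rintro x (hx | hx); exacts [hx.2, hx.2])
  have hW : c * (1 - (nu β).real P - (nu β).real (M.A f2 g1 ∩ Pᶜ) - (nu β).real (M.B f2 g1 ∩ Pᶜ)) +
      ((nu β).real P - (nu β).real (M.A f2 g1 ∩ P) - (nu β).real (M.B f2 g1 ∩ P)) ≤ w := by
    have h := M.wA f2 g1 zf2 zg1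
    have hm : MeasurableSet (Icc (0 : ℝ) 1 \ (M.A f2 g1 ∪ M.B f2 g1)) :=
      measurableSet_Icc.diff ((M.mA f2 g1).union (M.mB f2 g1))
    have h0 : f2.value (Icc 0 1 \ (M.A f2 g1 ∪ M.B f2 g1)) =
        tot β * W2.val β (Icc 0 1 \ (M.A f2 g1 ∪ M.B f2 g1)) := by
      have := W2.value β pW2 hm sdiff_subset
      rwa [← hf2] at this
    rw [h0, If2, eW2, eW2, univ_inter, univ_inter, sdiff_eq, inter_assoc, inter_assoc, nu_I_inter,
      nu_I_inter] at h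
    have h1 := cancel'' hN h
    have h2 := le3 (nu β) (X := P) (Y := M.A f2 g1 ∩ P) (Z := M.B f2 g1 ∩ P)
      (W := (M.A f2 g1 ∪ M.B f2 g1)ᶜ ∩ P)
      fun x hx => by by_cases h : x ∈ M.A f2 g1 <;> by_cases h' : x ∈ M.B f2 g1 <;> simp_all
    have h3 := le3 (nu β) (X := Pᶜ) (Y := M.A f2 g1 ∩ Pᶜ) (Z := M.B f2 g1 ∩ Pᶜ)
      (W := (M.A f2 g1 ∪ M.B f2 g1)ᶜ ∩ Pᶜ)
      fun x hx => by by_cases h : x ∈ M.A f2 g1 <;> by_cases h' : x ∈ M.B f2 g1 <;> simp_all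
    have h4 := mul_le_mul_of_nonneg_left h3 hc0
    have hw : 0 ≤ w := (nn _ _).trans (M.waste_A β β hβ hβ)
    have h5 : c * (nu β).real Pᶜ ≤ (nu β).real Pᶜ := mul_le_of_le_one_left (nn _ _) hc1
    have h6 : w * (c * (nu β).real Pᶜ + (nu β).real P) ≤ w :=
      mul_le_of_le_one_right hw (by linarith)
    rw [hQ] at h4
    linarith
  exact arith ha hay hyu hu hua hγ he.le heγ (by rw [← mul_assoc, hKγ, one_mul]) hc hq hq'
    (le1 _ _) (nn _ _) (nn _ _) (nn _ _) (by linarith) (by linarith) hW hF s1 s2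

include M in
theorem Pair.bound (ha : 0 < a) (f₀ : Density) (h₀ : ∀ x ∈ Z, f₀.val x = 0) :
    a ^ 5 ≤ 35 / 2 * w := by
  let R : Set ℝ := {r | ∃ f g : Density, (∀ x ∈ Z, f.val x = 0) ∧ (∀ x ∈ Z, g.val x = 0) ∧
    r = (nu g).real (M.B f g)}
  have hne : R.Nonempty := ⟨_, f₀, f₀, h₀, h₀, rfl⟩
  have hlb : ∀ r ∈ R, a ≤ r := by
    rintro r ⟨f, g, -, -, rfl⟩
    have := M.pB f g
    rw [value_nu g (M.mB _ _) (M.sB _ _)] at this
    exact cancel (tot_pos g) (by rw [mul_comm _ a]; exact this)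
  have hbdd : BddBelow R := ⟨a, hlb⟩
  have key : ∀ γ, 0 < γ → γ < a → a ^ 5 ≤ 35 / 2 * w + 41 * γ := by
    intro γ hγ hγa
    obtain ⟨r, ⟨f, β, hf, hβ, rfl⟩, hr⟩ := exists_lt_of_csInf_lt hne
      (show sInf R < sInf R + γ by linarith)
    refine M.script ha (le_csInf hne hlb) hγ hγa (fun f g hf hg => ?_) β hβ ?_
    · rw [value_nu g (M.mB _ _) (M.sB _ _), mul_comm]
      exact mul_le_mul_of_nonneg_left (csInf_le hbdd ⟨f, g, hf, hg, rfl⟩) (tot_pos g).le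
    · have h1 := M.tA β f β
      rw [value_nu β (M.mA _ _) (M.sA _ _), value_nu β (M.mA _ _) (M.sA _ _)] at h1
      have h2 := cancel (tot_pos β) h1
      have h3 := M.waste_B f β hf hβ
      have h4 := le3 (nu β) (X := univ) (Y := M.A f β) (Z := M.B f β) (W := (M.A f β ∪ M.B f β)ᶜ)
        fun x _ => by by_cases h : x ∈ M.A f β <;> by_cases h' : x ∈ M.B f β <;> simp_all
      have h5 := dis2 (nu β) (M.mB β β) (M.disj β β) (subset_univ _)
      rw [probReal_univ] at h4 h5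
      linarith
  refine le_of_forall_pos_le_add fun ε hε => ?_
  have := key (min (a / 2) (ε / 41)) (by positivity) ((min_le_left _ _).trans_lt (by linarith))
  have h2 := min_le_right (a / 2) (ε / 41)
  linarith

end Pool.Agent.Lib.MP_e28e82_lc.Entire
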