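import Pool.Agent.Lib.MP_e28e82_lc.Mech

/-!
Properties of the scale-menu mechanism.
-/

namespace Pool.Agent.Lib.MP_e28e82_lc

open MeasureTheory Set Filter Topology

lemma SameLaw.up_eq {n : ℕ} {f g : Fin n → Density} (h : SameLaw f g) (j : Fin n) (v : ℝ) :
    m.real (up (f j) v) = m.real (up (g j) v) := by
  classical
  have key : ∀ f : Fin n → Density, m.real (up (f j) v) =
      ∫ x, ((fun r : Fin n → ℝ => if v ≤ r j then (1 : ℝ) else 0) fun l => (f l).val x) ∂m := by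
    intro f
    have h1 := integral_indicator_const (μ := m) (1 : ℝ) (PC_up (f j) v).measurableSet
    rw [smul_eq_mul, mul_one] at h1
    rw [← h1]
    refine integral_congr_ae ?_
    filter_upwards [ae_mem_I] with x hx
    by_cases hv : v ≤ (f j).val x
    · rw [indicator_of_mem (show x ∈ up (f j) v from ⟨hx, hv⟩), if_pos hv]
    · rw [indicator_of_notMem (fun hx' : x ∈ up (f j) v => hv hx'.2), if_neg hv]
  rw [key f, key g]
  exact h.integral_eq fun r : Fin n → ℝ => if v ≤ r j then (1 : ℝ) else 0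

lemma SameLaw.D_eq {n : ℕ} {f g : Fin n → Density} (h : SameLaw f g) (i : Fin n) (t β θ : ℝ) :
    D (f i) (Y f i t) β θ = D (g i) (Y g i t) β θ := by
  classical
  have key : ∀ f' : Fin n → Density, (∀ j v, m.real (up (f' j) v) = m.real (up (g j) v)) →
      ∫ x in Y f' i t, max ((f' i).val x - θ) 0 ∂m =
      ∫ x, ((fun r : Fin n → ℝ => if ∃ j ∈ Finset.univ.erase i, m.real (up (g j) (r j)) < t
        then (0 : ℝ) else max (r i - θ) 0) fun l => (f' l).val x) ∂m := by
    intro f' hf'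
    rw [← integral_indicator (PC_Y f' i t).measurableSet]
    refine integral_congr_ae ?_
    filter_upwards [ae_mem_I] with x hx
    by_cases hv : ∃ j ∈ Finset.univ.erase i, m.real (up (g j) ((f' j).val x)) < t
    · rw [if_pos hv, indicator_of_notMem]
      rintro ⟨-, hX⟩
      obtain ⟨j, hj, hlt⟩ := hv
      exact hX (mem_iUnion₂.mpr ⟨j, hj, hx, (hf' j _).symm ▸ hlt⟩)
    · rw [if_neg hv, indicator_of_mem]
      refine ⟨hx, fun hX => hv ?_⟩
      obtain ⟨j, hj, -, hlt⟩ := mem_iUnion₂.mp hX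
      exact ⟨j, hj, hf' j _ ▸ hlt⟩
  unfold D
  rw [key f h.up_eq, key g fun _ _ => rfl]
  exact congrArg _ (h.integral_eq fun r : Fin n → ℝ =>
    if ∃ j ∈ Finset.univ.erase i, m.real (up (g j) (r j)) < t then (0 : ℝ) else max (r i - θ) 0)

lemma SameLaw.symm {n : ℕ} {f g : Fin n → Density} (h : SameLaw f g) : SameLaw g f :=
  fun r => (h r).symm

lemma Density.setIntegral_nonneg' (f : Density) {A : Set ℝ} (hA : MeasurableSet A)
    (hs : A ⊆ Icc (0 : ℝ) 1) : 0 ≤ ∫ x in A, f.val x ∂m :=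
  setIntegral_nonneg hA fun x hx => f.nonneg x (hs hx)

lemma exists_good_scale {n : ℕ} (hn : 2 ≤ n) (i : Fin n) {q : ℝ} (hq : 0 < q) (hq1 : q ≤ 1) :
    ∃ k, ((n : ℝ) - 1 + kap n) * tt n i k ≤ q ∧
      q ≤ ((n : ℝ) - 1 + kap n) * (2 * (n : ℝ) - 1) ^ n * tt n i k := by
  classical
  have hn2 := n_ge hn
  have hk0 := kap_pos hn
  have hR := R_pos hn
  have hex : ∃ k, ((n : ℝ) - 1 + kap n) * tt n i k ≤ q := by
    have h1 := (tt_tendsto hn i).const_mul ((n : ℝ) - 1 + kap n)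
    rw [mul_zero] at h1
    obtain ⟨N, hN⟩ := eventually_atTop.mp (h1.eventually (gt_mem_nhds hq))
    exact ⟨N, (hN N le_rfl).le⟩
  refine ⟨Nat.find hex, Nat.find_spec hex, ?_⟩
  have hone : (2 * (n : ℝ) - 1) ^ n * (2 * (n : ℝ) - 1)⁻¹ ^ n = 1 := by
    rw [← mul_pow, mul_inv_cancel₀ hR.ne', one_pow]
  rcases Nat.eq_zero_or_pos (Nat.find hex) with h0 | hpos
  · rw [h0]
    have hle : (2 * (n : ℝ) - 1)⁻¹ ≤ 1 := inv_le_one_of_one_le₀ (by linarith)
    have h1 : (2 * (n : ℝ) - 1)⁻¹ ^ n ≤ tt n i 0 := by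
      unfold tt
      refine pow_le_pow_of_le_one (inv_pos.mpr hR).le hle ?_
      have := i.2
      omega
    have h2 : 1 ≤ (2 * (n : ℝ) - 1) ^ n * tt n i 0 :=
      hone.symm.le.trans (mul_le_mul_of_nonneg_left h1 (pow_pos hR n).le)
    rw [mul_assoc]
    nlinarith
  · obtain ⟨k, hk⟩ : ∃ k, Nat.find hex = k + 1 := ⟨Nat.find hex - 1, by omega⟩
    have h1 := Nat.find_min hex (show k < Nat.find hex by omega)
    rw [hk]
    have h2 : (2 * (n : ℝ) - 1) ^ n * tt n i (k + 1) = tt n i k := by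
      unfold tt
      have : n * (k + 1) + i + 1 = n + (n * k + i + 1) := by ring
      rw [this, pow_add, ← mul_assoc, hone, one_mul]
    rw [mul_assoc, h2]
    exact (not_le.mp h1).le

/-- The weak-type guarantee. -/
lemma weak_guarantee {n : ℕ} (hn : 2 ≤ n) (f : Fin n → Density) (i : Fin n) {u : ℝ} (hu0 : 0 ≤ u)
    (hu : ∀ k, ∃ θ, 0 ≤ θ ∧ D (f i) (Y f i (tt n i k)) (kap n * tt n i k) θ ≤ u) (v : ℝ) :
    v * m.real (up (f i) v) ≤ (2 * ((n : ℝ) - 1) ^ 2 + 1) * (2 * (n : ℝ) - 1) ^ n * u := by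
  have hn2 := n_ge hn
  have hk0 := kap_pos hn
  have hk2 := kap_mul hn
  have hR := R_pos hn
  have hC : 0 ≤ (2 * ((n : ℝ) - 1) ^ 2 + 1) * (2 * (n : ℝ) - 1) ^ n * u := by positivity
  rcases le_or_gt v 0 with hv | hv
  · exact (mul_nonpos_of_nonpos_of_nonneg hv measureReal_nonneg).trans hC
  rcases (measureReal_nonneg (μ := m) (s := up (f i) v)).eq_or_lt with hq | hq
  · rw [← hq, mul_zero]
    exact hC
  obtain ⟨k, hk1, hk3⟩ := exists_good_scale hn i hq measureReal_le_one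
  obtain ⟨θ, hθ, hD⟩ := hu k
  have ht := tt_pos hn i k
  have h1 := inter_Y_ge f i ht (S := up (f i) v) fun y hy => hy.1
  have hZ : PC (up (f i) v ∩ Y f i (tt n i k)) := (PC_up _ _).inter (PC_Y _ _ _)
  obtain ⟨c, hc⟩ := exists_cut hZ.measurableSet (a := kap n * tt n i k) (mul_pos hk0 ht).le
    (by linarith)
  have hA := (hZ.inter (PC.Iic c)).measurableSet
  have h2 := weak_dual (f i) hA (Y := Y f i (tt n i k)) (fun x hx => hx.1.2) hc.le hθ
  have h3 : ∫ _ in up (f i) v ∩ Y f i (tt n i k) ∩ Iic c, v ∂m ≤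
      ∫ x in up (f i) v ∩ Y f i (tt n i k) ∩ Iic c, (f i).val x ∂m :=
    setIntegral_mono_on (integrable_const v).integrableOn (f i).integrable.integrableOn hA
      fun x hx => hx.1.1.2
  rw [setIntegral_const, hc, smul_eq_mul] at h3
  have h4 : kap n * tt n i k * v ≤ u := by linarith
  have h5 : (n : ℝ) - 1 + kap n = (2 * ((n : ℝ) - 1) ^ 2 + 1) * kap n := by
    have : (2 * ((n : ℝ) - 1) ^ 2 + 1) * kap n =
      2 * ((n : ℝ) - 1) * (((n : ℝ) - 1) * kap n) + kap n := by ring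
    rw [this, hk2]
    ring
  calc v * m.real (up (f i) v)
      ≤ v * (((n : ℝ) - 1 + kap n) * (2 * (n : ℝ) - 1) ^ n * tt n i k) :=
        mul_le_mul_of_nonneg_left hk3 hv.le
    _ = (2 * ((n : ℝ) - 1) ^ 2 + 1) * (2 * (n : ℝ) - 1) ^ n * (kap n * tt n i k * v) := by
        rw [h5]; ring
    _ ≤ _ := mul_le_mul_of_nonneg_left h4 (by positivity)

lemma total_le (f : Density) {k : ℕ} (hk : f.ValuesLe k) {c : ℝ} (hc : 0 ≤ c)
    (h : ∀ v, v * m.real (up f v) ≤ c) : f.value (Icc 0 1) ≤ k * c := by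
  obtain ⟨V, hV, hmem⟩ := hk
  have hint : ∀ v ∈ V, Integrable (indicator (up f v) fun _ => max v 0) m := fun v _ =>
    (integrable_const _).indicator (PC_up f v).measurableSet
  have h1 : ∫ x, f.val x ∂m ≤ ∫ x, ∑ v ∈ V, indicator (up f v) (fun _ => max v 0) x ∂m := by
    refine integral_mono_ae f.integrable (integrable_finsetSum _ hint) ?_
    filter_upwards [ae_mem_I] with x hx
    refine le_trans ?_ (Finset.single_le_sum (f := fun v => indicator (up f v)
      (fun _ => max v 0) x) (fun v _ => indicator_nonneg (fun _ _ => le_max_right _ _) x)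
      (hmem x hx))
    rw [indicator_of_mem (show x ∈ up f (f.val x) from ⟨hx, le_rfl⟩)]
    exact le_max_left _ _
  rw [integral_finsetSum _ hint] at h1
  have h2 := Finset.sum_le_card_nsmul V
    (fun v => ∫ x, indicator (up f v) (fun _ => max v 0) x ∂m) c fun v _ => by
      rw [integral_indicator_const _ (PC_up f v).measurableSet, smul_eq_mul, mul_comm]
      rcases le_total v 0 with hv | hv
      · rw [max_eq_right hv, zero_mul]
        exact hc
      · rw [max_eq_left hv]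
        exact h v
  rw [nsmul_eq_mul] at h2
  have h3 : (V.card : ℝ) * c ≤ k * c := mul_le_mul_of_nonneg_right (Nat.cast_le.mpr hV) hc
  unfold Density.value
  linarith

theorem exists_mechanism (n : ℕ) (hn : 2 ≤ n) :
    ∃ M : Mechanism n, M.Truthful ∧ M.ObliviousOn (fun _ => True) ∧
      (∀ (f : Fin n → Density) (i : Fin n), IsFiniteUnionOfIntervals (M.alloc f i)) ∧
      (∀ (f : Fin n → Density) (i : Fin n), 0 < (f i).value (M.alloc f i)) ∧
      (∀ (f : Fin n → Density) (i : Fin n) (v : ℝ),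
        v * (volume {x ∈ Icc (0 : ℝ) 1 | v ≤ (f i).val x}).toReal /
        ((2 * ((n : ℝ) - 1) ^ 2 + 1) * (2 * (n : ℝ) - 1) ^ n) ≤ (f i).value (M.alloc f i)) ∧
      (∀ (f : Fin n → Density) (i : Fin n) (k : ℕ), (f i).ValuesLe k →
        (f i).value (Icc 0 1) /
        ((2 * ((n : ℝ) - 1) ^ 2 + 1) * (2 * (n : ℝ) - 1) ^ n * k) ≤
          (f i).value (M.alloc f i)) := by
  choose A hA hd using exists_alloc hn
  have hsub : ∀ f i, A f i ⊆ Icc (0 : ℝ) 1 := fun f i => by
    obtain ⟨k, hk, -⟩ := (hA f i).2.1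
    exact hk.trans (Y_subset _ _ _)
  have hmeas : ∀ f i, MeasurableSet (A f i) := fun f i => (hA f i).1.measurableSet
  have hval : ∀ (g : Density) f i, g.value (A f i) = ∫ x in A f i, g.val x ∂m := fun g f i =>
    g.value_eq (hmeas f i) (hsub f i)
  have hR := R_pos hn
  have hC : 0 < (2 * ((n : ℝ) - 1) ^ 2 + 1) * (2 * (n : ℝ) - 1) ^ n := by positivity
  have hu0 : ∀ f i, 0 ≤ ∫ x in A f i, (f i).val x ∂m := fun f i =>
    (f i).setIntegral_nonneg' (hmeas f i) (hsub f i)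
  have hweak := fun f i => weak_guarantee hn f i (hu0 f i) (hA f i).2.2
  have htot : ∀ f i (k : ℕ), (f i).ValuesLe k → (f i).value (Icc 0 1) ≤
      k * ((2 * ((n : ℝ) - 1) ^ 2 + 1) * (2 * (n : ℝ) - 1) ^ n *
        ∫ x in A f i, (f i).val x ∂m) := fun f i k hk =>
    total_le (f i) hk (mul_nonneg hC.le (hu0 f i)) (hweak f i)
  have hle : ∀ f g : Fin n → Density, SameLaw f g → ∀ i,
      (f i).value (A f i) ≤ (g i).value (A g i) := by
    intro f g h i
    obtain ⟨k, hk1, hk2⟩ := (hA f i).2.1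
    obtain ⟨θ, hθ, hD⟩ := (hA g i).2.2 k
    rw [hval, hval]
    rw [← h.D_eq] at hD
    exact (weak_dual (f i) (hmeas f i) hk1 hk2 hθ).trans hD
  refine ⟨⟨A, hmeas, hsub, hd⟩, ?_, ?_, fun f i => (hA f i).1.finiteUnion, ?_, ?_, ?_⟩
  · intro f i g
    obtain ⟨k, hk1, hk2⟩ := (hA (Function.update f i g) i).2.1
    obtain ⟨θ, hθ, hD⟩ := (hA f i).2.2 k
    rw [Y_update] at hk1
    show (f i).value (A (Function.update f i g) i) ≤ (f i).value (A f i)
    rw [hval, hval]
    exact (weak_dual (f i) (hmeas _ i) hk1 hk2 hθ).trans hD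
  · intro f g _ _ h i
    exact le_antisymm (hle f g h i) (hle g f h.symm i)
  · intro f i
    show 0 < (f i).value (A f i)
    have hk : (f i).ValuesLe (f i).finite_range.toFinset.card :=
      ⟨_, le_rfl, fun x hx => (Finite.mem_toFinset _).mpr ⟨x, hx, rfl⟩⟩
    have h1 := htot f i _ hk
    have h2 : 0 < (f i).value (Icc 0 1) := (f i).pos
    rw [hval]
    refine lt_of_le_of_ne (hu0 f i) fun h0 => ?_
    rw [← h0, mul_zero, mul_zero] at h1
    linarith
  · intro f i v
    show _ ≤ (f i).value (A f i)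
    rw [hval, div_le_iff₀ hC, mul_comm (∫ x in A f i, (f i).val x ∂m)]
    have h1 := hweak f i v
    rw [Measure.real, m_eq_volume (PC_up _ _).measurableSet fun x hx => hx.1] at h1
    exact h1
  · intro f i k hk
    show _ ≤ (f i).value (A f i)
    have h1 := htot f i k hk
    have h2 : 0 < (f i).value (Icc 0 1) := (f i).pos
    have hk0 : (0 : ℝ) < k := by
      rcases Nat.eq_zero_or_pos k with rfl | h
      · simp only [Nat.cast_zero, zero_mul] at h1
        linarith
      · exact_mod_cast h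
    rw [hval, div_le_iff₀ (mul_pos hC hk0)]
    linarith

end Pool.Agent.Lib.MP_e28e82_lc
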