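import Pool.Agent.Lib.MP_e28e82_lc.HungrySteps

/-!
Two truthful agents whose densities have one fixed support: approximate proportionality and
little waste are incompatible.
-/

namespace Pool.Agent.Lib.MP_e28e82_lc.Hungry

open MeasureTheory Set Entire

/-- The densities `d` and `f` vanish at the same points of the cake. -/
def SameZeros (d f : Density) : Prop := ∀ x ∈ Icc (0 : ℝ) 1, f.val x = 0 ↔ d.val x = 0

lemma SameZeros.refl (d : Density) : SameZeros d d := fun _ _ => Iff.rfl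

lemma wt_same (W : Wt) {d β : Density} (hβ : SameZeros d β) (hpos : 0 < W.val β univ)
    (h : ∀ x, ∃ j, x ∈ W.S j ∧ 0 < W.d j) : SameZeros d (W.dens β hpos) := by
  intro x hx
  rw [← hβ x hx]
  refine ⟨fun h0 => ?_, fun h0 => W.zero β hpos h0⟩
  obtain ⟨j, hj, hd⟩ := h x
  have h1 : ∑ j, (W.S j).indicator (fun x => W.d j * β.val x) x = 0 := h0
  have h2 := (Finset.sum_eq_zero_iff_of_nonneg fun k _ => by
    by_cases h : x ∈ W.S k
    · rw [indicator_of_mem h]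
      exact mul_nonneg (W.nonneg k) (β.nonneg x hx)
    · rw [indicator_of_notMem h]).1 h1 j (Finset.mem_univ _)
  rw [indicator_of_mem hj] at h2
  exact (mul_eq_zero.1 h2).resolve_left hd.ne'

/-- The data of a two-agent mechanism on densities with the zero set of `d`. -/
structure Duo (d : Density) (a w : ℝ) where
  A : Density → Density → Set ℝ
  B : Density → Density → Set ℝ
  mA : ∀ f g, MeasurableSet (A f g)
  mB : ∀ f g, MeasurableSet (B f g)
  sA : ∀ f g, A f g ⊆ Icc (0 : ℝ) 1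
  sB : ∀ f g, B f g ⊆ Icc (0 : ℝ) 1
  disj : ∀ f g, Disjoint (A f g) (B f g)
  tA : ∀ f f' g : Density, SameZeros d f → SameZeros d f' → SameZeros d g →
    f.value (A f' g) ≤ f.value (A f g)
  tB : ∀ f g g' : Density, SameZeros d f → SameZeros d g → SameZeros d g' →
    g.value (B f g') ≤ g.value (B f g)
  pA : ∀ f g : Density, SameZeros d f → SameZeros d g → a * f.value (Icc 0 1) ≤ f.value (A f g)
  pB : ∀ f g : Density, SameZeros d f → SameZeros d g → a * g.value (Icc 0 1) ≤ g.value (B f g)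
  wA : ∀ f g : Density, SameZeros d f → SameZeros d g →
    f.value (Icc 0 1 \ (A f g ∪ B f g)) ≤ w * f.value (Icc 0 1)
  wB : ∀ f g : Density, SameZeros d f → SameZeros d g →
    g.value (Icc 0 1 \ (A f g ∪ B f g)) ≤ w * g.value (Icc 0 1)

variable {d : Density} {a w : ℝ} (M : Duo d a w)

lemma Duo.waste_A (β g : Density) (hβ : SameZeros d β) (hg : SameZeros d g) :
    (nu β).real (M.A β g ∪ M.B β g)ᶜ ≤ w := by
  have h := M.wA β g hβ hg
  rw [value_nu β (measurableSet_Icc.diff ((M.mA _ _).union (M.mB _ _))) sdiff_subset, sdiff_eq,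
    nu_I_inter] at h
  exact cancel (tot_pos β) (by rw [mul_comm _ w]; exact h)

lemma Duo.waste_B (f β : Density) (hf : SameZeros d f) (hβ : SameZeros d β) :
    (nu β).real (M.A f β ∪ M.B f β)ᶜ ≤ w := by
  have h := M.wB f β hf hβ
  rw [value_nu β (measurableSet_Icc.diff ((M.mA _ _).union (M.mB _ _))) sdiff_subset, sdiff_eq,
    nu_I_inter] at h
  exact cancel (tot_pos β) (by rw [mul_comm _ w]; exact h)

include M in
lemma Duo.script (ha : 0 < a) {y γ : ℝ} (hay : a ≤ y) (hγ : 0 < γ) (hγa : γ < a)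
    (hy : ∀ f g : Density, SameZeros d f → SameZeros d g →
      y * g.value (Icc 0 1) ≤ g.value (M.B f g))
    (β : Density) (hβ : SameZeros d β) (hu : (nu β).real (M.B β β) ≤ y + γ + w) :
    a ^ 4 ≤ 34 * w + 110 * γ := by
  have hN := tot_pos β
  have vA : ∀ f g, β.value (M.A f g) = tot β * (nu β).real (M.A f g) :=
    fun f g => value_nu β (M.mA _ _) (M.sA _ _)
  have vB : ∀ f g, β.value (M.B f g) = tot β * (nu β).real (M.B f g) :=
    fun f g => value_nu β (M.mB _ _) (M.sB _ _)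
  have hyu : y ≤ (nu β).real (M.B β β) := by
    have := hy β β hβ hβ
    rw [vB] at this
    exact cancel hN (by rw [mul_comm _ y]; exact this)
  have hua : (nu β).real (M.B β β) ≤ 1 - a := by
    have h1 := M.pA β β hβ hβ
    rw [vA] at h1
    have h2 : a ≤ (nu β).real (M.A β β) := cancel hN (by rw [mul_comm _ a]; exact h1)
    have h3 := dis2 (nu β) (M.mB β β) (M.disj β β) (subset_univ _)
    rw [probReal_univ] at h3
    linarith
  have hγ1 : γ ≤ 1 := by linarith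
  have he : 0 < γ * γ := mul_pos hγ hγ
  have heγ : γ * γ ≤ γ := mul_le_of_le_one_left hγ.le hγ1
  have hK : 1 ≤ γ⁻¹ := (one_le_inv₀ hγ).mpr hγ1
  have hKγ : γ⁻¹ * γ = 1 := inv_mul_cancel₀ hγ.ne'
  obtain ⟨c, hc⟩ : ∃ c, c = a * y / 2 := ⟨_, rfl⟩
  have hcp : 0 < c := by
    rw [hc]
    have : 0 < y := by linarith
    positivity
  have hc0 : 0 ≤ c := hcp.le
  have hc1 : c ≤ 1 := by rw [hc]; nlinarith
  obtain ⟨P, hP, eU, eU'⟩ := exists_PC_close β (M.mB β β) he
  have mP := hP.measurableSet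
  have hq : (nu β).real P ≤ (nu β).real (M.B β β) + γ * γ := by
    have := le2 (nu β) (X := P) (Y := M.B β β) (Z := P \ M.B β β)
      fun x hx => by by_cases h : x ∈ M.B β β <;> simp_all
    linarith
  have hq' : (nu β).real (M.B β β) - γ * γ ≤ (nu β).real P := by
    have := le2 (nu β) (X := M.B β β) (Y := P) (Z := M.B β β \ P)
      fun x hx => by by_cases h : x ∈ P <;> simp_all
    linarith
  have hqpos : 0 < (nu β).real P := by linarith
  let W2 : Wt := ⟨![Pᶜ, P, ∅, ∅], ![c, 1, 0, 0],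
    fun j => by fin_cases j; exacts [hP.compl, hP, PC.empty, PC.empty],
    fun j => by fin_cases j; exacts [hc0, zero_le_one, le_rfl, le_rfl]⟩
  have eW2 : ∀ X, W2.val β X = c * (nu β).real (X ∩ Pᶜ) + (nu β).real (X ∩ P) := fun X => by
    simp [W2, Wt.val, Fin.sum_univ_four]
  have pW2 : 0 < W2.val β univ := by
    rw [eW2, univ_inter, univ_inter]
    have := mul_nonneg hc0 (nn (nu β) Pᶜ)
    linarith
  let V1 : Wt := ⟨![P, ∅, ∅, univ], ![1, 0, 0, γ * γ],
    fun j => by fin_cases j; exacts [hP, PC.empty, PC.empty, PC.univ],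
    fun j => by fin_cases j; exacts [zero_le_one, le_rfl, le_rfl, he.le]⟩
  have eV1 : ∀ X, V1.val β X = (nu β).real (X ∩ P) + γ * γ * (nu β).real X := fun X => by
    simp [V1, Wt.val, Fin.sum_univ_four]
  have e0 : ∀ X, 0 ≤ γ * γ * (nu β).real X := fun X => mul_nonneg he.le (nn _ _)
  have e1 : ∀ X, γ * γ * (nu β).real X ≤ γ * γ := fun X => mul_le_of_le_one_right he.le (le1 _ _)
  have pV1 : 0 < V1.val β univ := by
    rw [eV1, univ_inter]
    linarith [e0 univ]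
  obtain ⟨f2, hf2⟩ : ∃ f, f = W2.dens β pW2 := ⟨_, rfl⟩
  obtain ⟨g1, hg1⟩ : ∃ f, f = V1.dens β pV1 := ⟨_, rfl⟩
  obtain ⟨Ah, hAh, eA, eA'⟩ := exists_PC_close β (M.mA f2 g1) he
  obtain ⟨Bh, hBh, eB, eB'⟩ := exists_PC_close β (M.mB f2 g1) he
  let W1 : Wt := ⟨![Pᶜ, P, Pᶜ ∩ Ah, P ∩ Ah], ![c, 1, γ⁻¹, 1],
    fun j => by fin_cases j; exacts [hP.compl, hP, hP.compl.inter hAh, hP.inter hAh],
    fun j => by fin_cases j; exacts [hc0, zero_le_one, zero_le_one.trans hK, zero_le_one]⟩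
  have eW1 : ∀ X, W1.val β X = c * (nu β).real (X ∩ Pᶜ) + (nu β).real (X ∩ P) +
      γ⁻¹ * (nu β).real (X ∩ (Pᶜ ∩ Ah)) + (nu β).real (X ∩ (P ∩ Ah)) := fun X => by
    simp [W1, Wt.val, Fin.sum_univ_four]
  have pW1 : 0 < W1.val β univ := by
    rw [eW1, univ_inter, univ_inter]
    have h1 := mul_nonneg hc0 (nn (nu β) Pᶜ)
    have h2 := mul_nonneg (zero_le_one.trans hK) (nn (nu β) (univ ∩ (Pᶜ ∩ Ah)))
    have h3 := nn (nu β) (univ ∩ (P ∩ Ah))
    linarith
  let V2 : Wt := ⟨![Pᶜ ∩ Ah, P, ∅, univ], ![1 - γ, 1, 0, γ * γ],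
    fun j => by fin_cases j; exacts [hP.compl.inter hAh, hP, PC.empty, PC.univ],
    fun j => by fin_cases j; exacts [sub_nonneg.mpr hγ1, zero_le_one, le_rfl, he.le]⟩
  have eV2 : ∀ X, V2.val β X = (1 - γ) * (nu β).real (X ∩ (Pᶜ ∩ Ah)) + (nu β).real (X ∩ P) +
      γ * γ * (nu β).real X :=
    fun X => by simp [V2, Wt.val, Fin.sum_univ_four]
  have pV2 : 0 < V2.val β univ := by
    rw [eV2, univ_inter, univ_inter]
    have := mul_nonneg (sub_nonneg.mpr hγ1) (nn (nu β) (Pᶜ ∩ Ah))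
    linarith [e0 univ]
  let V3 : Wt := ⟨![P, P ∩ Bh, Pᶜ ∩ Bh, univ], ![1, 1, γ⁻¹, γ * γ],
    fun j => by fin_cases j; exacts [hP, hP.inter hBh, hP.compl.inter hBh, PC.univ],
    fun j => by fin_cases j; exacts [zero_le_one, zero_le_one, zero_le_one.trans hK, he.le]⟩
  have eV3 : ∀ X, V3.val β X = (nu β).real (X ∩ P) + (nu β).real (X ∩ (P ∩ Bh)) +
      γ⁻¹ * (nu β).real (X ∩ (Pᶜ ∩ Bh)) + γ * γ * (nu β).real X := fun X => by
    simp [V3, Wt.val, Fin.sum_univ_four]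
  have pV3 : 0 < V3.val β univ := by
    rw [eV3, univ_inter]
    have h2 := mul_nonneg (zero_le_one.trans hK) (nn (nu β) (univ ∩ (Pᶜ ∩ Bh)))
    have h3 := nn (nu β) (univ ∩ (P ∩ Bh))
    linarith [e0 univ]
  obtain ⟨f1, hf1⟩ : ∃ f, f = W1.dens β pW1 := ⟨_, rfl⟩
  obtain ⟨g2, hg2⟩ : ∃ f, f = V2.dens β pV2 := ⟨_, rfl⟩
  obtain ⟨g3, hg3⟩ : ∃ f, f = V3.dens β pV3 := ⟨_, rfl⟩
  have zf1 : SameZeros d f1 := hf1 ▸ wt_same W1 hβ pW1 fun x => by
    by_cases h : x ∈ P
    · exact ⟨1, h, one_pos⟩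
    · exact ⟨0, h, hcp⟩
  have zf2 : SameZeros d f2 := hf2 ▸ wt_same W2 hβ pW2 fun x => by
    by_cases h : x ∈ P
    · exact ⟨1, h, one_pos⟩
    · exact ⟨0, h, hcp⟩
  have zg1 : SameZeros d g1 := hg1 ▸ wt_same V1 hβ pV1 fun x => ⟨3, mem_univ x, he⟩
  have zg2 : SameZeros d g2 := hg2 ▸ wt_same V2 hβ pV2 fun x => ⟨3, mem_univ x, he⟩
  have zg3 : SameZeros d g3 := hg3 ▸ wt_same V3 hβ pV3 fun x => ⟨3, mem_univ x, he⟩
  have vf1 : ∀ f g, f1.value (M.A f g) = tot β * W1.val β (M.A f g) :=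
    fun f g => hf1 ▸ W1.value β pW1 (M.mA _ _) (M.sA _ _)
  have vf2 : ∀ f g, f2.value (M.A f g) = tot β * W2.val β (M.A f g) :=
    fun f g => hf2 ▸ W2.value β pW2 (M.mA _ _) (M.sA _ _)
  have vg1 : ∀ f g, g1.value (M.B f g) = tot β * V1.val β (M.B f g) :=
    fun f g => hg1 ▸ V1.value β pV1 (M.mB _ _) (M.sB _ _)
  have vg2 : ∀ f g, g2.value (M.B f g) = tot β * V2.val β (M.B f g) :=
    fun f g => hg2 ▸ V2.value β pV2 (M.mB _ _) (M.sB _ _)
  have vg3 : ∀ f g, g3.value (M.B f g) = tot β * V3.val β (M.B f g) :=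
    fun f g => hg3 ▸ V3.value β pV3 (M.mB _ _) (M.sB _ _)
  have If2 : f2.value (Icc 0 1) = tot β * W2.val β univ := hf2 ▸ W2.value_I β pW2
  have Ig2 : g2.value (Icc 0 1) = tot β * V2.val β univ := hg2 ▸ V2.value_I β pV2
  have Ig3 : g3.value (Icc 0 1) = tot β * V3.val β univ := hg3 ▸ V3.value_I β pV3
  have hy0 : 0 ≤ y := by linarith
  have t6 : (nu β).real (M.B β g2) ≤ (nu β).real (M.B β β) := by
    have := M.tB β β g2 hβ hβ zg2
    rw [vB, vB] at this
    exact cancel hN this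
  have s1 := stepA (nu β) (P := P) (U := M.B β β) (A' := M.A f2 g1) (Ah := Ah) (X1 := M.A f1 g1)
    (Y1 := M.B f1 g1) (X2 := M.A f1 g2) (Y2 := M.B f1 g2) (Z2 := M.A β g2) (W2 := M.B β g2)
    (c := c) (w := w) (y := y) mP hAh.measurableSet (M.mB _ _) (M.mB _ _) hc0 hc1 hK hγ hKγ hy0
    eU eA eA'
    (by have := M.tA f1 f2 g1 zf1 zf2 zg1; rw [vf1, vf1, eW1, eW1] at this; exact cancel hN this)
    (by have := M.tA f2 f1 g1 zf2 zf1 zg1; rw [vf2, vf2, eW2, eW2] at this; exact cancel hN this)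
    (M.disj _ _)
    (by
      have := M.tB f1 g1 g2 zf1 zg1 zg2
      rw [vg1, vg1, eV1, eV1] at this
      have h := cancel hN this
      linarith only [h, e0 (M.B f1 g2), e1 (M.B f1 g1)])
    (by
      have := M.tB β g2 β hβ zg2 hβ
      rw [vg2, vg2, eV2, eV2] at this
      have h := cancel hN this
      have h' := mul_le_mul_of_nonneg_left t6 he.le
      linarith only [h, h'])
    t6
    (M.waste_A β g2 hβ zg2)
    (by have := M.tA f1 β g2 zf1 hβ zg2; rw [vf1, vf1, eW1, eW1] at this; exact cancel hN this)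
    (M.disj _ _)
    (by
      have := hy f1 g2 zf1 zg2
      rw [vg2, Ig2, eV2, eV2, univ_inter, univ_inter] at this
      have h := cancel' hN this
      have h' := mul_nonneg hy0 (e0 univ)
      linarith only [h, h', e1 (M.B f1 g2)])
  have s2 := stepB (nu β) (P := P) (U := M.B β β) (B' := M.B f2 g1) (Bh := Bh) (X3 := M.A f2 g3)
    (Y3 := M.B f2 g3) (Z3 := M.A β g3) (W3 := M.B β g3)
    (c := c) (w := w) (y := y) mP (M.mB _ _) (M.mB _ _) hc0 hc1 hK hγ hKγ hy0 (by linarith)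
    eU eB eB'
    (by
      have h1 := M.tB f2 g3 g1 zf2 zg3 zg1
      rw [vg3, vg3, eV3, eV3] at h1
      have h2 := M.tB f2 g1 g3 zf2 zg1 zg3
      rw [vg1, vg1, eV1, eV1] at h2
      linarith only [cancel hN h1, cancel hN h2])
    (M.disj _ _)
    (by
      have := hy β g3 hβ zg3
      rw [vg3, Ig3, eV3, eV3, univ_inter, univ_inter, univ_inter] at this
      have h := cancel' hN this
      have h' := mul_nonneg hy0 (e0 univ)
      linarith only [h, h', e1 (M.B β g3), heγ, hγ1])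
    (by have := M.tB β β g3 hβ hβ zg3; rw [vB, vB] at this; exact cancel hN this)
    (M.waste_A β g3 hβ zg3) (M.disj _ _)
    (by have := M.tA f2 β g3 zf2 hβ zg3; rw [vf2, vf2, eW2, eW2] at this; exact cancel hN this)
  have hQ := compl_eq (nu β) mP
  have hF : a * (c * (1 - (nu β).real P) + (nu β).real P) ≤
      c * (nu β).real (M.A f2 g1 ∩ Pᶜ) + (nu β).real (M.A f2 g1 ∩ P) := by
    have := M.pA f2 g1 zf2 zg1
    rw [vf2, If2, eW2, eW2, univ_inter, univ_inter, hQ] at this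
    exact cancel' hN this
  have hD := dis2 (nu β) (X := M.A f2 g1 ∩ Pᶜ) (Y := M.B f2 g1 ∩ Pᶜ) (Z := Pᶜ)
    ((M.mB _ _).inter mP.compl) ((M.disj _ _).mono inter_subset_left inter_subset_left)
    (by rintro x (hx | hx); exacts [hx.2, hx.2])
  have hE := dis2 (nu β) (X := M.A f2 g1 ∩ P) (Y := M.B f2 g1 ∩ P) (Z := P)
    ((M.mB _ _).inter mP) ((M.disj _ _).mono inter_subset_left inter_subset_left)
    (by rintro x (hx | hx); exacts [hx.2, hx.2])
  have hW : c * (1 - (nu β).real P - (nu β).real (M.A f2 g1 ∩ Pᶜ) - (nu β).real (M.B f2 g1 ∩ Pᶜ)) +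
      ((nu β).real P - (nu β).real (M.A f2 g1 ∩ P) - (nu β).real (M.B f2 g1 ∩ P)) ≤ w := by
    have h := M.wA f2 g1 zf2 zg1
    have hm : MeasurableSet (Icc (0 : ℝ) 1 \ (M.A f2 g1 ∪ M.B f2 g1)) :=
      measurableSet_Icc.diff ((M.mA f2 g1).union (M.mB f2 g1))
    have h0 : f2.value (Icc 0 1 \ (M.A f2 g1 ∪ M.B f2 g1)) =
        tot β * W2.val β (Icc 0 1 \ (M.A f2 g1 ∪ M.B f2 g1)) := by
      have := W2.value β pW2 hm sdiff_subset
      rwa [← hf2] at this
    rw [h0, If2, eW2, eW2, univ_inter, univ_inter, sdiff_eq, inter_assoc, inter_assoc, nu_I_inter,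
      nu_I_inter] at h
    have h1 := cancel'' hN h
    have h2 := le3 (nu β) (X := P) (Y := M.A f2 g1 ∩ P) (Z := M.B f2 g1 ∩ P)
      (W := (M.A f2 g1 ∪ M.B f2 g1)ᶜ ∩ P)
      fun x hx => by by_cases h : x ∈ M.A f2 g1 <;> by_cases h' : x ∈ M.B f2 g1 <;> simp_all
    have h3 := le3 (nu β) (X := Pᶜ) (Y := M.A f2 g1 ∩ Pᶜ) (Z := M.B f2 g1 ∩ Pᶜ)
      (W := (M.A f2 g1 ∪ M.B f2 g1)ᶜ ∩ Pᶜ)
      fun x hx => by by_cases h : x ∈ M.A f2 g1 <;> by_cases h' : x ∈ M.B f2 g1 <;> simp_all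
    have h4 := mul_le_mul_of_nonneg_left h3 hc0
    have hw : 0 ≤ w := (nn _ _).trans (M.waste_A β β hβ hβ)
    have h5 : c * (nu β).real Pᶜ ≤ (nu β).real Pᶜ := mul_le_of_le_one_left (nn _ _) hc1
    have h6 : w * (c * (nu β).real Pᶜ + (nu β).real P) ≤ w :=
      mul_le_of_le_one_right hw (by linarith)
    rw [hQ] at h4
    linarith
  exact arith4 ha hay hyu hu hua hγ he.le heγ (by rw [← mul_assoc, hKγ, one_mul]) hc hq hq'
    (le1 _ _) (nn _ _) (nn _ _) (nn _ _) (by linarith) (by linarith) hW hF s1 s2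

include M in
theorem Duo.bound (ha : 0 < a) : a ^ 4 ≤ 34 * w := by
  let R : Set ℝ := {r | ∃ f g : Density, SameZeros d f ∧ SameZeros d g ∧
    r = (nu g).real (M.B f g)}
  have hne : R.Nonempty := ⟨_, d, d, SameZeros.refl d, SameZeros.refl d, rfl⟩
  have hlb : ∀ r ∈ R, a ≤ r := by
    rintro r ⟨f, g, hf, hg, rfl⟩
    have := M.pB f g hf hg
    rw [value_nu g (M.mB _ _) (M.sB _ _)] at this
    exact cancel (tot_pos g) (by rw [mul_comm _ a]; exact this)
  have hbdd : BddBelow R := ⟨a, hlb⟩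
  have key : ∀ γ, 0 < γ → γ < a → a ^ 4 ≤ 34 * w + 110 * γ := by
    intro γ hγ hγa
    obtain ⟨r, ⟨f, β, hf, hβ, rfl⟩, hr⟩ := exists_lt_of_csInf_lt hne
      (show sInf R < sInf R + γ by linarith)
    refine M.script ha (le_csInf hne hlb) hγ hγa (fun f g hf hg => ?_) β hβ ?_
    · rw [value_nu g (M.mB _ _) (M.sB _ _), mul_comm]
      exact mul_le_mul_of_nonneg_left (csInf_le hbdd ⟨f, g, hf, hg, rfl⟩) (tot_pos g).le
    · have h1 := M.tA β f β hβ hf hβ
      rw [value_nu β (M.mA _ _) (M.sA _ _), value_nu β (M.mA _ _) (M.sA _ _)] at h1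
      have h2 := cancel (tot_pos β) h1
      have h3 := M.waste_B f β hf hβ
      have h4 := le3 (nu β) (X := univ) (Y := M.A f β) (Z := M.B f β) (W := (M.A f β ∪ M.B f β)ᶜ)
        fun x _ => by by_cases h : x ∈ M.A f β <;> by_cases h' : x ∈ M.B f β <;> simp_all
      have h5 := dis2 (nu β) (M.mB β β) (M.disj β β) (subset_univ _)
      rw [probReal_univ] at h4 h5
      linarith
  refine le_of_forall_pos_le_add fun ε hε => ?_
  have := key (min (a / 2) (ε / 110)) (by positivity) ((min_le_left _ _).trans_lt (by linarith))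
  have h2 := min_le_right (a / 2) (ε / 110)
  linarith

end Pool.Agent.Lib.MP_e28e82_lc.Hungry
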