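import Pool.Agent.Lib.MP_e28e82_lc.HungryTwo
import Pool.Agent.Lib.MP_e28e82_lc.EntireAgents

/-!
The `n`-agent waste bound follows from the two-agent bound on a fixed support.
-/

namespace Pool.Agent.Lib.MP_e28e82_lc.Hungry

open MeasureTheory Set Entire

theorem old_of_two (n : ℕ) (i k : Fin n) (hik : i ≠ k) (M : Mechanism n) (hT : M.Truthful)
    (α w : ℝ) (hα : ∀ (f : Fin n → Density) (j : Fin n),
      α / n * (f j).value (Icc 0 1) ≤ (f j).value (M.alloc f j))
    (hw : ∀ (f : Fin n → Density) (j : Fin n), j = i ∨ j = k →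
      (f j).value (M.wasted i k f) ≤ w * (f j).value (Icc 0 1)) :
    α ^ 5 ≤ 35 / 2 * n ^ 5 * w := by
  have hn0 : (0 : ℝ) < n := by exact_mod_cast i.pos
  have p1 : 0 < m.real (Icc (1 / 2 : ℝ) 1) := by
    rw [Measure.real, m_eq_volume measurableSet_Icc (Icc_subset_Icc_left (by norm_num))]
    norm_num
  have p0 : 0 < m.real (Ico (0 : ℝ) (1 / 2)) := by
    rw [Measure.real, m_eq_volume measurableSet_Ico
      (Ico_subset_Icc_self.trans (Icc_subset_Icc_right (by norm_num)))]
    norm_num
  let h := ind (Icc (1 / 2) 1) (PC.Icc _ _) p1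
  have key : ∀ f g d : Density, (∀ x ∈ Icc (1 / 2 : ℝ) 1, d.val x = 0) →
      d.value (Icc 0 1 \ (M.alloc (patt i k f g h) i ∪ M.alloc (patt i k f g h) k)) ≤
        d.value (M.wasted i k (patt i k f g h)) := by
    intro f g d hd
    rw [value_nu d (measurableSet_Icc.diff ((M.measurable _ _).union (M.measurable _ _)))
      sdiff_subset, value_nu d (M.measurableSet_wasted _ _ _) fun x hx => hx.1]
    refine mul_le_mul_of_nonneg_left ?_ (tot_pos d).le
    have h1 := le2 (nu d)
      (X := Icc 0 1 \ (M.alloc (patt i k f g h) i ∪ M.alloc (patt i k f g h) k))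
      (Y := M.wasted i k (patt i k f g h)) (Z := Icc (1 / 2 : ℝ) 1) (by
        rintro x ⟨hx, hx'⟩
        by_cases hz : x ∈ Icc (1 / 2 : ℝ) 1
        · exact Or.inr hz
        · refine Or.inl ⟨hx, fun e => hx' (Or.inl e), fun e => hx' (Or.inr e), fun l hl => ?_⟩
          have h1 : l ≠ i := fun e => hx' (Or.inl (e ▸ hl))
          have h2 : l ≠ k := fun e => hx' (Or.inr (e ▸ hl))
          have h3 : patt i k f g h l = h := by simp [patt, h1, h2]
          rw [h3]
          exact indicator_of_notMem hz fun _ => (1 : ℝ))
    rw [nu_zero d measurableSet_Icc hd] at h1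
    linarith
  have hw0 : 0 ≤ w := by
    have h1 := hw (fun _ => one) i (Or.inl rfl)
    rw [value_nu one (M.measurableSet_wasted _ _ _) fun x hx => hx.1] at h1
    have h2 : 0 ≤ w * tot one := (mul_nonneg (tot_pos one).le (nn _ _)).trans h1
    exact nonneg_of_mul_nonneg_left h2 (tot_pos one)
  rcases le_or_gt α 0 with h0 | h0
  · exact (Odd.pow_nonpos (by decide) h0).trans (by positivity)
  let d := ind (Ico 0 (1 / 2)) (PC.Ico _ _) p0
  have hz : ∀ f : Density, SameZeros d f → ∀ x ∈ Icc (1 / 2 : ℝ) 1, f.val x = 0 :=
    fun f hf x hx => (hf x ⟨by linarith [hx.1], hx.2⟩).2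
      (indicator_of_notMem (s := Ico (0 : ℝ) (1 / 2)) (fun h' => absurd h'.2 (not_lt.mpr hx.1))
        fun _ => (1 : ℝ))
  let N : Mechanism 2 :=
    { alloc := fun f j => M.alloc (patt i k (f 0) (f 1) h) (![i, k] j)
      measurable := fun _ _ => M.measurable _ _
      subset := fun _ _ => M.subset _ _
      disjoint := fun f a b hab => M.disjoint _ _ _ (by
        fin_cases a <;> fin_cases b
        · exact absurd rfl hab
        · exact hik
        · exact hik.symm
        · exact absurd rfl hab) }
  have hb := two_agents d N (2 * (α / n)) w (by positivity)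
    (fun f _ j g _ => by
      fin_cases j
      · have := hT (patt i k (f 0) (f 1) h) i g
        rw [update_fst, patt_fst] at this
        simpa [N] using this
      · have := hT (patt i k (f 0) (f 1) h) k g
        rw [update_snd hik, patt_snd hik] at this
        simpa [N] using this)
    (fun f _ j => by
      have e : 2 * (α / n) / 2 = α / n := by ring
      rw [e]
      fin_cases j
      · have := hα (patt i k (f 0) (f 1) h) i
        rw [patt_fst] at this
        exact this
      · have := hα (patt i k (f 0) (f 1) h) k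
        rw [patt_snd hik] at this
        exact this)
    (fun f hf j => by
      fin_cases j
      · have := hw (patt i k (f 0) (f 1) h) i (Or.inl rfl)
        rw [patt_fst] at this
        exact (key (f 0) (f 1) (f 0) (hz _ (hf 0))).trans this
      · have := hw (patt i k (f 0) (f 1) h) k (Or.inr rfl)
        rw [patt_snd hik] at this
        exact (key (f 0) (f 1) (f 1) (hz _ (hf 1))).trans this)
  have ha : α / n ≤ 1 / 2 := by
    have h1 := hα (fun _ => one) i
    have h2 := hα (fun _ => one) k
    rw [value_nu one (M.measurable _ _) (M.subset _ _)] at h1 h2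
    have h3 := dis2 (nu one) (M.measurable (fun _ => one) k) (M.disjoint _ _ _ hik) (subset_univ _)
    rw [probReal_univ] at h3
    have h4 : α / n ≤ (nu one).real (M.alloc (fun _ => one) i) :=
      cancel (tot_pos one) (by rw [mul_comm]; exact h1)
    have h5 : α / n ≤ (nu one).real (M.alloc (fun _ => one) k) :=
      cancel (tot_pos one) (by rw [mul_comm]; exact h2)
    linarith
  have h4 : (α / n) ^ 4 ≤ 34 * w := by linarith
  have h5 : (α / n) ^ 5 ≤ 35 / 2 * w := by
    have := mul_le_mul ha h4 (by positivity) (by norm_num)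
    linarith
  rw [div_pow, div_le_iff₀ (by positivity)] at h5
  linarith

end Pool.Agent.Lib.MP_e28e82_lc.Hungry
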