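import Pool.Agent.Lib.MP_e28e82_lc.EntireMain

/-!
The two exchange steps with slack, and the sharper arithmetic, for densities of one fixed support.
-/

namespace Pool.Agent.Lib.MP_e28e82_lc.Hungry

open MeasureTheory Set Entire

section Steps

variable (ν : Measure ℝ) [IsProbabilityMeasure ν]

/-- First step: the second agent loses both the part kept and the part bought by the first. -/
lemma stepA {P U A' Ah X1 Y1 X2 Y2 Z2 W2 : Set ℝ} {c K γ e w y : ℝ}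
    (mP : MeasurableSet P) (mAh : MeasurableSet Ah) (mY1 : MeasurableSet Y1)
    (mY2 : MeasurableSet Y2)
    (hc0 : 0 ≤ c) (hc1 : c ≤ 1) (hK : 1 ≤ K) (hγ : 0 < γ) (hKγ : K * γ = 1) (hy : 0 ≤ y)
    (eU : ν.real (U \ P) ≤ e) (eA : ν.real (A' \ Ah) ≤ e) (eA' : ν.real (Ah \ A') ≤ e)
    (h1 : c * ν.real (A' ∩ Pᶜ) + ν.real (A' ∩ P) + K * ν.real (A' ∩ (Pᶜ ∩ Ah)) +
        ν.real (A' ∩ (P ∩ Ah)) ≤ c * ν.real (X1 ∩ Pᶜ) + ν.real (X1 ∩ P) +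
        K * ν.real (X1 ∩ (Pᶜ ∩ Ah)) + ν.real (X1 ∩ (P ∩ Ah)))
    (h2 : c * ν.real (X1 ∩ Pᶜ) + ν.real (X1 ∩ P) ≤ c * ν.real (A' ∩ Pᶜ) + ν.real (A' ∩ P))
    (h3 : Disjoint X1 Y1) (h4 : ν.real (Y2 ∩ P) ≤ ν.real (Y1 ∩ P) + e)
    (h5 : (1 - γ) * ν.real (U ∩ (Pᶜ ∩ Ah)) + ν.real (U ∩ P) ≤
        (1 - γ) * ν.real (W2 ∩ (Pᶜ ∩ Ah)) + ν.real (W2 ∩ P))
    (h6 : ν.real W2 ≤ ν.real U) (h7 : ν.real (Z2 ∪ W2)ᶜ ≤ w)
    (h8 : c * ν.real (Z2 ∩ Pᶜ) + ν.real (Z2 ∩ P) + K * ν.real (Z2 ∩ (Pᶜ ∩ Ah)) +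
        ν.real (Z2 ∩ (P ∩ Ah)) ≤ c * ν.real (X2 ∩ Pᶜ) + ν.real (X2 ∩ P) +
        K * ν.real (X2 ∩ (Pᶜ ∩ Ah)) + ν.real (X2 ∩ (P ∩ Ah)))
    (h9 : Disjoint X2 Y2)
    (h10 : y * ((1 - γ) * ν.real (Pᶜ ∩ Ah) + ν.real P) ≤
        (1 - γ) * ν.real (Y2 ∩ (Pᶜ ∩ Ah)) + ν.real (Y2 ∩ P) + e) :
    y * ((1 - γ) * (ν.real (A' ∩ Pᶜ) - e) + ν.real P) ≤
      ν.real P - ν.real (A' ∩ P) + (2 * K + 4) * e + w + 2 * γ := by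
  have hγ1 : γ ≤ 1 := by
    have := mul_le_mul_of_nonneg_right hK hγ.le
    linarith
  have he : 0 ≤ e := (nn ν _).trans eU
  have mT : MeasurableSet (Pᶜ ∩ Ah) := mP.compl.inter mAh
  -- part a
  have a1 : ν.real (Pᶜ ∩ Ah) ≤ ν.real (A' ∩ (Pᶜ ∩ Ah)) + ν.real (Ah \ A') :=
    le2 ν fun x hx => by by_cases h : x ∈ A' <;> simp_all
  have a2 : ν.real (A' ∩ P) ≤ ν.real (A' ∩ (P ∩ Ah)) + ν.real (A' \ Ah) :=
    le2 ν fun x hx => by by_cases h : x ∈ Ah <;> simp_all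
  have a3 : ν.real (X1 ∩ (Pᶜ ∩ Ah)) ≤ ν.real (Pᶜ ∩ Ah) := mono ν inter_subset_right
  have a4 : K * (ν.real (X1 ∩ (Pᶜ ∩ Ah)) - ν.real (A' ∩ (Pᶜ ∩ Ah))) ≤ K * e :=
    mul_le_mul_of_nonneg_left (by linarith) (by linarith)
  have a5 : ν.real (X1 ∩ (P ∩ Ah)) + ν.real (Y1 ∩ P) ≤ ν.real P :=
    dis2 ν (mY1.inter mP) (h3.mono inter_subset_left inter_subset_left)
      (by rintro x (hx | hx); exacts [hx.2.1, hx.2])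
  have a6 : ν.real (Y2 ∩ P) ≤ ν.real P - ν.real (A' ∩ P) + (K + 2) * e := by linarith
  -- part b
  have b1 : ν.real U ≤ ν.real (U ∩ P) + ν.real (U \ P) :=
    le2 ν fun x hx => by by_cases h : x ∈ P <;> simp_all
  have b2 : ν.real (W2 ∩ (Pᶜ ∩ Ah)) ≤ ν.real (W2 ∩ Pᶜ) :=
    mono ν fun x hx => ⟨hx.1, hx.2.1⟩
  have b3 := split ν W2 mP
  have b4 : 0 ≤ (1 - γ) * ν.real (U ∩ (Pᶜ ∩ Ah)) := mul_nonneg (by linarith) (nn ν _)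
  have b5 : γ * ν.real (W2 ∩ (Pᶜ ∩ Ah)) ≤ e := by linarith
  have b6 : ν.real (W2 ∩ (Pᶜ ∩ Ah)) ≤ K * e := by
    have := mul_le_mul_of_nonneg_left b5 (show 0 ≤ K by linarith)
    rw [← mul_assoc, hKγ, one_mul] at this
    exact this
  have b7 : ν.real (Pᶜ ∩ Ah) ≤ ν.real (Z2 ∩ (Pᶜ ∩ Ah)) + ν.real (W2 ∩ (Pᶜ ∩ Ah)) +
      ν.real (Z2 ∪ W2)ᶜ :=
    le3 ν fun x hx => by by_cases h : x ∈ Z2 <;> by_cases h' : x ∈ W2 <;> simp_all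
  -- part c
  have c1 := split ν X2 mP
  have c2 := le1 ν X2
  have c3 := le1 ν (X2 ∩ (P ∩ Ah))
  have c4 : c * ν.real (X2 ∩ Pᶜ) ≤ ν.real (X2 ∩ Pᶜ) := mul_le_of_le_one_left (nn ν _) hc1
  have c5 : 0 ≤ c * ν.real (Z2 ∩ Pᶜ) := mul_nonneg hc0 (nn ν _)
  have c6 : K * (ν.real (Z2 ∩ (Pᶜ ∩ Ah)) - ν.real (X2 ∩ (Pᶜ ∩ Ah))) ≤ 2 := by
    linarith [nn ν (Z2 ∩ P), nn ν (Z2 ∩ (P ∩ Ah))]
  have c7 : ν.real (Z2 ∩ (Pᶜ ∩ Ah)) - ν.real (X2 ∩ (Pᶜ ∩ Ah)) ≤ 2 * γ := by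
    have := mul_le_mul_of_nonneg_left c6 hγ.le
    rw [← mul_assoc, mul_comm γ K, hKγ, one_mul] at this
    linarith
  have c8 : ν.real (X2 ∩ (Pᶜ ∩ Ah)) + ν.real (Y2 ∩ (Pᶜ ∩ Ah)) ≤ ν.real (Pᶜ ∩ Ah) :=
    dis2 ν (mY2.inter mT) (h9.mono inter_subset_left inter_subset_left)
      (by rintro x (hx | hx); exacts [hx.2, hx.2])
  have c9 : (1 - γ) * ν.real (Y2 ∩ (Pᶜ ∩ Ah)) ≤ ν.real (Y2 ∩ (Pᶜ ∩ Ah)) :=
    mul_le_of_le_one_left (nn ν _) (by linarith)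
  -- part d
  have d1 : ν.real (A' ∩ Pᶜ) ≤ ν.real (Pᶜ ∩ Ah) + ν.real (A' \ Ah) :=
    le2 ν fun x hx => by by_cases h : x ∈ Ah <;> simp_all
  have d2 : y * ((1 - γ) * (ν.real (A' ∩ Pᶜ) - e) + ν.real P) ≤
      y * ((1 - γ) * ν.real (Pᶜ ∩ Ah) + ν.real P) := by
    refine mul_le_mul_of_nonneg_left ?_ hy
    have := mul_le_mul_of_nonneg_left (show ν.real (A' ∩ Pᶜ) - e ≤ ν.real (Pᶜ ∩ Ah) by linarith)
      (show 0 ≤ 1 - γ by linarith)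
    linarith
  linarith

/-- Second step: what the second agent can grab at the extremal report is an option for the
first agent. -/
lemma stepB {P U B' Bh X3 Y3 Z3 W3 : Set ℝ} {c K γ e w y : ℝ}
    (mP : MeasurableSet P) (mY3 : MeasurableSet Y3) (mW3 : MeasurableSet W3)
    (hc0 : 0 ≤ c) (hc1 : c ≤ 1) (hK : 1 ≤ K) (hγ : 0 < γ) (hKγ : K * γ = 1) (hy : 0 ≤ y)
    (hy1 : y ≤ 1)
    (eU : ν.real (U \ P) ≤ e) (eB : ν.real (B' \ Bh) ≤ e) (eB' : ν.real (Bh \ B') ≤ e)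
    (h1 : ν.real (B' ∩ (P ∩ Bh)) + K * ν.real (B' ∩ (Pᶜ ∩ Bh)) ≤
        ν.real (Y3 ∩ (P ∩ Bh)) + K * ν.real (Y3 ∩ (Pᶜ ∩ Bh)))
    (h3 : Disjoint X3 Y3)
    (h4 : y * (ν.real P + ν.real (P ∩ Bh) + K * ν.real (Pᶜ ∩ Bh)) ≤
        ν.real (W3 ∩ P) + ν.real (W3 ∩ (P ∩ Bh)) + K * ν.real (W3 ∩ (Pᶜ ∩ Bh)) + 1)
    (h5 : ν.real W3 ≤ ν.real U) (h6 : ν.real (Z3 ∪ W3)ᶜ ≤ w) (h7 : Disjoint Z3 W3)
    (h8 : c * ν.real (Z3 ∩ Pᶜ) + ν.real (Z3 ∩ P) ≤ c * ν.real (X3 ∩ Pᶜ) + ν.real (X3 ∩ P)) :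
    c * ν.real (B' ∩ Pᶜ) + (1 - c) * (y * ν.real (B' ∩ Pᶜ)) ≤
      ν.real P - ν.real (B' ∩ P) + w + (K + 6) * e + 3 * γ := by
  have he : 0 ≤ e := (nn ν _).trans eU
  have a1 : ν.real (P ∩ Bh) ≤ ν.real (B' ∩ (P ∩ Bh)) + ν.real (Bh \ B') :=
    le2 ν fun x hx => by by_cases h : x ∈ B' <;> simp_all
  have a2 : ν.real (Pᶜ ∩ Bh) ≤ ν.real (B' ∩ (Pᶜ ∩ Bh)) + ν.real (Bh \ B') :=
    le2 ν fun x hx => by by_cases h : x ∈ B' <;> simp_all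
  have a3 : ν.real (Y3 ∩ (Pᶜ ∩ Bh)) ≤ ν.real (Pᶜ ∩ Bh) := mono ν inter_subset_right
  have a4 : ν.real (Y3 ∩ (P ∩ Bh)) ≤ ν.real (P ∩ Bh) := mono ν inter_subset_right
  have a5 : ν.real (B' ∩ P) ≤ ν.real (B' ∩ (P ∩ Bh)) + ν.real (B' \ Bh) :=
    le2 ν fun x hx => by by_cases h : x ∈ Bh <;> simp_all
  have a6 : ν.real (B' ∩ Pᶜ) ≤ ν.real (B' ∩ (Pᶜ ∩ Bh)) + ν.real (B' \ Bh) :=
    le2 ν fun x hx => by by_cases h : x ∈ Bh <;> simp_all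
  have a7 : K * (ν.real (Y3 ∩ (Pᶜ ∩ Bh)) - ν.real (B' ∩ (Pᶜ ∩ Bh))) ≤ K * e :=
    mul_le_mul_of_nonneg_left (by linarith) (by linarith)
  have a8 : ν.real (Y3 ∩ (P ∩ Bh)) ≤ ν.real (Y3 ∩ P) := mono ν fun x hx => ⟨hx.1, hx.2.1⟩
  have a9 : ν.real (B' ∩ P) - (K + 1) * e ≤ ν.real (Y3 ∩ P) := by linarith
  have a10 : K * (ν.real (B' ∩ (Pᶜ ∩ Bh)) - ν.real (Y3 ∩ (Pᶜ ∩ Bh))) ≤ e := by linarith
  have a11 : ν.real (B' ∩ (Pᶜ ∩ Bh)) - ν.real (Y3 ∩ (Pᶜ ∩ Bh)) ≤ e := by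
    by_contra hcon
    push Not at hcon
    have := mul_le_mul_of_nonneg_right hK (he.trans hcon.le)
    linarith
  have a12 : ν.real (Y3 ∩ (Pᶜ ∩ Bh)) ≤ ν.real (Y3 ∩ Pᶜ) := mono ν fun x hx => ⟨hx.1, hx.2.1⟩
  have a13 : ν.real (X3 ∩ P) + ν.real (Y3 ∩ P) ≤ ν.real P :=
    dis2 ν (mY3.inter mP) (h3.mono inter_subset_left inter_subset_left)
      (by rintro x (hx | hx); exacts [hx.2, hx.2])
  have a14 : ν.real (X3 ∩ Pᶜ) + ν.real (Y3 ∩ Pᶜ) ≤ ν.real Pᶜ :=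
    dis2 ν (mY3.inter mP.compl) (h3.mono inter_subset_left inter_subset_left)
      (by rintro x (hx | hx); exacts [hx.2, hx.2])
  have a15 : c * ν.real (X3 ∩ Pᶜ) ≤ c * (ν.real Pᶜ - ν.real (B' ∩ Pᶜ) + 2 * e) :=
    mul_le_mul_of_nonneg_left (by linarith) hc0
  -- the grab
  have b1 : ν.real (B' ∩ (Pᶜ ∩ Bh)) ≤ ν.real (Pᶜ ∩ Bh) := mono ν inter_subset_right
  have b2 := le1 ν (W3 ∩ P)
  have b3 := le1 ν (W3 ∩ (P ∩ Bh))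
  have b4 : 0 ≤ y * (ν.real P + ν.real (P ∩ Bh)) := mul_nonneg hy (add_nonneg (nn ν _) (nn ν _))
  have b5 : K * (y * ν.real (Pᶜ ∩ Bh) - ν.real (W3 ∩ (Pᶜ ∩ Bh))) ≤ 3 := by linarith
  have b6 : y * ν.real (Pᶜ ∩ Bh) - ν.real (W3 ∩ (Pᶜ ∩ Bh)) ≤ 3 * γ := by
    have := mul_le_mul_of_nonneg_left b5 hγ.le
    rw [← mul_assoc, mul_comm γ K, hKγ, one_mul] at this
    linarith
  have b7 : ν.real (W3 ∩ (Pᶜ ∩ Bh)) ≤ ν.real (W3 ∩ Pᶜ) := mono ν fun x hx => ⟨hx.1, hx.2.1⟩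
  have b8 : y * (ν.real (B' ∩ Pᶜ) - e) ≤ y * ν.real (Pᶜ ∩ Bh) :=
    mul_le_mul_of_nonneg_left (by linarith) hy
  have b9 : y * e ≤ e := mul_le_of_le_one_left he hy1
  have b10 : y * ν.real (B' ∩ Pᶜ) - e - 3 * γ ≤ ν.real (W3 ∩ Pᶜ) := by linarith
  have b11 : ν.real (Z3 ∩ Pᶜ) + ν.real (W3 ∩ Pᶜ) ≤ ν.real Pᶜ :=
    dis2 ν (mW3.inter mP.compl) (h7.mono inter_subset_left inter_subset_left)
      (by rintro x (hx | hx); exacts [hx.2, hx.2])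
  have b12 : ν.real (univ : Set ℝ) ≤ ν.real Z3 + ν.real W3 + ν.real (Z3 ∪ W3)ᶜ :=
    le3 ν fun x _ => by by_cases h : x ∈ Z3 <;> by_cases h' : x ∈ W3 <;> simp_all
  rw [probReal_univ] at b12
  have b13 := split ν Z3 mP
  have b14 : ν.real U ≤ ν.real P + ν.real (U \ P) :=
    le2 ν fun x hx => by by_cases h : x ∈ P <;> simp_all
  have b15 := compl_eq ν mP
  have b16 : (1 - c) * ν.real (Z3 ∩ Pᶜ) ≤
      (1 - c) * (ν.real Pᶜ - (y * ν.real (B' ∩ Pᶜ) - e - 3 * γ)) :=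
    mul_le_mul_of_nonneg_left (by linarith) (by linarith)
  have b17 : (1 - c) * (e + 3 * γ) ≤ e + 3 * γ :=
    mul_le_of_le_one_left (by linarith) (by linarith)
  have b18 : c * e ≤ e := mul_le_of_le_one_left he hc1
  linarith

end Steps

lemma arith4 {a y u w γ e c K p q r s t : ℝ} (ha : 0 < a) (hay : a ≤ y) (hyu : y ≤ u)
    (hu : u ≤ y + γ + w) (hua : u ≤ 1 - a) (hγ : 0 < γ) (he0 : 0 ≤ e) (heγ : e ≤ γ)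
    (hKe : K * e = γ) (hc : c = a * y / 2) (hq : q ≤ u + e) (hq' : u - e ≤ q) (hq1 : q ≤ 1)
    (hs0 : 0 ≤ s) (ht0 : 0 ≤ t) (hq0 : 0 ≤ q) (hD : 0 ≤ 1 - q - s - t) (hE : 0 ≤ q - p - r)
    (hW : c * (1 - q - s - t) + (q - p - r) ≤ w) (hF : a * (c * (1 - q) + q) ≤ c * s + p)
    (h1 : y * ((1 - γ) * (s - e) + q) ≤ q - p + (2 * K + 4) * e + w + 2 * γ)
    (h2 : c * t + (1 - c) * (y * t) ≤ q - r + w + (K + 6) * e + 3 * γ) :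
    a ^ 4 ≤ 34 * w + 110 * γ := by
  have hy0 : 0 < y := by linarith
  have hy1 : y ≤ 1 - a := by linarith
  have ha2 : a ≤ 1 / 2 := by linarith
  have hc0 : 0 ≤ c := by rw [hc]; positivity
  have hcD : 0 ≤ c * (1 - q - s - t) := mul_nonneg hc0 hD
  have hw : 0 ≤ w := by linarith
  obtain ⟨Δ, hΔ⟩ : ∃ Δ, Δ = y * (1 - q - s - t) := ⟨_, rfl⟩
  obtain ⟨τ, hτ⟩ : ∃ τ, τ = y * t := ⟨_, rfl⟩
  obtain ⟨E, hE'⟩ : ∃ E, E = q - p - r := ⟨_, rfl⟩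
  obtain ⟨z, hz⟩ : ∃ z, z = 1 - y := ⟨_, rfl⟩
  have hΔ0 : 0 ≤ Δ := hΔ ▸ mul_nonneg hy0.le hD
  have hτ0 : 0 ≤ τ := hτ ▸ mul_nonneg hy0.le ht0
  have hz0 : 0 ≤ z := by linarith
  have hz1 : z ≤ 1 := by linarith
  have hE0 : 0 ≤ E := by linarith
  have hΔw : a * Δ + 2 * E ≤ 2 * w := by
    have : c * (1 - q - s - t) = a * Δ / 2 := by rw [hc, hΔ]; ring
    linarith
  have haE : a * E ≤ 2 * E := mul_le_mul_of_nonneg_right (by linarith) hE0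
  have k1 : y * s ≤ 1 := mul_le_one₀ (by linarith) hs0 (by linarith)
  have k2 : γ * (y * s) ≤ γ := mul_le_of_le_one_right hγ.le k1
  have k3 : y * e ≤ e := mul_le_of_le_one_left he0 (by linarith)
  have k4 : 0 ≤ y * γ * e := by positivity
  have k5 : p ≤ τ + Δ + 2 * w + 12 * γ := by rw [hτ, hΔ]; linarith
  have k6 : a / 2 * (z * τ) ≤ Δ + E + 3 * w + 22 * γ := by
    have : a / 2 * (z * τ) = c * t + (1 - c) * (y * t) - τ := by rw [hc, hτ, hz]; ring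
    rw [this]
    linarith
  have k9 : c * s ≤ c := mul_le_of_le_one_right hc0 (by linarith)
  have k10 : 0 ≤ a * (c * (1 - q)) := mul_nonneg ha.le (mul_nonneg hc0 (by linarith))
  have k11 : a * (y - e) ≤ a * q := mul_le_mul_of_nonneg_left (by linarith) ha.le
  have k12 : a * e ≤ e := mul_le_of_le_one_left he0 (by linarith)
  have k14 : a * y / 2 ≤ τ + Δ + 2 * w + 13 * γ := by linarith
  have k15 : a ^ 2 * z * (a * y / 2) ≤ a ^ 2 * z * (τ + Δ + 2 * w + 13 * γ) :=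
    mul_le_mul_of_nonneg_left k14 (by positivity)
  have k16 : a * (a / 2 * (z * τ)) ≤ a * (Δ + E + 3 * w + 22 * γ) :=
    mul_le_mul_of_nonneg_left k6 ha.le
  have hyz : a / 2 ≤ y * z := by
    have j1 := mul_nonneg (sub_nonneg.2 hay) (sub_nonneg.2 hy1)
    have j2 := mul_le_mul_of_nonneg_left ha2 ha.le
    rw [hz]
    linarith only [j1, j2]
  have k17 : a ^ 3 / 2 * (a / 2) ≤ a ^ 3 / 2 * (y * z) :=
    mul_le_mul_of_nonneg_left hyz (by positivity)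
  have haz : a * z ≤ 1 / 2 := (mul_le_of_le_one_right ha.le hz1).trans ha2
  have haz2 : a ^ 2 * z ≤ 1 / 4 := by
    have j1 : a * (a * z) ≤ 1 / 2 * (1 / 2) :=
      mul_le_mul ha2 haz (mul_nonneg ha.le hz0) (by norm_num)
    linarith only [j1]
  have k18 : a * z * (a * Δ) ≤ 1 / 2 * (2 * w) :=
    mul_le_mul haz (by linarith) (by positivity) (by norm_num)
  have k19 : a ^ 2 * z * w ≤ 1 / 4 * w := mul_le_mul_of_nonneg_right haz2 hw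
  have k20 : a ^ 2 * z * γ ≤ 1 / 4 * γ := mul_le_mul_of_nonneg_right haz2 hγ.le
  have k21 : a * w ≤ 1 / 2 * w := mul_le_mul_of_nonneg_right ha2 hw
  have k22 : a * γ ≤ 1 / 2 * γ := mul_le_mul_of_nonneg_right ha2 hγ.le
  linarith only [k15, k16, k17, k18, k19, k20, k21, k22, hΔw, haE, hγ]

end Pool.Agent.Lib.MP_e28e82_lc.Hungry
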