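import Pool.Agent.Lib.MP_e28e82_lc.HungryMain

/-!
The bound for two-agent mechanisms on densities of one fixed support.
-/

namespace Pool.Agent.Lib.MP_e28e82_lc.Hungry

open MeasureTheory Set Entire

theorem two_agents (d : Density) (M : Mechanism 2) (α w : ℝ) (h0 : 0 < α)
    (hT : ∀ f : Fin 2 → Density, (∀ j, SameZeros d (f j)) → ∀ (i : Fin 2) (g : Density),
      SameZeros d g → (f i).value (M.alloc (Function.update f i g) i) ≤ (f i).value (M.alloc f i))
    (hα : ∀ f : Fin 2 → Density, (∀ j, SameZeros d (f j)) → ∀ j : Fin 2,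
      α / 2 * (f j).value (Icc 0 1) ≤ (f j).value (M.alloc f j))
    (hw : ∀ f : Fin 2 → Density, (∀ j, SameZeros d (f j)) → ∀ j : Fin 2,
      (f j).value (Icc 0 1 \ (M.alloc f 0 ∪ M.alloc f 1)) ≤ w * (f j).value (Icc 0 1)) :
    α ^ 4 ≤ 544 * w := by
  have hs : ∀ f g : Density, SameZeros d f → SameZeros d g → ∀ j, SameZeros d (![f, g] j) :=
    fun f g hf hg j => by fin_cases j; exacts [hf, hg]
  have u0 : ∀ f f' g : Density, Function.update ![f, g] 0 f' = ![f', g] := fun f f' g => by
    funext j; fin_cases j <;> simp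
  have u1 : ∀ f g g' : Density, Function.update ![f, g] 1 g' = ![f, g'] := fun f g g' => by
    funext j; fin_cases j <;> simp
  let N : Duo d (α / 2) w :=
    { A := fun f g => M.alloc ![f, g] 0
      B := fun f g => M.alloc ![f, g] 1
      mA := fun _ _ => M.measurable _ _
      mB := fun _ _ => M.measurable _ _
      sA := fun _ _ => M.subset _ _
      sB := fun _ _ => M.subset _ _
      disj := fun _ _ => M.disjoint _ _ _ (by decide)
      tA := fun f f' g hf hf' hg => by
        have := hT ![f, g] (hs f g hf hg) 0 f' hf'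
        rwa [u0] at this
      tB := fun f g g' hf hg hg' => by
        have := hT ![f, g] (hs f g hf hg) 1 g' hg'
        rwa [u1] at this
      pA := fun f g hf hg => hα ![f, g] (hs f g hf hg) 0
      pB := fun f g hf hg => hα ![f, g] (hs f g hf hg) 1
      wA := fun f g hf hg => hw ![f, g] (hs f g hf hg) 0
      wB := fun f g hf hg => hw ![f, g] (hs f g hf hg) 1 }
  have hb := N.bound (by positivity)
  linarith

end Pool.Agent.Lib.MP_e28e82_lc.Hungry
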