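import Pool.Agent.Lib.MP_e28e82_lc.PC

/-!
The multi-scale obstruction for position-oblivious mechanisms.
-/

namespace Pool.Agent.Lib.MP_e28e82_lc

open MeasureTheory Set Filter Topology

lemma exists_PC_near {A S : Set ℝ} (hA : MeasurableSet A) (hS : PC S) {τ δ : ℝ} (hτ : 0 ≤ τ)
    (hδ : 0 < δ) (h : τ + δ ≤ m.real (A ∩ S)) :
    ∃ T, PC T ∧ T ⊆ S ∧ m.real T = τ ∧ m.real (T \ A) ≤ δ := by
  have hring : IsSetRing {B : Set ℝ | PC B} :=
    ⟨PC.empty, fun _ _ h1 h2 => PC.union h1 h2, fun _ _ h1 h2 => PC.diff h1 h2⟩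
  have hgen : (inferInstance : MeasurableSpace ℝ) =
      MeasurableSpace.generateFrom {B : Set ℝ | PC B} := by
    refine le_antisymm ?_ (MeasurableSpace.generateFrom_le fun B hB => PC.measurableSet hB)
    have h1 : (inferInstance : MeasurableSpace ℝ) = borel ℝ := BorelSpace.measurable_eq
    rw [h1, borel_eq_generateFrom_Iic]
    refine MeasurableSpace.generateFrom_mono ?_
    rintro _ ⟨c, rfl⟩
    exact PC.Iic c
  obtain ⟨T₀, hT₀, hlt⟩ := exists_measure_symmDiff_lt_of_generateFrom_isSetRing (μ := m) hring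
    ⟨{univ}, countable_singleton _, singleton_subset_iff.mpr PC.univ, by simp⟩ hgen hA
    (ENNReal.ofReal_pos.mpr hδ)
  have hlt' : m.real (symmDiff T₀ A) ≤ δ := ENNReal.toReal_le_of_le_ofReal hδ.le hlt.le
  have hT₁ : PC (T₀ ∩ S) := PC.inter hT₀ hS
  have h1 : m.real (A ∩ S) ≤ m.real (T₀ ∩ S) + m.real (symmDiff T₀ A) := by
    refine le_trans (measureReal_mono ?_) (measureReal_union_le _ _)
    intro x hx
    by_cases hxT : x ∈ T₀
    · exact Or.inl ⟨hxT, hx.2⟩
    · exact Or.inr (Or.inr ⟨hx.1, hxT⟩)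
  obtain ⟨c, hc⟩ := exists_cut hT₁.measurableSet hτ (by linarith)
  refine ⟨T₀ ∩ S ∩ Iic c, hT₁.inter (PC.Iic c), fun x hx => hx.1.2, hc, ?_⟩
  refine le_trans (measureReal_mono ?_) hlt'
  intro x hx
  exact Or.inl ⟨hx.1.1.1, hx.2⟩

/-- The indicator density of a set. -/
noncomputable def ind (Q : Set ℝ) (hQ : PC Q) (hpos : 0 < m.real Q) : Density where
  val := Q.indicator fun _ => 1
  nonneg := fun x _ => indicator_nonneg (fun _ _ => zero_le_one) x
  pieces := by
    obtain ⟨s, hs⟩ := hQ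
    refine ⟨s, fun x _ y _ h => ?_⟩
    by_cases hx : x ∈ Q
    · rw [indicator_of_mem hx, indicator_of_mem ((hs x y h).mp hx)]
    · rw [indicator_of_notMem hx, indicator_of_notMem fun hy => hx ((hs x y h).mpr hy)]
  pos := by
    have := integral_indicator_const (μ := m) (1 : ℝ) hQ.measurableSet
    rw [smul_eq_mul, mul_one] at this
    exact this ▸ hpos

lemma ind_value {Q : Set ℝ} (hQ : PC Q) (hpos : 0 < m.real Q) {A : Set ℝ} (hA : MeasurableSet A)
    (hs : A ⊆ Icc (0 : ℝ) 1) : (ind Q hQ hpos).value A = m.real (A ∩ Q) := by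
  rw [Density.value_eq _ hA hs]
  show ∫ x in A, Q.indicator (fun _ => (1 : ℝ)) x ∂m = _
  rw [setIntegral_indicator hQ.measurableSet, setIntegral_const, smul_eq_mul, mul_one]

lemma ind_uniform {Q : Set ℝ} (hQ : PC Q) (hpos : 0 < m.real Q) : (ind Q hQ hpos).Uniform := by
  intro x _
  by_cases hx : x ∈ Q
  · exact Or.inr (indicator_of_mem hx fun _ => (1 : ℝ))
  · exact Or.inl (indicator_of_notMem hx fun _ => (1 : ℝ))

lemma Density.Uniform.valuesLe {f : Density} (h : f.Uniform) {k : ℕ} (hk : 2 ≤ k) :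
    f.ValuesLe k := by
  refine ⟨{0, 1}, (Finset.card_le_two).trans hk, fun x hx => ?_⟩
  simpa using h x hx

lemma step_integral {k : ℕ} {S : ℕ → Set ℝ} (hS : ∀ j, PC (S j)) (d : ℕ → ℝ) (A : Set ℝ) :
    ∫ x in A, ∑ j ∈ Finset.range k, (S j).indicator (fun _ => d j) x ∂m =
      ∑ j ∈ Finset.range k, d j * m.real (A ∩ S j) := by
  rw [integral_finsetSum]
  · refine Finset.sum_congr rfl fun j _ => ?_
    rw [setIntegral_indicator (hS j).measurableSet, setIntegral_const, smul_eq_mul, mul_comm]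
  · intro j _
    exact ((integrable_const _).indicator (hS j).measurableSet).integrableOn

/-- A step density. -/
noncomputable def step (k : ℕ) (S : ℕ → Set ℝ) (hS : ∀ j, PC (S j)) (d : ℕ → ℝ)
    (hd : ∀ j, 0 ≤ d j) (hpos : 0 < ∑ j ∈ Finset.range k, d j * m.real (S j)) : Density where
  val := fun x => ∑ j ∈ Finset.range k, (S j).indicator (fun _ => d j) x
  nonneg := fun x _ => Finset.sum_nonneg fun j _ => indicator_nonneg (fun _ _ => hd j) x
  pieces := by
    classical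
    choose s hs using hS
    refine ⟨(Finset.range k).biUnion s, fun x _ y _ h => Finset.sum_congr rfl fun j hj => ?_⟩
    have hiff := hs j x y fun z hz => h z (Finset.mem_biUnion.mpr ⟨j, hj, hz⟩)
    by_cases hx : x ∈ S j
    · rw [indicator_of_mem hx, indicator_of_mem (hiff.mp hx)]
    · rw [indicator_of_notMem hx, indicator_of_notMem fun hy => hx (hiff.mpr hy)]
  pos := by
    have := step_integral (k := k) hS d univ
    simp only [Measure.restrict_univ, univ_inter] at this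
    exact this ▸ hpos

/-- The data of a two-agent mechanism that the argument uses. -/
structure Two (k : ℕ) (a : ℝ) where
  A : Density → Density → Set ℝ
  B : Density → Density → Set ℝ
  mA : ∀ f g, MeasurableSet (A f g)
  mB : ∀ f g, MeasurableSet (B f g)
  sA : ∀ f g, A f g ⊆ Icc (0 : ℝ) 1
  sB : ∀ f g, B f g ⊆ Icc (0 : ℝ) 1
  disj : ∀ f g, Disjoint (A f g) (B f g)
  tA : ∀ f f' g : Density, f.value (A f' g) ≤ f.value (A f g)
  tB : ∀ f g g' : Density, g.value (B f g') ≤ g.value (B f g)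
  pA : ∀ f g : Density, f.ValuesLe k → g.ValuesLe k → a * f.value (Icc 0 1) ≤ f.value (A f g)
  pB : ∀ f g : Density, f.ValuesLe k → g.ValuesLe k → a * g.value (Icc 0 1) ≤ g.value (B f g)
  obl : ∀ (Q U U' : Set ℝ) (hQ : PC Q) (hU : PC U) (hU' : PC U') (pQ : 0 < m.real Q)
    (pU : 0 < m.real U) (pU' : 0 < m.real U'), Q ⊆ Icc (0 : ℝ) 1 → U ⊆ Q → U' ⊆ Q →
    m.real U = m.real U' →
    (ind U hU pU).value (B (ind Q hQ pQ) (ind U hU pU)) =
      (ind U' hU' pU').value (B (ind Q hQ pQ) (ind U' hU' pU'))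

/-- A small part of the support of the other agent can be won completely. -/
lemma Two.spike {k : ℕ} {a : ℝ} (M : Two k a) (hk : 2 ≤ k) {Q U : Set ℝ} (hQ : PC Q) (hU : PC U)
    (pQ : 0 < m.real Q) (pU : 0 < m.real U) (hQI : Q ⊆ Icc (0 : ℝ) 1) (hUQ : U ⊆ Q)
    (hlt : m.real U < a * m.real Q) :
    m.real (U \ M.B (ind Q hQ pQ) (ind U hU pU)) = 0 := by
  have hv := (ind_uniform hQ pQ).valuesLe hk
  have h0 := M.pB _ _ hv hv
  rw [ind_value hQ pQ measurableSet_Icc subset_rfl, ind_value hQ pQ (M.mB _ _) (M.sB _ _),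
    inter_eq_right.mpr hQI] at h0
  have key : ∀ δ, 0 < δ → δ ≤ a * m.real Q - m.real U →
      m.real U - δ ≤ m.real (M.B (ind Q hQ pQ) (ind U hU pU) ∩ U) := by
    intro δ hδ hδ'
    obtain ⟨U', hU', hU'Q, hm, hd⟩ := exists_PC_near (M.mB (ind Q hQ pQ) (ind Q hQ pQ)) hQ pU.le hδ
      (by linarith)
    have pU' : 0 < m.real U' := hm ▸ pU
    have h1 := M.obl Q U U' hQ hU hU' pQ pU pU' hQI hUQ hU'Q hm.symm
    have h2 := M.tB (ind Q hQ pQ) (ind U' hU' pU') (ind Q hQ pQ)
    rw [← h1, ind_value hU' pU' (M.mB _ _) (M.sB _ _), ind_value hU pU (M.mB _ _) (M.sB _ _)] at h2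
    have h3 : m.real (U' ∩ M.B (ind Q hQ pQ) (ind Q hQ pQ)) +
        m.real (U' \ M.B (ind Q hQ pQ) (ind Q hQ pQ)) = m.real U' :=
      measureReal_inter_add_sdiff (M.mB _ _) (measure_ne_top _ _)
    rw [inter_comm] at h3
    linarith
  have h4 : m.real U ≤ m.real (M.B (ind Q hQ pQ) (ind U hU pU) ∩ U) := by
    refine le_of_forall_pos_le_add fun ε hε => ?_
    have := key (min ε (a * m.real Q - m.real U)) (lt_min hε (by linarith)) (min_le_right _ _)
    have := min_le_left ε (a * m.real Q - m.real U)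
    linarith
  have h5 : m.real (U ∩ M.B (ind Q hQ pQ) (ind U hU pU)) +
      m.real (U \ M.B (ind Q hQ pQ) (ind U hU pU)) = m.real U :=
    measureReal_inter_add_sdiff (M.mB _ _) (measure_ne_top _ _)
  rw [inter_comm] at h5
  have h6 : 0 ≤ m.real (U \ M.B (ind Q hQ pQ) (ind U hU pU)) := measureReal_nonneg
  linarith

/-- A piece offered to the first agent cannot contain both a part of the top region `U` of `g`
and a long set outside it. -/
lemma Two.exclusive {k : ℕ} {a : ℝ} (M : Two k a) (hk : 2 ≤ k) (ha : 0 < a) (f₀ g : Density)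
    {U S : Set ℝ} (hU : PC U) (hS : PC S) (pU : 0 < m.real U) (hUI : U ⊆ Icc (0 : ℝ) 1)
    (hSI : S ⊆ Icc (0 : ℝ) 1) (hUS : Disjoint U S) {c r : ℝ} (hc : 0 < c)
    (hin : ∀ x ∈ U, c ≤ g.val x) (hr : 0 ≤ r) (hout : ∀ x ∈ Icc (0 : ℝ) 1, x ∉ U → g.val x ≤ c * r)
    (hlong : m.real U / a < m.real (M.A f₀ g ∩ S)) : m.real (M.A f₀ g ∩ U) ≤ r := by
  refine le_of_forall_pos_le_add fun ε hε => ?_
  have hτ : 0 < m.real U / a := div_pos pU ha
  obtain ⟨T, hT, hTS, hTm, hTd⟩ := exists_PC_near (M.mA f₀ g) hS hτ.le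
    (δ := min ε (m.real (M.A f₀ g ∩ S) - m.real U / a)) (lt_min hε (by linarith))
    (by linarith [min_le_right ε (m.real (M.A f₀ g ∩ S) - m.real U / a)])
  have hTε : m.real (T \ M.A f₀ g) ≤ ε := hTd.trans (min_le_left _ _)
  have hUT : Disjoint U T := hUS.mono_right hTS
  have hQ : PC (U ∪ T) := hU.union hT
  have hQm : m.real (U ∪ T) = m.real U + m.real U / a := by
    rw [measureReal_union hUT hT.measurableSet, hTm]
  have pQ : 0 < m.real (U ∪ T) := by rw [hQm]; linarith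
  have hQI : U ∪ T ⊆ Icc (0 : ℝ) 1 := union_subset hUI (hTS.trans hSI)
  have hsp := M.spike hk hQ hU pQ pU hQI subset_union_left (by
    rw [hQm, mul_add, mul_div_cancel₀ _ ha.ne']
    nlinarith)
  set f := ind (U ∪ T) hQ pQ with hf
  set Bh := M.B f (ind U hU pU) with hBh
  have hBhm : MeasurableSet Bh := M.mB _ _
  -- the first agent
  have h1 := M.tA f f₀ g
  rw [ind_value hQ pQ (M.mA _ _) (M.sA _ _), ind_value hQ pQ (M.mA _ _) (M.sA _ _),
    inter_union_distrib_left, inter_union_distrib_left,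
    measureReal_union (hUT.mono inter_subset_right inter_subset_right)
      ((M.mA _ _).inter hT.measurableSet),
    measureReal_union (hUT.mono inter_subset_right inter_subset_right)
      ((M.mA _ _).inter hT.measurableSet)] at h1
  have h2 : m.real (M.A f g ∩ T) ≤ m.real T := measureReal_mono inter_subset_right
  have h3 : m.real (T ∩ M.A f₀ g) + m.real (T \ M.A f₀ g) = m.real T :=
    measureReal_inter_add_sdiff (M.mA _ _) (measure_ne_top _ _)
  rw [inter_comm] at h3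
  -- the second agent
  have h4 := M.tB f g (ind U hU pU)
  rw [g.value_eq hBhm (M.sB _ _), g.value_eq (M.mB _ _) (M.sB _ _)] at h4
  have hgi : ∀ s : Set ℝ, IntegrableOn g.val s m := fun s => g.integrable.integrableOn
  have h5 : ∫ x in U ∩ Bh, g.val x ∂m + ∫ x in U \ Bh, g.val x ∂m = ∫ x in U, g.val x ∂m :=
    integral_inter_add_sdiff hBhm (hgi _)
  have h6 : ∫ x in U \ Bh, g.val x ∂m = 0 := by
    refine setIntegral_measure_zero _ ?_
    exact (measureReal_eq_zero_iff (measure_ne_top _ _)).mp hsp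
  have h7 : ∫ x in Bh ∩ U, g.val x ∂m + ∫ x in Bh \ U, g.val x ∂m = ∫ x in Bh, g.val x ∂m :=
    integral_inter_add_sdiff hU.measurableSet (hgi _)
  have h8 : 0 ≤ ∫ x in Bh \ U, g.val x ∂m :=
    setIntegral_nonneg (hBhm.diff hU.measurableSet) fun x hx => g.nonneg x (M.sB _ _ hx.1)
  have h9 : ∫ x in M.B f g ∩ U, g.val x ∂m + ∫ x in M.B f g \ U, g.val x ∂m =
      ∫ x in M.B f g, g.val x ∂m := integral_inter_add_sdiff hU.measurableSet (hgi _)
  have h10 : ∫ x in U ∩ M.B f g, g.val x ∂m + ∫ x in U \ M.B f g, g.val x ∂m =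
      ∫ x in U, g.val x ∂m := integral_inter_add_sdiff (M.mB _ _) (hgi _)
  have h11 : ∫ x in M.B f g \ U, g.val x ∂m ≤ ∫ _ in M.B f g \ U, c * r ∂m :=
    setIntegral_mono_on (hgi _) (integrable_const _).integrableOn
      ((M.mB _ _).diff hU.measurableSet) fun x hx => hout x (M.sB _ _ hx.1) hx.2
  have h12 : ∫ _ in U \ M.B f g, c ∂m ≤ ∫ x in U \ M.B f g, g.val x ∂m :=
    setIntegral_mono_on (integrable_const _).integrableOn (hgi _)
      (hU.measurableSet.diff (M.mB _ _)) fun x hx => hin x hx.1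
  rw [setIntegral_const, smul_eq_mul] at h11 h12
  have h13 : m.real (M.B f g \ U) * (c * r) ≤ c * r :=
    mul_le_of_le_one_left (mul_nonneg hc.le hr) measureReal_le_one
  rw [inter_comm] at h5 h10
  have h14 : m.real (U \ M.B f g) * c ≤ r * c := by linarith
  have h15 : m.real (U \ M.B f g) ≤ r := le_of_mul_le_mul_right h14 hc
  have h16 : m.real (M.A f g ∩ U) ≤ m.real (U \ M.B f g) :=
    measureReal_mono fun x hx => ⟨hx.2, disjoint_left.mp (M.disj f g) hx.1⟩
  linarith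

/-- Endpoints of the nested intervals. -/
noncomputable def eta (k : ℕ) (ρ : ℝ) (j : ℕ) : ℝ := if j = 0 then 0 else ρ ^ (k - j)

/-- The nested intervals. -/
def UU (k : ℕ) (ρ : ℝ) (j : ℕ) : Set ℝ := if j = 0 then ∅ else Icc 0 (ρ ^ (k - j))

lemma PC_UU (k : ℕ) (ρ : ℝ) (j : ℕ) : PC (UU k ρ j) := by
  unfold UU
  split_ifs
  · exact PC.empty
  · exact PC.Icc _ _

lemma UU_subset (k : ℕ) {ρ : ℝ} (h0 : 0 ≤ ρ) (h1 : ρ ≤ 1) (j : ℕ) : UU k ρ j ⊆ Icc (0 : ℝ) 1 := by
  unfold UU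
  split_ifs
  · exact empty_subset _
  · exact Icc_subset_Icc_right (pow_le_one₀ h0 h1)

lemma UU_mono (k : ℕ) {ρ : ℝ} (h0 : 0 ≤ ρ) (h1 : ρ ≤ 1) {i j : ℕ} (h : i ≤ j) :
    UU k ρ i ⊆ UU k ρ j := by
  unfold UU
  by_cases hi : i = 0
  · rw [if_pos hi]
    exact empty_subset _
  · rw [if_neg hi, if_neg (by omega)]
    exact Icc_subset_Icc_right (pow_le_pow_of_le_one h0 h1 (by omega))

lemma m_UU (k : ℕ) {ρ : ℝ} (h0 : 0 ≤ ρ) (h1 : ρ ≤ 1) (j : ℕ) : m.real (UU k ρ j) = eta k ρ j := by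
  rw [Measure.real, m_eq_volume (PC_UU k ρ j).measurableSet (UU_subset k h0 h1 j)]
  unfold UU eta
  split_ifs
  · simp
  · rw [Real.volume_Icc, sub_zero, ENNReal.toReal_ofReal (pow_nonneg h0 _)]

lemma eta_le (k : ℕ) {ρ : ℝ} (h0 : 0 ≤ ρ) {j : ℕ} (hj : j < k) :
    eta k ρ j ≤ ρ * eta k ρ (j + 1) := by
  unfold eta
  rw [if_neg (Nat.succ_ne_zero j)]
  split_ifs
  · positivity
  · have : k - j = (k - (j + 1)) + 1 := by omega
    rw [this, pow_succ, mul_comm]

lemma exists_ring {k : ℕ} (hk : 0 < k) (ρ : ℝ) {x : ℝ} (hx : x ∈ Icc (0 : ℝ) 1) :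
    ∃ j < k, x ∈ UU k ρ (j + 1) \ UU k ρ j := by
  classical
  have hex : ∃ j, x ∈ UU k ρ j := ⟨k, by
    unfold UU
    rw [if_neg hk.ne', Nat.sub_self, pow_zero]
    exact hx⟩
  have hle : Nat.find hex ≤ k := Nat.find_min' hex (by
    unfold UU
    rw [if_neg hk.ne', Nat.sub_self, pow_zero]
    exact hx)
  have hne : Nat.find hex ≠ 0 := by
    intro h
    have := Nat.find_spec hex
    rw [h] at this
    simp [UU] at this
  obtain ⟨j, hj⟩ : ∃ j, Nat.find hex = j + 1 := ⟨Nat.find hex - 1, by omega⟩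
  refine ⟨j, by omega, hj ▸ Nat.find_spec hex, Nat.find_min hex (by omega)⟩

lemma step_val {k : ℕ} {ρ : ℝ} (h0 : 0 ≤ ρ) (h1 : ρ ≤ 1) (d : ℕ → ℝ) {j : ℕ} (hj : j < k) {x : ℝ}
    (hx : x ∈ UU k ρ (j + 1) \ UU k ρ j) :
    ∑ l ∈ Finset.range k, (UU k ρ (l + 1) \ UU k ρ l).indicator (fun _ => d l) x = d j := by
  rw [Finset.sum_eq_single_of_mem j (Finset.mem_range.mpr hj), indicator_of_mem hx]
  intro l _ hl
  refine indicator_of_notMem (fun hxl => ?_) _
  rcases lt_or_gt_of_ne hl with h | h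
  · exact hx.2 (UU_mono k h0 h1 (Nat.succ_le_of_lt h) hxl.1)
  · exact hxl.2 (UU_mono k h0 h1 (Nat.succ_le_of_lt h) hx.1)

theorem Two.bound {k : ℕ} {a : ℝ} (M : Two k a) (hk : 2 ≤ k) : a * k ≤ 1 := by
  classical
  rcases le_or_gt a 0 with ha | ha
  · exact (mul_nonpos_of_nonpos_of_nonneg ha (Nat.cast_nonneg k)).trans zero_le_one
  have hkpos : (0 : ℝ) < k := by exact_mod_cast (show 0 < k by omega)
  suffices H : ∀ ε : ℝ, 0 < ε → ε ≤ 1 → a * k ≤ 1 + k * ε by
    refine le_of_forall_pos_le_add fun ε hε => ?_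
    have h1 := H (min 1 (ε / k)) (lt_min one_pos (div_pos hε hkpos)) (min_le_left _ _)
    have h2 : k * min 1 (ε / k) ≤ ε := by
      calc k * min 1 (ε / k) ≤ k * (ε / k) :=
            mul_le_mul_of_nonneg_left (min_le_right _ _) hkpos.le
        _ = ε := mul_div_cancel₀ _ hkpos.ne'
    linarith
  intro ε hε hε1
  obtain ⟨ρ, hρ0, hρ1, hρ2⟩ : ∃ ρ : ℝ, 0 < ρ ∧ ρ ≤ 1 / 2 ∧ ρ ≤ a * ε / 2 :=
    ⟨min (1 / 2) (a * ε / 2), lt_min (by norm_num) (by positivity), min_le_left _ _,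
      min_le_right _ _⟩
  have hρ1' : ρ ≤ 1 := by linarith
  set S : ℕ → Set ℝ := fun j => UU k ρ (j + 1) \ UU k ρ j with hSdef
  have hS : ∀ j, PC (S j) := fun j => (PC_UU _ _ _).diff (PC_UU _ _ _)
  have hSI : ∀ j, S j ⊆ Icc (0 : ℝ) 1 := fun j x hx => UU_subset k hρ0.le hρ1' _ hx.1
  have hSm : ∀ j, m.real (S j) = eta k ρ (j + 1) - eta k ρ j := fun j => by
    rw [← m_UU k hρ0.le hρ1', ← m_UU k hρ0.le hρ1']
    exact measureReal_sdiff (UU_mono k hρ0.le hρ1' (Nat.le_succ j)) (PC_UU _ _ _).measurableSet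
  have heta : ∀ j, ρ ^ k ≤ eta k ρ (j + 1) := fun j => by
    unfold eta
    rw [if_neg (Nat.succ_ne_zero j)]
    exact pow_le_pow_of_le_one hρ0.le hρ1' (Nat.sub_le _ _)
  have hρk : 0 < ρ ^ k := pow_pos hρ0 k
  have hSge : ∀ j < k, eta k ρ (j + 1) / 2 ≤ m.real (S j) := fun j hj => by
    have h1 := eta_le k hρ0.le hj
    have h2 := heta j
    rw [hSm]
    nlinarith
  have hSpos : ∀ j < k, 0 < m.real (S j) := fun j hj => by
    have h1 := hSge j hj
    have h2 := heta j
    linarith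
  set r : ℝ := ε * ρ ^ k / 2 with hr
  have hr0 : 0 < r := by positivity
  have hr1 : r ≤ 1 := by
    have : ρ ^ k ≤ 1 := pow_le_one₀ hρ0.le hρ1'
    rw [hr]
    nlinarith
  have hsum : ∑ j ∈ Finset.range k, (m.real (S j))⁻¹ * m.real (S j) = k := by
    rw [Finset.sum_congr rfl fun j hj => inv_mul_cancel₀ (hSpos j (Finset.mem_range.mp hj)).ne']
    simp
  let f₀ : Density := step k S hS (fun j => (m.real (S j))⁻¹)
    (fun j => inv_nonneg.mpr measureReal_nonneg) (by rw [hsum]; exact hkpos)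
  let g : Density := step k S hS (fun j => r ^ j) (fun j => by positivity)
    (Finset.sum_pos (fun j hj => mul_pos (pow_pos hr0 j) (hSpos j (Finset.mem_range.mp hj)))
      ⟨0, Finset.mem_range.mpr (by omega)⟩)
  have hvals : ∀ (d : ℕ → ℝ) (f : Density),
      (∀ x, f.val x = ∑ l ∈ Finset.range k, (S l).indicator (fun _ => d l) x) →
      f.ValuesLe k := by
    intro d f hf
    refine ⟨(Finset.range k).image d, Finset.card_image_le.trans (Finset.card_range k).le,
      fun x hx => ?_⟩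
    obtain ⟨j, hj, hxj⟩ := exists_ring (show 0 < k by omega) ρ hx
    rw [hf x, step_val hρ0.le hρ1' d hj hxj]
    exact Finset.mem_image_of_mem d (Finset.mem_range.mpr hj)
  have hgval : ∀ j < k, ∀ x ∈ S j, g.val x = r ^ j := fun j hj x hx =>
    step_val hρ0.le hρ1' (fun j => r ^ j) hj hx
  have hprop := M.pA f₀ g (hvals _ f₀ fun _ => rfl) (hvals _ g fun _ => rfl)
  rw [f₀.value_eq measurableSet_Icc subset_rfl, f₀.value_eq (M.mA _ _) (M.sA _ _)] at hprop
  have e1 : ∫ x in Icc (0 : ℝ) 1, f₀.val x ∂m = k := by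
    refine (step_integral hS _ _).trans ?_
    rw [← hsum]
    exact Finset.sum_congr rfl fun j _ => by rw [inter_eq_right.mpr (hSI j)]
  have e2 : ∫ x in M.A f₀ g, f₀.val x ∂m =
      ∑ j ∈ Finset.range k, (m.real (S j))⁻¹ * m.real (M.A f₀ g ∩ S j) := step_integral hS _ _
  rw [e1, e2] at hprop
  -- at most one ring carries a large fraction
  have hex : ∀ i j, i < j → j < k → ε * m.real (S i) < m.real (M.A f₀ g ∩ S i) →
      ε * m.real (S j) < m.real (M.A f₀ g ∩ S j) → False := by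
    intro i j hij hj hi' hj'
    have hUm := m_UU k hρ0.le hρ1' (i + 1)
    have hUpos : 0 < m.real (UU k ρ (i + 1)) := by rw [hUm]; linarith [heta i]
    have hle : m.real (UU k ρ (i + 1)) ≤ ρ * eta k ρ (j + 1) := by
      refine le_trans ?_ (eta_le k hρ0.le hj)
      rw [← m_UU k hρ0.le hρ1']
      exact measureReal_mono (UU_mono k hρ0.le hρ1' hij)
    have hmain := M.exclusive hk ha f₀ g (PC_UU k ρ (i + 1)) (hS j) hUpos
      (UU_subset k hρ0.le hρ1' _) (hSI j)
      (disjoint_left.mpr fun x hx hx' => hx'.2 (UU_mono k hρ0.le hρ1' hij hx))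
      (c := r ^ i) (r := r) (pow_pos hr0 i) ?_ hr0.le ?_ ?_
    · have h1 : m.real (M.A f₀ g ∩ S i) ≤ m.real (M.A f₀ g ∩ UU k ρ (i + 1)) :=
        measureReal_mono (inter_subset_inter_right _ fun x hx => hx.1)
      have h2 := hSge i (hij.trans hj)
      have h3 := heta i
      have h4 : r ≤ ε * m.real (S i) := by
        rw [hr]
        nlinarith
      linarith
    · intro x hx
      obtain ⟨l, hl, hxl⟩ := exists_ring (show 0 < k by omega) ρ (UU_subset k hρ0.le hρ1' _ hx)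
      rw [hgval l hl x hxl]
      refine pow_le_pow_of_le_one hr0.le hr1 ?_
      by_contra hlt
      exact hxl.2 (UU_mono k hρ0.le hρ1' (by omega) hx)
    · intro x hx hxU
      obtain ⟨l, hl, hxl⟩ := exists_ring (show 0 < k by omega) ρ hx
      rw [hgval l hl x hxl, ← pow_succ]
      refine pow_le_pow_of_le_one hr0.le hr1 ?_
      by_contra hlt
      exact hxU (UU_mono k hρ0.le hρ1' (by omega) hxl.1)
    · refine lt_of_le_of_lt ?_ hj'
      rw [div_le_iff₀ ha]
      have h2 := hSge j hj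
      have h3 := heta j
      have h4 : ρ * eta k ρ (j + 1) ≤ a * ε / 2 * eta k ρ (j + 1) :=
        mul_le_mul_of_nonneg_right hρ2 (by linarith)
      have h5 : a * ε * (eta k ρ (j + 1) / 2) ≤ a * ε * m.real (S j) :=
        mul_le_mul_of_nonneg_left h2 (by positivity)
      nlinarith
  have hcard : ((Finset.range k).filter
      fun j => ε * m.real (S j) < m.real (M.A f₀ g ∩ S j)).card ≤ 1 := by
    refine Finset.card_le_one.mpr fun i hi j hj => ?_
    obtain ⟨hi1, hi2⟩ := Finset.mem_filter.mp hi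
    obtain ⟨hj1, hj2⟩ := Finset.mem_filter.mp hj
    by_contra hne
    rcases lt_or_gt_of_ne hne with h | h
    · exact hex i j h (Finset.mem_range.mp hj1) hi2 hj2
    · exact hex j i h (Finset.mem_range.mp hi1) hj2 hi2
  have hterm : ∀ j ∈ Finset.range k, (m.real (S j))⁻¹ * m.real (M.A f₀ g ∩ S j) ≤
      (if ε * m.real (S j) < m.real (M.A f₀ g ∩ S j) then (1 : ℝ) else 0) + ε := by
    intro j hj
    have hp := hSpos j (Finset.mem_range.mp hj)
    rw [inv_mul_le_iff₀ hp]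
    split_ifs with h
    · have : m.real (M.A f₀ g ∩ S j) ≤ m.real (S j) := measureReal_mono inter_subset_right
      nlinarith
    · have := not_lt.mp h
      linarith
  have hs := Finset.sum_le_sum hterm
  rw [Finset.sum_add_distrib, Finset.sum_boole, Finset.sum_const, Finset.card_range,
    nsmul_eq_mul] at hs
  have hc : (((Finset.range k).filter
      fun j => ε * m.real (S j) < m.real (M.A f₀ g ∩ S j)).card : ℝ) ≤ 1 := by
    exact_mod_cast hcard
  linarith

end Pool.Agent.Lib.MP_e28e82_lc
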