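import Pool.Agent.Lib.MP_e28e82_lc.Imposs

/-!
Reduction of the obstruction from `n` agents to two agents.
-/

namespace Pool.Agent.Lib.MP_e28e82_lc

open MeasureTheory Set

/-- The uniform density. -/
noncomputable def one : Density := ind (Icc 0 1) (PC.Icc 0 1) (by rw [m_real_I]; exact one_pos)

lemma one_val {x : ℝ} (hx : x ∈ Icc (0 : ℝ) 1) : one.val x = 1 :=
  indicator_of_mem hx fun _ => (1 : ℝ)

/-- A pattern with two distinguished coordinates. -/
def patt {n : ℕ} {α : Type*} (i₀ i₁ : Fin n) (a b c : α) : Fin n → α :=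
  fun j => if j = i₀ then a else if j = i₁ then b else c

section
variable {n : ℕ} {α : Type*} {i₀ i₁ : Fin n} (h : i₀ ≠ i₁)

lemma patt_fst (a b c : α) : patt i₀ i₁ a b c i₀ = a := by simp [patt]

include h in
lemma patt_snd (a b c : α) : patt i₀ i₁ a b c i₁ = b := by simp [patt, h.symm]

lemma update_fst (a a' b c : α) :
    Function.update (patt i₀ i₁ a b c) i₀ a' = patt i₀ i₁ a' b c := by
  funext j
  by_cases hj : j = i₀
  · subst hj
    simp [patt]
  · simp [patt, hj]

include h in
lemma update_snd (a b b' c : α) :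
    Function.update (patt i₀ i₁ a b c) i₁ b' = patt i₀ i₁ a b' c := by
  funext j
  by_cases hj : j = i₁
  · subst hj
    simp [patt, h.symm]
  · simp [patt, hj]

lemma patt_forall {P : α → Prop} {a b c : α} (ha : P a) (hb : P b) (hc : P c) (j : Fin n) :
    P (patt i₀ i₁ a b c j) := by
  unfold patt
  split_ifs <;> assumption

include h in
lemma law_set {Q U : Set ℝ} (hQ : PC Q) (hU : PC U) (pQ : 0 < m.real Q) (pU : 0 < m.real U)
    (hQI : Q ⊆ Icc (0 : ℝ) 1) (hUQ : U ⊆ Q) (r : Fin n → ℝ) :
    {x ∈ Icc (0 : ℝ) 1 | ∀ j, (patt i₀ i₁ (ind Q hQ pQ) (ind U hU pU) one j).val x = r j} =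
      if patt i₀ i₁ 1 1 1 = r then U else if patt i₀ i₁ 1 0 1 = r then Q \ U else
        if patt i₀ i₁ 0 0 1 = r then Icc 0 1 \ Q else ∅ := by
  have hval : ∀ x ∈ Icc (0 : ℝ) 1,
      (∀ j, (patt i₀ i₁ (ind Q hQ pQ) (ind U hU pU) one j).val x = r j) ↔
        patt i₀ i₁ (Q.indicator (fun _ => (1 : ℝ)) x) (U.indicator (fun _ => (1 : ℝ)) x) 1 = r := by
    intro x hx
    rw [funext_iff]
    refine forall_congr' fun j => ?_
    unfold patt
    split_ifs
    · rfl
    · rfl
    · rw [one_val hx]
  have hinj : ∀ a b a' b' : ℝ, patt i₀ i₁ a b 1 = patt i₀ i₁ a' b' 1 → a = a' ∧ b = b' := by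
    intro a b a' b' he
    have h1 := congrFun he i₀
    have h2 := congrFun he i₁
    rw [patt_fst, patt_fst] at h1
    rw [patt_snd h, patt_snd h] at h2
    exact ⟨h1, h2⟩
  ext x
  simp only [mem_ofPred_eq]
  by_cases hxU : x ∈ U
  · have hxQ := hUQ hxU
    rw [and_iff_right (hQI hxQ), hval x (hQI hxQ), indicator_of_mem hxQ, indicator_of_mem hxU]
    split_ifs with h1 h2 h3
    · simp [h1, hxU]
    · simp [h1, hxU]
    · simp [h1, hxQ]
    · simp [h1]
  · by_cases hxQ : x ∈ Q
    · rw [and_iff_right (hQI hxQ), hval x (hQI hxQ), indicator_of_mem hxQ, indicator_of_notMem hxU]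
      split_ifs with h1 h2 h3
      · refine iff_of_false (fun he => ?_) hxU
        exact zero_ne_one (hinj _ _ _ _ (he.trans h1.symm)).2
      · simp [h2, hxU, hxQ]
      · simp [h2, hxQ]
      · simp [h2]
    · by_cases hx : x ∈ Icc (0 : ℝ) 1
      · rw [and_iff_right hx, hval x hx, indicator_of_notMem hxQ, indicator_of_notMem hxU]
        split_ifs with h1 h2 h3
        · refine iff_of_false (fun he => ?_) hxU
          exact zero_ne_one (hinj _ _ _ _ (he.trans h1.symm)).2
        · refine iff_of_false (fun he => ?_) fun hx' => hxQ hx'.1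
          exact zero_ne_one (hinj _ _ _ _ (he.trans h2.symm)).1
        · exact iff_of_true h3 ⟨hx, hxQ⟩
        · simp [h3]
      · refine iff_of_false (fun hx' => hx hx'.1) ?_
        split_ifs
        · exact hxU
        · exact fun hx' => hxQ hx'.1
        · exact fun hx' => hx hx'.1
        · exact fun hx' => hx'

end

lemma volume_eq_of_real {A B : Set ℝ} (hA : PC A) (hB : PC B) (sA : A ⊆ Icc (0 : ℝ) 1)
    (sB : B ⊆ Icc (0 : ℝ) 1) (h : m.real A = m.real B) : volume A = volume B := by
  rw [← m_eq_volume hA.measurableSet sA, ← m_eq_volume hB.measurableSet sB]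
  exact (ENNReal.toReal_eq_toReal_iff' (measure_ne_top _ _) (measure_ne_top _ _)).mp h

theorem oblivious_bound (n : ℕ) (hn : 2 ≤ n) (M : Mechanism n) (hT : M.Truthful)
    (hO : M.ObliviousOn Density.Uniform) (k : ℕ) (hk : 2 ≤ k) (α : ℝ)
    (hα : ∀ f : Fin n → Density, (∀ j, (f j).ValuesLe k) →
      ∀ i, α / n * (f i).value (Icc 0 1) ≤ (f i).value (M.alloc f i)) :
    α ≤ n / k := by
  let i₀ : Fin n := ⟨0, by omega⟩
  let i₁ : Fin n := ⟨1, by omega⟩
  have h : i₀ ≠ i₁ := by simp [i₀, i₁]
  have hone : one.Uniform := ind_uniform _ _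
  let N : Two k (α / n) :=
    { A := fun f g => M.alloc (patt i₀ i₁ f g one) i₀
      B := fun f g => M.alloc (patt i₀ i₁ f g one) i₁
      mA := fun _ _ => M.measurable _ _
      mB := fun _ _ => M.measurable _ _
      sA := fun _ _ => M.subset _ _
      sB := fun _ _ => M.subset _ _
      disj := fun _ _ => M.disjoint _ _ _ h
      tA := fun f f' g => by
        have := hT (patt i₀ i₁ f g one) i₀ f'
        rwa [update_fst, patt_fst] at this
      tB := fun f g g' => by
        have := hT (patt i₀ i₁ f g one) i₁ g'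
        rwa [update_snd h, patt_snd h] at this
      pA := fun f g hf hg => by
        have := hα (patt i₀ i₁ f g one)
          (patt_forall (P := fun d : Density => d.ValuesLe k) hf hg (hone.valuesLe hk)) i₀
        rwa [patt_fst] at this
      pB := fun f g hf hg => by
        have := hα (patt i₀ i₁ f g one)
          (patt_forall (P := fun d : Density => d.ValuesLe k) hf hg (hone.valuesLe hk)) i₁
        rwa [patt_snd h] at this
      obl := fun Q U U' hQ hU hU' pQ pU pU' hQI hUQ hU'Q hm => by
        have := hO (patt i₀ i₁ (ind Q hQ pQ) (ind U hU pU) one)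
          (patt i₀ i₁ (ind Q hQ pQ) (ind U' hU' pU') one)
          (patt_forall (P := Density.Uniform) (ind_uniform _ _) (ind_uniform _ _) hone)
          (patt_forall (P := Density.Uniform) (ind_uniform _ _) (ind_uniform _ _) hone)
          (fun r => ?_) i₁
        · rwa [patt_snd h, patt_snd h] at this
        · rw [law_set h hQ hU pQ pU hQI hUQ, law_set h hQ hU' pQ pU' hQI hU'Q]
          split_ifs
          · exact volume_eq_of_real hU hU' (hUQ.trans hQI) (hU'Q.trans hQI) hm
          · refine volume_eq_of_real (hQ.diff hU) (hQ.diff hU') (fun x hx => hQI hx.1)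
              (fun x hx => hQI hx.1) ?_
            rw [measureReal_sdiff hUQ hU.measurableSet, measureReal_sdiff hU'Q hU'.measurableSet,
              hm]
          · rfl
          · rfl }
  have hb := N.bound hk
  have hn0 : (0 : ℝ) < n := by exact_mod_cast (show 0 < n by omega)
  have hk0 : (0 : ℝ) < k := by exact_mod_cast (show 0 < k by omega)
  rw [le_div_iff₀ hk0]
  rw [div_mul_eq_mul_div, div_le_one hn0] at hb
  exact hb

end Pool.Agent.Lib.MP_e28e82_lc
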