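import Pool.Agent.Lib.MP_e28e82_lc.PC

/-!
The scale-menu mechanism.
-/

namespace Pool.Agent.Lib.MP_e28e82_lc

open MeasureTheory Set Filter Topology

/-- The dual value of the problem of choosing a best set of length `β` inside `Y`. -/
noncomputable def D (f : Density) (Y : Set ℝ) (β θ : ℝ) : ℝ :=
  θ * β + ∫ x in Y, max (f.val x - θ) 0 ∂m

lemma integrable_pos_part (f : Density) (θ : ℝ) :
    Integrable (fun x => max (f.val x - θ) 0) m :=
  f.integrable_comp fun v => max (v - θ) 0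

lemma integral_add_pos_part (f : Density) (A : Set ℝ) (θ : ℝ) :
    ∫ x in A, (θ + max (f.val x - θ) 0) ∂m =
      θ * m.real A + ∫ x in A, max (f.val x - θ) 0 ∂m := by
  rw [integral_add (integrable_const θ) (integrable_pos_part f θ).integrableOn, setIntegral_const,
    smul_eq_mul, mul_comm]

lemma weak_dual (f : Density) {A Y : Set ℝ} (hA : MeasurableSet A) (hAY : A ⊆ Y) {β θ : ℝ}
    (hβ : m.real A ≤ β) (hθ : 0 ≤ θ) : ∫ x in A, f.val x ∂m ≤ D f Y β θ := by
  have h1 : ∫ x in A, f.val x ∂m ≤ ∫ x in A, (θ + max (f.val x - θ) 0) ∂m := by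
    refine setIntegral_mono_on f.integrable.integrableOn
      ((integrable_const θ).add (integrable_pos_part f θ)).integrableOn hA fun x _ => ?_
    have := le_max_left (f.val x - θ) 0
    linarith
  have h2 : ∫ x in A, max (f.val x - θ) 0 ∂m ≤ ∫ x in Y, max (f.val x - θ) 0 ∂m :=
    setIntegral_mono_set (integrable_pos_part f θ).integrableOn
      (Eventually.of_forall fun x => le_max_right _ _) (LE.le.eventuallyLE hAY)
  rw [integral_add_pos_part] at h1
  have h3 : θ * m.real A ≤ θ * β := mul_le_mul_of_nonneg_left hβ hθ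
  unfold D
  linarith

lemma strong_dual (f : Density) {A Y : Set ℝ} (hA : MeasurableSet A) (hY : MeasurableSet Y)
    (hAY : A ⊆ Y) {β θ : ℝ} (hβ : m.real A = β) (h1 : ∀ x ∈ A, θ ≤ f.val x)
    (h2 : ∀ x ∈ Y, θ < f.val x → x ∈ A) : ∫ x in A, f.val x ∂m = D f Y β θ := by
  have e1 : ∫ x in A, f.val x ∂m = ∫ x in A, (θ + max (f.val x - θ) 0) ∂m := by
    refine setIntegral_congr_fun hA fun x hx => ?_
    have := h1 x hx
    rw [max_eq_left (by linarith)]
    ring
  have e2 : ∫ x in Y, max (f.val x - θ) 0 ∂m = ∫ x in A, max (f.val x - θ) 0 ∂m := by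
    refine setIntegral_eq_of_subset_of_forall_sdiff_eq_zero hY hAY fun x hx => ?_
    have : ¬ θ < f.val x := fun h => hx.2 (h2 x hx.1 h)
    exact max_eq_right (by linarith [not_lt.mp this])
  rw [e1, integral_add_pos_part, hβ, D, e2]

/-- Upper level set. -/
def up (f : Density) (v : ℝ) : Set ℝ := {x ∈ Icc (0 : ℝ) 1 | v ≤ f.val x}

lemma PC_up (f : Density) (v : ℝ) : PC (up f v) := PC.level f fun w => v ≤ w

/-- The union of the top level sets whose total length is less than `t`. -/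
def E (f : Density) (t : ℝ) : Set ℝ := {x ∈ Icc (0 : ℝ) 1 | m.real (up f (f.val x)) < t}

lemma PC_E (f : Density) (t : ℝ) : PC (E f t) := PC.level f fun w => m.real (up f w) < t

lemma small_upper (f : Density) {S Y : Set ℝ} (hSI : S ⊆ Icc (0 : ℝ) 1) (hSY : S ⊆ Y) {β : ℝ}
    (hβ : 0 < β) (h : ∀ x ∈ S, m.real (up f (f.val x) ∩ Y) < β) : m.real S < β := by
  rcases S.eq_empty_or_nonempty with rfl | hne
  · simpa using hβ
  · have hfin : (f.val '' S).Finite := f.finite_range.subset (image_mono hSI)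
    obtain ⟨v, ⟨x₀, hx₀, rfl⟩, hmin⟩ := hfin.exists_minimal (hne.image _)
    have hsub : S ⊆ up f (f.val x₀) ∩ Y := by
      intro x hx
      refine ⟨⟨hSI hx, ?_⟩, hSY hx⟩
      by_contra hlt
      have hle : f.val x ≤ f.val x₀ := (not_le.mp hlt).le
      exact hlt (hmin ⟨x, hx, rfl⟩ hle)
    exact (measureReal_mono hsub).trans_lt (h x₀ hx₀)

lemma E_lt (f : Density) {t : ℝ} (ht : 0 < t) : m.real (E f t) < t := by
  refine small_upper f (Y := univ) (fun x hx => hx.1) (subset_univ _) ht fun x hx => ?_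
  rw [inter_univ]
  exact hx.2

lemma exists_threshold (f : Density) {Y : Set ℝ} (hYI : Y ⊆ Icc (0 : ℝ) 1) {β : ℝ}
    (hY : β ≤ m.real Y) :
    ∃ θ, 0 ≤ θ ∧ β ≤ m.real (up f θ ∩ Y) ∧
      ∀ x ∈ Icc (0 : ℝ) 1, θ < f.val x → m.real (up f (f.val x) ∩ Y) < β := by
  have hfin : {v ∈ f.val '' Icc (0 : ℝ) 1 | β ≤ m.real (up f v ∩ Y)}.Finite :=
    f.finite_range.subset fun v hv => hv.1
  have hne : {v ∈ f.val '' Icc (0 : ℝ) 1 | β ≤ m.real (up f v ∩ Y)}.Nonempty := by
    obtain ⟨v, ⟨x₀, hx₀, rfl⟩, hmin⟩ := f.finite_range.exists_minimal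
      ((nonempty_Icc.mpr zero_le_one).image _)
    refine ⟨f.val x₀, ⟨x₀, hx₀, rfl⟩, hY.trans (measureReal_mono ?_)⟩
    intro x hx
    refine ⟨⟨hYI hx, ?_⟩, hx⟩
    by_contra hlt
    have hle : f.val x ≤ f.val x₀ := (not_le.mp hlt).le
    exact hlt (hmin ⟨x, hYI hx, rfl⟩ hle)
  obtain ⟨θ, ⟨⟨x₀, hx₀, rfl⟩, hθ⟩, hmax⟩ := hfin.exists_maximal hne
  refine ⟨f.val x₀, f.nonneg x₀ hx₀, hθ, fun x hx hlt => ?_⟩
  by_contra hge
  have := hmax (y := f.val x) ⟨⟨x, hx, rfl⟩, not_lt.mp hge⟩ hlt.le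
  exact absurd hlt (not_lt.mpr this)

lemma exists_pick (f : Density) {Y B : Set ℝ} (hY : PC Y) (hYI : Y ⊆ Icc (0 : ℝ) 1) (hB : PC B)
    {β θ : ℝ} (hβ : 0 < β)
    (hθ : ∀ x ∈ Icc (0 : ℝ) 1, θ < f.val x → m.real (up f (f.val x) ∩ Y) < β)
    (h1 : ∀ x ∈ Y, θ < f.val x → x ∉ B) (h2 : β ≤ m.real ((up f θ ∩ Y) \ B)) :
    ∃ A, PC A ∧ A ⊆ Y ∧ Disjoint A B ∧ m.real A = β ∧ ∫ x in A, f.val x ∂m = D f Y β θ := by
  set G : Set ℝ := {x ∈ Icc (0 : ℝ) 1 | θ < f.val x} ∩ Y with hG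
  have hGPC : PC G := (PC.level f fun w => θ < w).inter hY
  have hGlt : m.real G < β :=
    small_upper f (fun x hx => hx.1.1) inter_subset_right hβ fun x hx => hθ x hx.1.1 hx.1.2
  have hGsub : G ⊆ (up f θ ∩ Y) \ B := fun x hx =>
    ⟨⟨⟨hx.1.1, hx.1.2.le⟩, hx.2⟩, h1 x hx.2 hx.1.2⟩
  set Z : Set ℝ := ((up f θ ∩ Y) \ B) \ G with hZ
  have hZPC : PC Z := (((PC_up f θ).inter hY).diff hB).diff hGPC
  have hZm : m.real Z = m.real ((up f θ ∩ Y) \ B) - m.real G :=
    measureReal_sdiff hGsub hGPC.measurableSet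
  obtain ⟨c, hc⟩ := exists_cut hZPC.measurableSet (a := β - m.real G) (by linarith) (by linarith)
  have hAPC : PC (G ∪ Z ∩ Iic c) := hGPC.union (hZPC.inter (PC.Iic c))
  have hAsub : G ∪ Z ∩ Iic c ⊆ (up f θ ∩ Y) \ B :=
    union_subset hGsub fun x hx => hx.1.1
  have hAm : m.real (G ∪ Z ∩ Iic c) = β := by
    rw [measureReal_union _ (hZPC.inter (PC.Iic c)).measurableSet, hc]
    · ring
    · exact disjoint_left.mpr fun x hx hx' => hx'.1.2 hx
  refine ⟨G ∪ Z ∩ Iic c, hAPC, fun x hx => (hAsub hx).1.2,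
    disjoint_left.mpr fun x hx => (hAsub hx).2, hAm, ?_⟩
  exact strong_dual f hAPC.measurableSet hY.measurableSet (fun x hx => (hAsub hx).1.2) hAm
    (fun x hx => (hAsub hx).1.1.2) fun x hx hlt => Or.inl ⟨⟨hYI hx, hlt⟩, hx⟩

/-- The region that agent `i` must avoid at scale `t`. -/
def X {n : ℕ} (f : Fin n → Density) (i : Fin n) (t : ℝ) : Set ℝ :=
  ⋃ j ∈ Finset.univ.erase i, E (f j) t

/-- The region open to agent `i` at scale `t`. -/
def Y {n : ℕ} (f : Fin n → Density) (i : Fin n) (t : ℝ) : Set ℝ := Icc (0 : ℝ) 1 \ X f i t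

lemma PC_X {n : ℕ} (f : Fin n → Density) (i : Fin n) (t : ℝ) : PC (X f i t) :=
  PC.biUnion _ _ fun j _ => PC_E (f j) t

lemma PC_Y {n : ℕ} (f : Fin n → Density) (i : Fin n) (t : ℝ) : PC (Y f i t) :=
  (PC.Icc 0 1).diff (PC_X f i t)

lemma Y_subset {n : ℕ} (f : Fin n → Density) (i : Fin n) (t : ℝ) : Y f i t ⊆ Icc (0 : ℝ) 1 :=
  fun _ hx => hx.1

lemma card_erase_real {n : ℕ} (i : Fin n) :
    (((Finset.univ : Finset (Fin n)).erase i).card : ℝ) = (n : ℝ) - 1 := by
  rw [Finset.card_erase_of_mem (Finset.mem_univ i), Finset.card_univ, Fintype.card_fin,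
    Nat.cast_sub i.pos, Nat.cast_one]

lemma X_le {n : ℕ} (f : Fin n → Density) (i : Fin n) {t : ℝ} (ht : 0 < t) :
    m.real (X f i t) ≤ ((n : ℝ) - 1) * t := by
  refine (measureReal_biUnion_finset_le _ _).trans ?_
  have := Finset.sum_le_card_nsmul (Finset.univ.erase i) (fun j => m.real (E (f j) t)) t
    fun j _ => (E_lt (f j) ht).le
  rwa [nsmul_eq_mul, card_erase_real] at this

lemma inter_Y_ge {n : ℕ} (f : Fin n → Density) (i : Fin n) {t : ℝ} (ht : 0 < t) {S : Set ℝ}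
    (hS : S ⊆ Icc (0 : ℝ) 1) : m.real S - ((n : ℝ) - 1) * t ≤ m.real (S ∩ Y f i t) := by
  have h1 : S ∩ Y f i t = S \ X f i t := by
    ext x
    exact ⟨fun h => ⟨h.1, h.2.2⟩, fun h => ⟨h.1, hS h.1, h.2⟩⟩
  have h2 : m.real S - m.real (X f i t) ≤ m.real (S \ X f i t) := le_measureReal_sdiff
  have h3 := X_le f i ht
  rw [h1]
  linarith

lemma Y_update {n : ℕ} (f : Fin n → Density) (i : Fin n) (g : Density) (t : ℝ) :
    Y (Function.update f i g) i t = Y f i t := by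
  unfold Y X
  congr 1
  refine iUnion₂_congr fun j hj => ?_
  rw [Function.update_of_ne (Finset.ne_of_mem_erase hj)]

/-- The scales open to agent `i`. -/
noncomputable def tt (n : ℕ) (i : Fin n) (k : ℕ) : ℝ := (2 * (n : ℝ) - 1)⁻¹ ^ (n * k + i + 1)

/-- The budget factor. -/
noncomputable def kap (n : ℕ) : ℝ := 1 / (2 * ((n : ℝ) - 1))

section
variable {n : ℕ} (hn : 2 ≤ n)
include hn

lemma n_ge : (2 : ℝ) ≤ n := by exact_mod_cast hn

lemma R_pos : (0 : ℝ) < 2 * (n : ℝ) - 1 := by have := n_ge hn; linarith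

lemma tt_pos (i : Fin n) (k : ℕ) : 0 < tt n i k := pow_pos (inv_pos.mpr (R_pos hn)) _

lemma kap_pos : 0 < kap n := by
  have := n_ge hn
  unfold kap
  exact one_div_pos.mpr (by linarith)

lemma kap_mul : ((n : ℝ) - 1) * kap n = 1 / 2 := by
  have := n_ge hn
  unfold kap
  have h : (n : ℝ) - 1 ≠ 0 := by linarith
  field_simp

lemma kap_le : kap n ≤ 1 / 2 := by
  have h1 := n_ge hn
  have h2 := kap_mul hn
  have h3 := kap_pos hn
  nlinarith

lemma pow_step {a b : ℕ} (h : a < b) :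
    (2 * (n : ℝ) - 1) * (2 * (n : ℝ) - 1)⁻¹ ^ b ≤ (2 * (n : ℝ) - 1)⁻¹ ^ a := by
  have hR := R_pos hn
  have h2 := n_ge hn
  have hle : (2 * (n : ℝ) - 1)⁻¹ ≤ 1 := inv_le_one_of_one_le₀ (by linarith)
  have h3 : (2 * (n : ℝ) - 1)⁻¹ ^ b ≤ (2 * (n : ℝ) - 1)⁻¹ ^ (a + 1) :=
    pow_le_pow_of_le_one (inv_pos.mpr hR).le hle h
  calc (2 * (n : ℝ) - 1) * (2 * (n : ℝ) - 1)⁻¹ ^ b
      ≤ (2 * (n : ℝ) - 1) * (2 * (n : ℝ) - 1)⁻¹ ^ (a + 1) :=
        mul_le_mul_of_nonneg_left h3 hR.le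
    _ = (2 * (n : ℝ) - 1)⁻¹ ^ a := by
        rw [pow_succ]
        field_simp

lemma R_tt_le (i : Fin n) (k : ℕ) : (2 * (n : ℝ) - 1) * tt n i k ≤ 1 := by
  have := pow_step hn (a := 0) (b := n * k + i + 1) (Nat.succ_pos _)
  rwa [pow_zero] at this

lemma budget_le (f : Fin n → Density) (i : Fin n) (k : ℕ) :
    kap n * tt n i k ≤ m.real (Y f i (tt n i k)) := by
  have h1 := inter_Y_ge f i (tt_pos hn i k) (S := Icc (0 : ℝ) 1) subset_rfl
  rw [m_real_I, inter_eq_right.mpr (Y_subset _ _ _)] at h1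
  have h2 := R_tt_le hn i k
  have h3 := kap_le hn
  have h4 := tt_pos hn i k
  have h5 := n_ge hn
  nlinarith

lemma tt_tendsto (i : Fin n) : Tendsto (tt n i) atTop (𝓝 0) := by
  have hR := R_pos hn
  have h2 := n_ge hn
  have hlt : (2 * (n : ℝ) - 1)⁻¹ < 1 := inv_lt_one_of_one_lt₀ (by linarith)
  have h1 := tendsto_pow_atTop_nhds_zero_of_lt_one (inv_pos.mpr hR).le hlt
  have h3 : Tendsto (fun k : ℕ => n * k + i + 1) atTop atTop := by
    refine tendsto_atTop_mono (fun k => ?_) tendsto_id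
    have : k ≤ n * k := Nat.le_mul_of_pos_left k (by omega)
    simp only [id]
    omega
  exact h1.comp h3

end

lemma exists_max_of_tendsto {a : ℕ → ℝ} (h0 : ∀ k, 0 ≤ a k) (h : Tendsto a atTop (𝓝 0)) :
    ∃ k₀, ∀ k, a k ≤ a k₀ := by
  by_cases hz : ∀ k, a k = 0
  · exact ⟨0, fun k => by rw [hz k, hz 0]⟩
  · push Not at hz
    obtain ⟨k₁, hk₁⟩ := hz
    have hpos : 0 < a k₁ := lt_of_le_of_ne (h0 k₁) (Ne.symm hk₁)
    obtain ⟨N, hN⟩ := eventually_atTop.mp (h.eventually (gt_mem_nhds hpos))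
    obtain ⟨k₀, -, hk₀⟩ := (insert k₁ (Finset.range N)).exists_max_image a
      (Finset.insert_nonempty _ _)
    refine ⟨k₀, fun k => ?_⟩
    by_cases hk : k < N
    · exact hk₀ k (Finset.mem_insert_of_mem (Finset.mem_range.mpr hk))
    · exact (hN k (not_lt.mp hk)).le.trans (hk₀ k₁ (Finset.mem_insert_self _ _))

lemma Density.exists_bound (f : Density) : ∃ M, 0 ≤ M ∧ ∀ x ∈ Icc (0 : ℝ) 1, f.val x ≤ M := by
  obtain ⟨M, hM⟩ := f.finite_range.bddAbove
  exact ⟨M, (f.nonneg 0 ⟨le_rfl, zero_le_one⟩).trans (hM ⟨0, ⟨le_rfl, zero_le_one⟩, rfl⟩),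
    fun x hx => hM ⟨x, hx, rfl⟩⟩

lemma D_nonneg (f : Density) (Y : Set ℝ) {β θ : ℝ} (hβ : 0 ≤ β) (hθ : 0 ≤ θ) : 0 ≤ D f Y β θ :=
  add_nonneg (mul_nonneg hθ hβ) (integral_nonneg fun _ => le_max_right _ _)

lemma D_bound (f : Density) {Y : Set ℝ} (hY : MeasurableSet Y) (hYI : Y ⊆ Icc (0 : ℝ) 1)
    (β : ℝ) {M : ℝ} (hM : ∀ x ∈ Icc (0 : ℝ) 1, f.val x ≤ M) : D f Y β M = M * β := by
  unfold D
  rw [setIntegral_congr_fun hY (g := fun _ => 0)]
  · simp
  · intro x hx
    exact max_eq_right (by linarith [hM x (hYI hx)])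

/-- Whatever scales the agents choose, their optimal sets can be taken pairwise disjoint. -/
lemma exists_compatible {n : ℕ} (hn : 2 ≤ n) (f : Fin n → Density) (k : Fin n → ℕ)
    (θ : Fin n → ℝ)
    (hθ1 : ∀ i, kap n * tt n i (k i) ≤ m.real (up (f i) (θ i) ∩ Y f i (tt n i (k i))))
    (hθ2 : ∀ i, ∀ x ∈ Icc (0 : ℝ) 1, θ i < (f i).val x →
      m.real (up (f i) ((f i).val x) ∩ Y f i (tt n i (k i))) < kap n * tt n i (k i))
    (s : Finset (Fin n)) :
    ∃ A : Fin n → Set ℝ, (∀ i ∈ s, PC (A i) ∧ A i ⊆ Y f i (tt n i (k i)) ∧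
        m.real (A i) = kap n * tt n i (k i) ∧
        ∫ x in A i, (f i).val x ∂m =
          D (f i) (Y f i (tt n i (k i))) (kap n * tt n i (k i)) (θ i)) ∧
      ∀ i ∈ s, ∀ j ∈ s, i ≠ j → Disjoint (A i) (A j) := by
  classical
  induction s using Finset.induction_on_max_value (fun i : Fin n => n * k i + i + 1) with
  | empty => exact ⟨fun _ => ∅, by simp, by simp⟩
  | insert a s ha hmax ih =>
    obtain ⟨A, hA, hdisj⟩ := ih
    have hn2 := n_ge hn
    have hta := tt_pos hn a (k a)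
    have hk0 := kap_pos hn
    have hk1 := kap_le hn
    have hk2 := kap_mul hn
    have hsep : ∀ l ∈ s, (2 * (n : ℝ) - 1) * tt n a (k a) ≤ tt n l (k l) := by
      intro l hl
      refine pow_step hn (lt_of_le_of_ne (hmax l hl) fun he => ?_)
      have h1 : (n * k l + l) % n = (n * k a + a) % n := by
        have : n * k l + l = n * k a + a := by omega
        rw [this]
      rw [Nat.mul_add_mod, Nat.mul_add_mod, Nat.mod_eq_of_lt l.2, Nat.mod_eq_of_lt a.2] at h1
      exact ha (Fin.ext h1 ▸ hl)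
    have havoid : ∀ l ∈ s, ∀ x ∈ Icc (0 : ℝ) 1,
        m.real (up (f a) ((f a).val x)) < tt n l (k l) → x ∉ A l := by
      intro l hl x hx hlt hxA
      refine ((hA l hl).2.1 hxA).2 ?_
      refine mem_iUnion₂.mpr ⟨a, Finset.mem_erase.mpr ⟨?_, Finset.mem_univ _⟩, hx, hlt⟩
      rintro rfl
      exact ha hl
    have hBPC : PC (⋃ l ∈ s, A l) := PC.biUnion _ _ fun l hl => (hA l hl).1
    have h1 : ∀ x ∈ Y f a (tt n a (k a)), θ a < (f a).val x → x ∉ ⋃ l ∈ s, A l := by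
      intro x hx hlt hxB
      obtain ⟨l, hl, hxl⟩ := mem_iUnion₂.mp hxB
      refine havoid l hl x hx.1 ?_ hxl
      have h2 := hθ2 a x hx.1 hlt
      have h3 := inter_Y_ge f a hta (S := up (f a) ((f a).val x)) fun y hy => hy.1
      have h4 := hsep l hl
      nlinarith
    have h2 : kap n * tt n a (k a) ≤
        m.real ((up (f a) (θ a) ∩ Y f a (tt n a (k a))) \ ⋃ l ∈ s, A l) := by
      set η := m.real (up (f a) (θ a)) with hη
      have heq : (up (f a) (θ a) ∩ Y f a (tt n a (k a))) \ (⋃ l ∈ s, A l) =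
          (up (f a) (θ a) ∩ Y f a (tt n a (k a))) \
            ⋃ l ∈ s.filter (fun l => tt n l (k l) ≤ η), A l := by
        ext x
        constructor
        · rintro ⟨hx, hxB⟩
          refine ⟨hx, fun hxB' => hxB ?_⟩
          obtain ⟨l, hl, hxl⟩ := mem_iUnion₂.mp hxB'
          exact mem_iUnion₂.mpr ⟨l, (Finset.mem_filter.mp hl).1, hxl⟩
        · rintro ⟨hx, hxB⟩
          refine ⟨hx, fun hxB' => hxB ?_⟩
          obtain ⟨l, hl, hxl⟩ := mem_iUnion₂.mp hxB'
          refine mem_iUnion₂.mpr ⟨l, Finset.mem_filter.mpr ⟨hl, ?_⟩, hxl⟩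
          by_contra hlt
          refine havoid l hl x hx.1.1 ?_ hxl
          have : m.real (up (f a) ((f a).val x)) ≤ η :=
            measureReal_mono fun y hy => ⟨hy.1, hx.1.2.trans hy.2⟩
          linarith [not_le.mp hlt]
      rw [heq]
      rcases (s.filter (fun l => tt n l (k l) ≤ η)).eq_empty_or_nonempty with he | ⟨l, hl⟩
      · rw [he]
        simpa using hθ1 a
      · obtain ⟨hls, hlη⟩ := Finset.mem_filter.mp hl
        have h3 := inter_Y_ge f a hta (S := up (f a) (θ a)) fun y hy => hy.1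
        have h4 : m.real (⋃ l ∈ s.filter (fun l => tt n l (k l) ≤ η), A l) ≤
            ((n : ℝ) - 1) * (kap n * η) := by
          refine (measureReal_biUnion_finset_le _ _).trans ?_
          have h5 := Finset.sum_le_card_nsmul (s.filter (fun l => tt n l (k l) ≤ η))
            (fun l => m.real (A l)) (kap n * η) fun l hl => by
              obtain ⟨hls, hlη⟩ := Finset.mem_filter.mp hl
              rw [(hA l hls).2.2.1]
              exact mul_le_mul_of_nonneg_left hlη hk0.le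
          rw [nsmul_eq_mul] at h5
          refine h5.trans (mul_le_mul_of_nonneg_right ?_ (mul_nonneg hk0.le measureReal_nonneg))
          rw [← card_erase_real a]
          refine Nat.cast_le.mpr (Finset.card_le_card fun j hj => ?_)
          refine Finset.mem_erase.mpr ⟨?_, Finset.mem_univ _⟩
          rintro rfl
          exact ha (Finset.mem_filter.mp hj).1
        have h6 : m.real (up (f a) (θ a) ∩ Y f a (tt n a (k a))) -
            m.real (⋃ l ∈ s.filter (fun l => tt n l (k l) ≤ η), A l) ≤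
            m.real ((up (f a) (θ a) ∩ Y f a (tt n a (k a))) \
              ⋃ l ∈ s.filter (fun l => tt n l (k l) ≤ η), A l) :=
          le_measureReal_sdiff (measure_ne_top _ _)
        have h7 := hsep l hls
        have h8 : ((n : ℝ) - 1) * (kap n * η) = η / 2 := by
          rw [← mul_assoc, hk2]; ring
        nlinarith
    obtain ⟨A₀, hPC, hsub, hd, hm, hv⟩ := exists_pick (f a) (PC_Y f a _) (Y_subset f a _) hBPC
      (mul_pos hk0 hta) (hθ2 a) h1 h2
    have hne : ∀ l ∈ s, l ≠ a := fun l hl he => ha (he ▸ hl)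
    have hd' : ∀ l ∈ s, Disjoint A₀ (A l) := fun l hl =>
      hd.mono_right (subset_biUnion_of_mem (u := A) (Finset.mem_coe.mpr hl))
    refine ⟨Function.update A a A₀, ?_, ?_⟩
    · intro i hi
      rcases Finset.mem_insert.mp hi with rfl | hi
      · rw [Function.update_self]
        exact ⟨hPC, hsub, hm, hv⟩
      · rw [Function.update_of_ne (hne i hi)]
        exact hA i hi
    · intro i hi j hj hij
      rcases Finset.mem_insert.mp hi with hi' | hi' <;> rcases Finset.mem_insert.mp hj with hj' | hj'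
      · exact absurd (hi'.trans hj'.symm) hij
      · rw [hi', Function.update_self, Function.update_of_ne (hne j hj')]
        exact hd' j hj'
      · rw [hj', Function.update_self, Function.update_of_ne (hne i hi')]
        exact (hd' i hi').symm
      · rw [Function.update_of_ne (hne i hi'), Function.update_of_ne (hne j hj')]
        exact hdisj i hi' j hj' hij

/-- Every profile has an allocation in which each agent gets a best element of her menu. -/
theorem exists_alloc {n : ℕ} (hn : 2 ≤ n) (f : Fin n → Density) :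
    ∃ A : Fin n → Set ℝ, (∀ i, PC (A i) ∧
        (∃ k, A i ⊆ Y f i (tt n i k) ∧ m.real (A i) ≤ kap n * tt n i k) ∧
        ∀ k, ∃ θ, 0 ≤ θ ∧
          D (f i) (Y f i (tt n i k)) (kap n * tt n i k) θ ≤ ∫ x in A i, (f i).val x ∂m) ∧
      ∀ i j, i ≠ j → Disjoint (A i) (A j) := by
  choose θ hθ0 hθ1 hθ2 using fun (i : Fin n) (k : ℕ) =>
    exists_threshold (f i) (Y_subset f i (tt n i k)) (budget_le hn f i k)
  have hmax : ∀ i : Fin n, ∃ k₀, ∀ k, D (f i) (Y f i (tt n i k)) (kap n * tt n i k) (θ i k) ≤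
      D (f i) (Y f i (tt n i k₀)) (kap n * tt n i k₀) (θ i k₀) := by
    intro i
    have hβ : ∀ k, 0 < kap n * tt n i k := fun k => mul_pos (kap_pos hn) (tt_pos hn i k)
    refine exists_max_of_tendsto (fun k => D_nonneg _ _ (hβ k).le (hθ0 i k)) ?_
    obtain ⟨M, hM0, hM⟩ := (f i).exists_bound
    have hlim : Tendsto (fun k => M * (kap n * tt n i k)) atTop (𝓝 0) := by
      have := ((tt_tendsto hn i).const_mul (kap n)).const_mul M
      simpa using this
    refine squeeze_zero (fun k => D_nonneg _ _ (hβ k).le (hθ0 i k)) (fun k => ?_) hlim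
    obtain ⟨A, hPC, hsub, -, hm, hv⟩ := exists_pick (f i) (PC_Y f i _) (Y_subset f i _) PC.empty
      (hβ k) (hθ2 i k) (fun _ _ _ h => h) (by simpa using hθ1 i k)
    rw [← hv, ← D_bound (f i) (PC_Y f i (tt n i k)).measurableSet (Y_subset f i _) _ hM]
    exact weak_dual _ hPC.measurableSet hsub hm.le hM0
  choose k hk using hmax
  obtain ⟨A, hA, hd⟩ := exists_compatible hn f k (fun i => θ i (k i)) (fun i => hθ1 i (k i))
    (fun i => hθ2 i (k i)) Finset.univ
  refine ⟨A, fun i => ?_, fun i j hij => hd i (Finset.mem_univ _) j (Finset.mem_univ _) hij⟩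
  obtain ⟨h1, h2, h3, h4⟩ := hA i (Finset.mem_univ _)
  exact ⟨h1, ⟨k i, h2, h3.le⟩, fun k' => ⟨θ i k', hθ0 i k', h4 ▸ hk i k'⟩⟩

end Pool.Agent.Lib.MP_e28e82_lc
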