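import Pool.Agent.Lib.MP_e28e82_lc.Defs

/-!
Strictly positive densities.
-/

namespace Pool.Agent.Lib.MP_e28e82_lc

/-- The density is strictly positive on the cake. -/
def Density.Positive (f : Density) : Prop := ∀ x ∈ Set.Icc (0 : ℝ) 1, 0 < f.val x

end Pool.Agent.Lib.MP_e28e82_lc
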