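import Pool.Agent.Lib.MP_e28e82_lc.EntireComb
import Pool.Agent.Lib.MP_e28e82_lc.MenuDefs

/-! The menus of a truthful approximately proportional mechanism have unbounded width. -/

set_option autoImplicit false

namespace Pool.Agent.Lib.MP_e28e82_lc.Menu

open MeasureTheory Set Entire

/-- weights that double the density on `Y` -/
def dw (Y : Set ℝ) (hY : PC Y) : Wt where
  S := ![univ, Y, ∅, ∅]
  d := ![1, 1, 0, 0]
  pc := fun j => by
    fin_cases j
    · exact PC.univ
    · exact hY
    · exact PC.empty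
    · exact PC.empty
  nonneg := fun j => by fin_cases j <;> simp

theorem dw_val (g : Density) {Y : Set ℝ} (hY : PC Y) (Z : Set ℝ) :
    (dw Y hY).val g Z = (nu g).real Z + (nu g).real (Z ∩ Y) := by
  simp [Wt.val, dw, Fin.sum_univ_four]

theorem dw_pos (g : Density) {Y : Set ℝ} (hY : PC Y) : 0 < (dw Y hY).val g univ := by
  rw [dw_val, probReal_univ]
  linarith [nn (nu g) (univ ∩ Y)]

/-- the density doubled on `Y` -/
noncomputable def dbl (g : Density) (Y : Set ℝ) (hY : PC Y) : Density :=
  (dw Y hY).dens g (dw_pos g hY)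

theorem dbl_pos {g : Density} (hg : g.Positive) {Y : Set ℝ} (hY : PC Y) :
    (dbl g Y hY).Positive := by
  intro x hx
  have := hg x hx
  show 0 < ∑ j, ((dw Y hY).S j).indicator (fun x => (dw Y hY).d j * g.val x) x
  by_cases h : x ∈ Y <;> simp [dw, Fin.sum_univ_four, h, this]

theorem nu_dbl (g : Density) {Y : Set ℝ} (hY : PC Y) {Z : Set ℝ} (hZ : MeasurableSet Z) :
    (1 + (nu g).real Y) * (nu (dbl g Y hY)).real Z = (nu g).real Z + (nu g).real (Z ∩ Y) := by
  have h1 := nu_real (dbl g Y hY) hZ
  have h2 : tot (dbl g Y hY) = tot g * (dw Y hY).val g univ := (dw Y hY).value_I g (dw_pos g hY)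
  have h3 : ∫ x in Z, (dbl g Y hY).val x ∂m = tot g * (dw Y hY).val g Z := (dw Y hY).integral g hZ
  rw [h2, h3, dw_val, dw_val, probReal_univ, univ_inter, mul_assoc] at h1
  exact mul_left_cancel₀ (tot_pos g).ne' h1

/-- at most `k` doublings -/
inductive Reach (g : Density) : ℕ → Density → Prop
  | refl : Reach g 0 g
  | skip {k : ℕ} {g' : Density} : Reach g k g' → Reach g (k + 1) g'
  | step {k : ℕ} {g' : Density} {Y : Set ℝ} (hY : PC Y) :
      Reach g k g' → Reach g (k + 1) (dbl g' Y hY)

theorem Reach.trans {g g' g'' : Density} {k l : ℕ} (h : Reach g k g') (h' : Reach g' l g'') :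
    Reach g (k + l) g'' := by
  induction h' with
  | refl => exact h
  | skip _ ih => exact ih.skip
  | step hY _ ih => exact ih.step hY

theorem Reach.pos {g g' : Density} {k : ℕ} (h : Reach g k g') (hg : g.Positive) :
    g'.Positive := by
  induction h with
  | refl => exact hg
  | skip _ ih => exact ih
  | step hY _ ih => exact dbl_pos ih hY

theorem Reach.dom {g g' : Density} {k : ℕ} (h : Reach g k g') {Z : Set ℝ} (hZ : MeasurableSet Z) :
    (nu g).real Z ≤ 2 ^ k * (nu g').real Z := by
  induction h with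
  | refl => simp
  | @skip k g' _ ih =>
    have := nn (nu g') Z
    have : (0 : ℝ) < 2 ^ k := by positivity
    rw [pow_succ]
    nlinarith
  | @step k g' Y hY _ ih =>
    have h1 := nu_dbl g' hY hZ
    have h2 := nn (nu g') (Z ∩ Y)
    have h3 := le1 (nu g') Y
    have h4 := nn (nu (dbl g' Y hY)) Z
    have h5 : (nu g').real Z ≤ 2 * (nu (dbl g' Y hY)).real Z := by nlinarith
    have : (0 : ℝ) < 2 ^ k := by positivity
    rw [pow_succ]
    nlinarith

/-- the data of a two-agent mechanism on positive densities -/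
structure Pair (a : ℝ) where
  S : Density → Density → Set ℝ
  T : Density → Density → Set ℝ
  mS : ∀ f g, MeasurableSet (S f g)
  mT : ∀ f g, MeasurableSet (T f g)
  disj : ∀ f g, Disjoint (S f g) (T f g)
  tT : ∀ f g g' : Density, f.Positive → g.Positive → g'.Positive →
    (nu g).real (T f g') ≤ (nu g).real (T f g)
  fS : ∀ f g : Density, f.Positive → g.Positive → a ≤ (nu f).real (S f g)
  fT : ∀ f g : Density, f.Positive → g.Positive → a ≤ (nu g).real (T f g)

variable {a : ℝ} (M : Pair a)

/-- the share of the second agent -/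
noncomputable def Pair.lev (f g : Density) : ℝ := (nu g).real (M.T f g)

theorem Pair.lev_dbl {f g : Density} (hf : f.Positive) (hg : g.Positive) {Y : Set ℝ} (hY : PC Y)
    {c : ℝ} (h1 : c ≤ (nu g).real (M.T f g ∩ Y) - M.lev f g * (nu g).real Y)
    (h2 : 2 * c ≤ (nu g).real (M.T f g ∩ Y) - M.lev f g * (nu g).real Y) :
    M.lev f g + c ≤ M.lev f (dbl g Y hY) := by
  have e1 := nu_dbl g hY (M.mT f g)
  have e2 := M.tT f _ g hf (dbl_pos hg hY) hg
  have e3 := nn (nu g) Y
  have e4 := le1 (nu g) Y
  unfold Pair.lev at *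
  refine le_trans ?_ e2
  refine le_of_mul_le_mul_left ?_ (by linarith : 0 < 1 + (nu g).real Y)
  rw [e1]
  nlinarith

theorem Pair.either {f g : Density} (hf : f.Positive) (hg : g.Positive) {Y : Set ℝ} (hY : PC Y)
    {ε : ℝ} (hε : 0 ≤ ε) : M.lev f g - 2 * ε ≤ M.lev f (dbl g Y hY) ∨
      M.lev f g + ε ≤ M.lev f (dbl g Yᶜ hY.compl) := by
  rcases le_total (-(2 * ε)) ((nu g).real (M.T f g ∩ Y) - M.lev f g * (nu g).real Y) with h | h
  · exact Or.inl (M.lev_dbl hf hg hY (c := -(2 * ε)) h (by linarith))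
  · have e1 := split (nu g) (M.T f g) hY.measurableSet
    have e2 := compl_eq (nu g) hY.measurableSet
    have e3 : 2 * ε ≤ (nu g).real (M.T f g ∩ Yᶜ) - M.lev f g * (nu g).real Yᶜ := by
      rw [e2]
      unfold Pair.lev at *
      linarith
    exact Or.inr (M.lev_dbl hf hg hY.compl (by linarith) e3)

theorem Pair.bite (ha : 0 < a) {f g : Density} (hf : f.Positive) (hg : g.Positive) {ξ : ℝ}
    (hξ : 0 < ξ) (h : ξ ≤ (nu g).real (M.S f g)) :
    ∃ g', Reach g 1 g' ∧ M.lev f g + a * ξ / 4 ≤ M.lev f g' := by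
  have hδ : 0 < a * ξ / 4 := by positivity
  obtain ⟨X, hX, e1, e2⟩ := exists_PC_close g (M.mS f g) hδ
  have e3 := split (nu g) (M.T f g) hX.measurableSet
  have e4 := compl_eq (nu g) hX.measurableSet
  have e5 : (nu g).real (M.T f g ∩ X) ≤ (nu g).real (X \ M.S f g) :=
    mono _ fun x hx => ⟨hx.2, fun hs => disjoint_left.1 (M.disj f g) hs hx.1⟩
  have e6 : (nu g).real (M.S f g) ≤ (nu g).real X + (nu g).real (M.S f g \ X) :=
    le2 _ fun x hx => by by_cases hx' : x ∈ X <;> simp [hx, hx']
  have e7 := M.fT f g hf hg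
  have e8 := le1 (nu g) (M.T f g)
  have e9 : 2 * (a * ξ / 4) ≤ (nu g).real (M.T f g ∩ Xᶜ) - M.lev f g * (nu g).real Xᶜ := by
    rw [e4]
    unfold Pair.lev
    have : ξ - a * ξ / 4 ≤ (nu g).real X := by linarith
    have h1 : (nu g).real (M.T f g) * (ξ - a * ξ / 4) ≤ (nu g).real (M.T f g) * (nu g).real X :=
      mul_le_mul_of_nonneg_left this (nn _ _)
    nlinarith
  exact ⟨_, Reach.refl.step hX.compl, M.lev_dbl hf hg hX.compl (by linarith) e9⟩

theorem Pair.run {f g g' : Density} (hf : f.Positive) (hg : g.Positive) {k : ℕ}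
    (h : Reach g k g') {e : ℝ} (he : 0 ≤ e) : M.lev f g - (3 ^ k - 1) * e ≤ M.lev f g' ∨
      ∃ g'', Reach g k g'' ∧ M.lev f g + e ≤ M.lev f g'' := by
  induction h with
  | refl => simp
  | @skip k g' _ ih =>
    rcases ih with ih | ⟨g'', h1, h2⟩
    · have : (0 : ℝ) ≤ 3 ^ k * e := by positivity
      left
      rw [pow_succ]
      nlinarith
    · exact Or.inr ⟨g'', h1.skip, h2⟩
  | @step k g' Y hY h ih =>
    rcases ih with ih | ⟨g'', h1, h2⟩
    · rcases M.either hf (h.pos hg) hY (ε := 3 ^ k * e) (by positivity) with h3 | h3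
      · left
        rw [pow_succ]
        nlinarith
      · exact Or.inr ⟨_, h.step hY.compl, by nlinarith⟩
    · exact Or.inr ⟨g'', h1.skip, h2⟩

/-- `r` different masses of picked pieces, all at least `ξ` -/
def Pair.Many (r : ℕ) (ξ : ℝ) (g : Density) : Prop :=
  ∃ s : Finset ℝ, s.card = r ∧
    ∀ v ∈ s, ξ ≤ v ∧ ∃ h : Density, h.Positive ∧ (nu g).real (M.S h g) = v

theorem Pair.many (ha : 0 < a) (r : ℕ) : ∃ (N : ℕ) (ξ : ℝ), 0 < ξ ∧
    ∀ g : Density, g.Positive → ∃ g', Reach g N g' ∧ M.Many r ξ g' := by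
  classical
  induction r with
  | zero => exact ⟨0, 1, one_pos, fun g _ => ⟨g, Reach.refl, ∅, rfl, by simp⟩⟩
  | succ r ih =>
    obtain ⟨N, ξ, hξ, hN⟩ := ih
    set e := a * ξ / 4 / 3 ^ N with he
    have he0 : 0 < e := by positivity
    have he1 : 3 ^ N * e = a * ξ / 4 := by rw [he]; field_simp
    obtain ⟨J, hJ⟩ := exists_nat_gt (1 / e)
    refine ⟨J * (N + 1), min ξ (a / 2 ^ (J * (N + 1))), by positivity, fun G hG => ?_⟩
    have key : ∀ j : ℕ, (∃ g', Reach G (j * (N + 1)) g' ∧ M.Many r ξ g' ∧
        (nu g').real (M.S G g') < ξ) ∨ ∃ g', Reach G (j * (N + 1)) g' ∧ j * e ≤ M.lev G g' := by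
      intro j
      induction j with
      | zero => exact Or.inr ⟨G, by simpa using Reach.refl, by
          rw [Nat.cast_zero, zero_mul]
          exact nn _ _⟩
      | succ j ihj =>
        rw [Nat.succ_mul, Nat.cast_succ, add_mul, one_mul]
        rcases ihj with ⟨g', h1, h2⟩ | ⟨g, h1, h2⟩
        · refine Or.inl ⟨g', h1.trans ?_, h2⟩
          generalize N + 1 = l
          induction l with
          | zero => exact Reach.refl
          | succ l ihl => exact ihl.skip
        · have hg := h1.pos hG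
          obtain ⟨g', h3, h4⟩ := hN g hg
          rcases M.run hG hg h3 he0.le with h5 | ⟨g'', h5, h6⟩
          · rcases lt_or_ge ((nu g').real (M.S G g')) ξ with h6 | h6
            · exact Or.inl ⟨g', h1.trans h3.skip, h4, h6⟩
            · obtain ⟨g'', h7, h8⟩ := M.bite ha hG (h3.pos hg) hξ h6
              exact Or.inr ⟨g'', h1.trans (h3.trans h7), by linarith⟩
          · exact Or.inr ⟨g'', h1.trans h5.skip, by linarith⟩
    rcases key J with ⟨g', h1, ⟨s, s1, s2⟩, h3⟩ | ⟨g', -, h2⟩
    · refine ⟨g', h1, insert ((nu g').real (M.S G g')) s, ?_, fun v hv => ?_⟩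
      · rw [Finset.card_insert_of_notMem fun hm => absurd (s2 _ hm).1 (not_le.2 h3), s1]
      · rcases Finset.mem_insert.1 hv with rfl | hv
        · refine ⟨(min_le_right _ _).trans ?_, G, hG, rfl⟩
          rw [div_le_iff₀ (by positivity), mul_comm]
          exact (M.fS G g' hG (h1.pos hG)).trans (h1.dom (M.mS _ _))
        · exact ⟨(min_le_left _ _).trans (s2 v hv).1, (s2 v hv).2⟩
    · have := le1 (nu g') (M.T G g')
      rw [div_lt_iff₀ he0] at hJ
      unfold Pair.lev at h2
      linarith

theorem null_of_nu {h : Density} (hh : h.Positive) {Z : Set ℝ}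
    (h0 : (nu h).real Z = 0) : m Z = 0 := by
  have h1 : nu h Z = 0 := (measureReal_eq_zero_iff (measure_ne_top _ _)).1 h0
  refine withDensity_absolutelyContinuous' (μ := m)
    (f := fun x => ENNReal.ofReal (h.val x / tot h))
    (h.integrable.div_const _).aemeasurable.ennreal_ofReal ?_ h1
  filter_upwards [ae_mem_I] with x hx
  exact (ENNReal.ofReal_pos.2 (div_pos (hh x hx) (tot_pos h))).ne'

theorem nu_of_null (h : Density) {Z : Set ℝ} (h0 : m Z = 0) : (nu h).real Z = 0 :=
  (measureReal_eq_zero_iff (measure_ne_top _ _)).2 (withDensity_absolutelyContinuous _ _ h0)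

theorem width (n : ℕ) (hn : 2 ≤ n) (α : ℝ) (hα : 0 < α) (M : Mechanism n)
    (hT : ∀ f : Fin n → Density, (∀ j, (f j).Positive) → ∀ (i : Fin n) (g : Density),
      g.Positive → (f i).value (M.alloc (Function.update f i g) i) ≤ (f i).value (M.alloc f i))
    (hF : ∀ f : Fin n → Density, (∀ j, (f j).Positive) → ∀ i : Fin n,
      α / n * (f i).value (Icc 0 1) ≤ (f i).value (M.alloc f i))
    (i : Fin n) (r : ℕ) :
    ∃ f : Fin n → Density, (∀ j, (f j).Positive) ∧ ∃ h : Fin r → Density,
      (∀ k, (h k).Positive) ∧ ∀ k l, k ≠ l →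
        0 < volume (M.alloc (Function.update f i (h k)) i \
          M.alloc (Function.update f i (h l)) i) := by
  have : Nontrivial (Fin n) := Fin.nontrivial_iff_two_le.2 hn
  obtain ⟨i₁, hne⟩ := exists_ne i
  have hne := hne.symm
  have p1 : one.Positive := fun x hx => by rw [one_val hx]; exact one_pos
  let F : Density → Density → Fin n → Density := fun f g => patt i i₁ f g one
  have hp : ∀ f g : Density, f.Positive → g.Positive → ∀ j, (F f g j).Positive :=
    fun f g hf hg => patt_forall (P := Density.Positive) hf hg p1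
  have F0 : ∀ f g, F f g i = f := fun _ _ => patt_fst _ _ _
  have F1 : ∀ f g, F f g i₁ = g := fun _ _ => patt_snd hne _ _ _
  have v : ∀ (d : Density) f j, d.value (M.alloc f j) = tot d * (nu d).real (M.alloc f j) :=
    fun d f j => value_nu d (M.measurable _ _) (M.subset _ _)
  let P : Pair (α / n) :=
    { S := fun f g => M.alloc (F f g) i
      T := fun f g => M.alloc (F f g) i₁
      mS := fun _ _ => M.measurable _ _
      mT := fun _ _ => M.measurable _ _
      disj := fun _ _ => M.disjoint _ _ _ hne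
      tT := fun f g g' hf hg hg' => by
        have := hT _ (hp f g hf hg) i₁ g' hg'
        rw [update_snd hne, F1, v, v] at this
        exact le_of_mul_le_mul_left this (tot_pos g)
      fS := fun f g hf hg => by
        have := hF _ (hp f g hf hg) i
        rw [F0, v, mul_comm] at this
        exact le_of_mul_le_mul_left this (tot_pos f)
      fT := fun f g hf hg => by
        have := hF _ (hp f g hf hg) i₁
        rw [F1, v, mul_comm] at this
        exact le_of_mul_le_mul_left this (tot_pos g) }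
  obtain ⟨N, ξ, -, hN⟩ := P.many (div_pos hα (by exact_mod_cast by omega)) r
  obtain ⟨g, hr, s, s1, s2⟩ := hN one p1
  have hg := hr.pos p1
  have : Nonempty Density := ⟨one⟩
  choose! h h1 h2 using fun w hw => (s2 w hw).2
  let e : Fin r ≃ s := (s.equivFinOfCardEq s1).symm
  refine ⟨F one g, hp _ _ p1 hg, fun k => h (e k), fun k => h1 _ (e k).2, fun k l hkl => ?_⟩
  simp only [F, update_fst]
  set A := M.alloc (patt i i₁ (h (e k)) g one) i with hA
  set B := M.alloc (patt i i₁ (h (e l)) g one) i with hB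
  have mA : MeasurableSet A := M.measurable _ _
  have mB : MeasurableSet B := M.measurable _ _
  rw [pos_iff_ne_zero]
  intro h0
  have n1 : m (A \ B) = 0 := le_antisymm ((Measure.restrict_le_self _).trans h0.le) zero_le
  have t := hT _ (hp _ g (h1 _ (e k).2) hg) i _ (h1 _ (e l).2)
  rw [update_fst, F0, v, v] at t
  have t' : (nu (h (e k))).real B ≤ (nu (h (e k))).real A :=
    le_of_mul_le_mul_left t (tot_pos _)
  have sp : ∀ d : Density, (nu d).real A + (nu d).real (B \ A) =
      (nu d).real B + (nu d).real (A \ B) := fun d => by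
    have a1 := split (nu d) A mB
    have a2 := split (nu d) B mA
    rw [inter_comm B A] at a2
    rw [sdiff_eq, sdiff_eq]
    linarith
  have n2 : m (B \ A) = 0 := by
    refine null_of_nu (h1 _ (e k).2) (le_antisymm ?_ (nn _ _))
    have := sp (h (e k))
    rw [nu_of_null _ n1] at this
    linarith
  have q := sp g
  rw [nu_of_null _ n1, nu_of_null _ n2, add_zero, add_zero] at q
  have q1 : (nu g).real A = e k := h2 _ (e k).2
  have q2 : (nu g).real B = e l := h2 _ (e l).2
  exact hkl (e.injective (Subtype.ext (q1.symm.trans (q.trans q2))))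

end Pool.Agent.Lib.MP_e28e82_lc.Menu
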