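import Pool.Agent.Lib.MP_e28e82_lc.Defs

/-!
Sets with finitely many breakpoints, and basic facts on densities.
-/

namespace Pool.Agent.Lib.MP_e28e82_lc

open MeasureTheory Set

/-- Membership changes only at finitely many points. -/
def PC (A : Set ℝ) : Prop :=
  ∃ s : Finset ℝ, ∀ x y, (∀ z ∈ s, z ∉ uIcc x y) → (x ∈ A ↔ y ∈ A)

lemma PC.empty : PC ∅ := ⟨∅, fun _ _ _ => Iff.rfl⟩

lemma PC.univ : PC univ := ⟨∅, fun _ _ _ => Iff.rfl⟩

lemma PC.compl {A : Set ℝ} (h : PC A) : PC Aᶜ := by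
  obtain ⟨s, hs⟩ := h
  exact ⟨s, fun x y hxy => not_congr (hs x y hxy)⟩

lemma PC.inter {A B : Set ℝ} (hA : PC A) (hB : PC B) : PC (A ∩ B) := by
  classical
  obtain ⟨s, hs⟩ := hA
  obtain ⟨t, ht⟩ := hB
  refine ⟨s ∪ t, fun x y hxy => and_congr (hs x y ?_) (ht x y ?_)⟩
  · intro z hz; exact hxy z (Finset.mem_union_left _ hz)
  · intro z hz; exact hxy z (Finset.mem_union_right _ hz)

lemma PC.union {A B : Set ℝ} (hA : PC A) (hB : PC B) : PC (A ∪ B) := by
  have := (hA.compl.inter hB.compl).compl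
  rwa [compl_inter, compl_compl, compl_compl] at this

lemma PC.diff {A B : Set ℝ} (hA : PC A) (hB : PC B) : PC (A \ B) := hA.inter hB.compl

lemma PC.Iic (c : ℝ) : PC (Iic c) := by
  refine ⟨{c}, fun x y hxy => ?_⟩
  have h := hxy c (Finset.mem_singleton_self c)
  simp only [mem_Iic]
  rw [mem_uIcc] at h
  push Not at h
  constructor
  · intro hx
    by_contra hy
    push Not at hy
    exact absurd (h.1 hx) (not_lt.mpr hy.le)
  · intro hy
    by_contra hx
    push Not at hx
    exact absurd (h.2 hy) (not_lt.mpr hx.le)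

lemma PC.Ici (c : ℝ) : PC (Ici c) := by
  refine ⟨{c}, fun x y hxy => ?_⟩
  have h := hxy c (Finset.mem_singleton_self c)
  simp only [mem_Ici]
  rw [mem_uIcc] at h
  push Not at h
  constructor
  · intro hx
    by_contra hy
    push Not at hy
    exact absurd (h.2 hy.le) (not_lt.mpr hx)
  · intro hy
    by_contra hx
    push Not at hx
    exact absurd (h.1 hx.le) (not_lt.mpr hy)

lemma PC.Iio (c : ℝ) : PC (Iio c) := by
  have := (PC.Ici c).compl
  rwa [compl_Ici] at this

lemma PC.Icc (a b : ℝ) : PC (Icc a b) := by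
  have := (PC.Ici a).inter (PC.Iic b)
  rwa [Ici_inter_Iic] at this

lemma PC.Ico (a b : ℝ) : PC (Ico a b) := by
  have := (PC.Ici a).inter (PC.Iio b)
  rwa [Ici_inter_Iio] at this

lemma PC.biUnion {ι : Type*} (s : Finset ι) (A : ι → Set ℝ) (h : ∀ i ∈ s, PC (A i)) :
    PC (⋃ i ∈ s, A i) := by
  classical
  induction s using Finset.induction_on with
  | empty => simpa using PC.empty
  | insert a s ha ih =>
    rw [Finset.set_biUnion_insert]
    exact (h a (Finset.mem_insert_self _ _)).union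
      (ih fun i hi => h i (Finset.mem_insert_of_mem hi))

lemma key_lemma (s : Finset ℝ) {x y : ℝ} (hx : x ∉ s) (hy : y ∉ s)
    (h : s.filter (· < x) = s.filter (· < y)) : ∀ z ∈ s, z ∉ uIcc x y := by
  intro z hz hmem
  have hzx : z ≠ x := fun e => hx (e ▸ hz)
  have hzy : z ≠ y := fun e => hy (e ▸ hz)
  have hiff : z < x ↔ z < y := by
    have := Finset.ext_iff.mp h z
    simpa [Finset.mem_filter, hz] using this
  rcases mem_uIcc.mp hmem with ⟨h1, h2⟩ | ⟨h1, h2⟩
  · have : z < y := lt_of_le_of_ne h2 hzy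
    exact absurd (hiff.mpr this) (not_lt.mpr h1)
  · have : z < x := lt_of_le_of_ne h2 hzx
    exact absurd (hiff.mp this) (not_lt.mpr h1)

lemma PC.finiteUnion {A : Set ℝ} (h : PC A) : IsFiniteUnionOfIntervals A := by
  classical
  obtain ⟨s, hs⟩ := h
  let C : Finset ℝ → Set ℝ := fun T => A ∩ {x | x ∉ s ∧ s.filter (· < x) = T}
  refine ⟨(s.image fun z => A ∩ {z}) ∪ s.powerset.image C, ?_, ?_⟩
  · intro J hJ
    rcases Finset.mem_union.mp hJ with hJ | hJ
    · obtain ⟨z, -, rfl⟩ := Finset.mem_image.mp hJ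
      refine ⟨fun x hx y hy w hw => ?_⟩
      have h1 : x = z := hx.2
      have h2 : y = z := hy.2
      have h3 : w = x := le_antisymm (hw.2.trans (h2.trans h1.symm).le) hw.1
      rw [h3]
      exact hx
    · obtain ⟨T, -, rfl⟩ := Finset.mem_image.mp hJ
      refine ⟨fun x hx y hy w hw => ?_⟩
      obtain ⟨hxA, hxs, hxT⟩ := hx
      obtain ⟨hyA, hys, hyT⟩ := hy
      have hno := key_lemma s hxs hys (hxT.trans hyT.symm)
      have hwu : w ∈ uIcc x y := Icc_subset_uIcc hw
      have hws : w ∉ s := fun hw' => hno w hw' hwu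
      have hsub : uIcc x w ⊆ uIcc x y := uIcc_subset_uIcc left_mem_uIcc hwu
      refine ⟨(hs x w fun z hz hz' => hno z hz (hsub hz')).mp hxA, hws, ?_⟩
      rw [← hxT]
      ext z
      simp only [Finset.mem_filter, and_congr_right_iff]
      intro hz
      constructor
      · intro hzw
        by_contra hzx
        push Not at hzx
        exact hno z hz (Icc_subset_uIcc ⟨hzx, hzw.le.trans hw.2⟩)
      · intro hzx
        exact hzx.trans_le hw.1
  · ext x
    simp only [mem_iUnion, Finset.mem_union, Finset.mem_image, exists_prop]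
    constructor
    · intro hx
      by_cases hxs : x ∈ s
      · exact ⟨A ∩ {x}, Or.inl ⟨x, hxs, rfl⟩, hx, rfl⟩
      · exact ⟨C (s.filter (· < x)), Or.inr ⟨_, Finset.mem_powerset.mpr (Finset.filter_subset _ _),
          rfl⟩, hx, hxs, rfl⟩
    · rintro ⟨J, (⟨z, -, rfl⟩ | ⟨T, -, rfl⟩), hx⟩
      · exact hx.1
      · exact hx.1

lemma PC.measurableSet {A : Set ℝ} (h : PC A) : MeasurableSet A := by
  obtain ⟨s, hs, rfl⟩ := h.finiteUnion
  exact Finset.measurableSet_biUnion s fun J hJ => (hs J hJ).measurableSet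

/-- Sets cut out of the cake by a condition on the values of finitely many densities. -/
lemma PC.profile {n : ℕ} (f : Fin n → Density) (Φ : (Fin n → ℝ) → Prop) :
    PC {x ∈ Set.Icc (0 : ℝ) 1 | Φ fun j => (f j).val x} := by
  classical
  choose s hs using fun j => (f j).pieces
  obtain ⟨t, ht⟩ := PC.Icc (0 : ℝ) 1
  refine ⟨t ∪ Finset.univ.biUnion s, fun x y hxy => ?_⟩
  have hI : x ∈ Set.Icc (0 : ℝ) 1 ↔ y ∈ Set.Icc (0 : ℝ) 1 :=
    ht x y fun z hz => hxy z (Finset.mem_union_left _ hz)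
  have hval : x ∈ Set.Icc (0 : ℝ) 1 → (fun j => (f j).val x) = fun j => (f j).val y := by
    intro hx
    funext j
    exact hs j x hx y (hI.mp hx) fun z hz => hxy z (Finset.mem_union_right _
      (Finset.mem_biUnion.mpr ⟨j, Finset.mem_univ _, hz⟩))
  simp only [mem_ofPred_eq]
  constructor
  · rintro ⟨hx, hΦ⟩
    exact ⟨hI.mp hx, hval hx ▸ hΦ⟩
  · rintro ⟨hy, hΦ⟩
    exact ⟨hI.mpr hy, (hval (hI.mpr hy)).symm ▸ hΦ⟩

lemma PC.level (f : Density) (p : ℝ → Prop) : PC {x ∈ Set.Icc (0 : ℝ) 1 | p (f.val x)} :=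
  PC.profile (n := 1) (fun _ => f) (fun r => p (r 0))

lemma Density.finite_range (f : Density) : (f.val '' Icc (0 : ℝ) 1).Finite := by
  classical
  obtain ⟨s, hs⟩ := f.pieces
  have h1 : (f.val '' (s : Set ℝ)).Finite := s.finite_toSet.image _
  have h2 : (⋃ T ∈ s.powerset,
      f.val '' {x ∈ Icc (0 : ℝ) 1 | x ∉ s ∧ s.filter (· < x) = T}).Finite := by
    refine Set.Finite.biUnion s.powerset.finite_toSet fun T _ => ?_
    refine Set.Subsingleton.finite ?_
    rintro _ ⟨x, ⟨hx, hxs, hxT⟩, rfl⟩ _ ⟨y, ⟨hy, hys, hyT⟩, rfl⟩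
    exact hs x hx y hy (key_lemma s hxs hys (hxT.trans hyT.symm))
  refine (h1.union h2).subset ?_
  rintro _ ⟨x, hx, rfl⟩
  by_cases hxs : x ∈ s
  · exact Or.inl ⟨x, hxs, rfl⟩
  · refine Or.inr (mem_iUnion₂.mpr ⟨s.filter (· < x), ?_, x, ⟨hx, hxs, rfl⟩, rfl⟩)
    exact Finset.mem_powerset.mpr (Finset.filter_subset _ _)

/-- Lebesgue measure on the cake. -/
noncomputable abbrev m : Measure ℝ := volume.restrict (Icc (0 : ℝ) 1)

instance : IsProbabilityMeasure m := ⟨by simp [m]⟩

lemma ae_mem_I : ∀ᵐ x ∂m, x ∈ Icc (0 : ℝ) 1 := ae_restrict_mem measurableSet_Icc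

lemma m_real_I : m.real (Icc (0 : ℝ) 1) = 1 := by
  simp [Measure.real, m]

lemma m_eq_volume {A : Set ℝ} (hA : MeasurableSet A) (hs : A ⊆ Icc (0 : ℝ) 1) :
    m A = volume A := by
  rw [Measure.restrict_apply hA, inter_eq_left.mpr hs]

lemma Density.value_eq (f : Density) {A : Set ℝ} (hA : MeasurableSet A)
    (hs : A ⊆ Icc (0 : ℝ) 1) : f.value A = ∫ x in A, f.val x ∂m := by
  rw [Density.value, Measure.restrict_restrict hA, inter_eq_left.mpr hs]

/-- Functions of finitely many densities are finite sums of indicators on the cake. -/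
lemma profile_eq_sum {n : ℕ} (f : Fin n → Density) (Ψ : (Fin n → ℝ) → ℝ)
    (W : Finset (Fin n → ℝ)) (hW : ∀ x ∈ Icc (0 : ℝ) 1, (fun j => (f j).val x) ∈ W) :
    (fun x => Ψ fun j => (f j).val x) =ᵐ[m] fun x => ∑ r ∈ W,
      indicator {x ∈ Icc (0 : ℝ) 1 | (fun j => (f j).val x) = r} (fun _ => Ψ r) x := by
  filter_upwards [ae_mem_I] with x hx
  rw [Finset.sum_eq_single_of_mem _ (hW x hx)]
  · rw [indicator_of_mem]
    exact ⟨hx, rfl⟩
  · intro r _ hr
    rw [indicator_of_notMem]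
    rintro ⟨-, h⟩
    exact hr h.symm

lemma exists_range_finset {n : ℕ} (f : Fin n → Density) :
    ∃ W : Finset (Fin n → ℝ), ∀ x ∈ Icc (0 : ℝ) 1, (fun j => (f j).val x) ∈ W := by
  classical
  refine ⟨Fintype.piFinset fun j => (f j).finite_range.toFinset, fun x hx => ?_⟩
  rw [Fintype.mem_piFinset]
  intro j
  simp only [Finite.mem_toFinset]
  exact ⟨x, hx, rfl⟩

lemma integrable_profile {n : ℕ} (f : Fin n → Density) (Ψ : (Fin n → ℝ) → ℝ) :
    Integrable (fun x => Ψ fun j => (f j).val x) m := by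
  obtain ⟨W, hW⟩ := exists_range_finset f
  refine Integrable.congr ?_ (profile_eq_sum f Ψ W hW).symm
  refine integrable_finsetSum _ fun r _ => ?_
  exact (integrable_const _).indicator (PC.profile f (fun q => q = r)).measurableSet

lemma Density.integrable_comp (f : Density) (φ : ℝ → ℝ) : Integrable (fun x => φ (f.val x)) m :=
  integrable_profile (n := 1) (fun _ => f) (fun r => φ (r 0))

lemma Density.integrable (f : Density) : Integrable f.val m := f.integrable_comp id

lemma integral_profile {n : ℕ} (f : Fin n → Density) (Ψ : (Fin n → ℝ) → ℝ)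
    (W : Finset (Fin n → ℝ)) (hW : ∀ x ∈ Icc (0 : ℝ) 1, (fun j => (f j).val x) ∈ W) :
    ∫ x, (Ψ fun j => (f j).val x) ∂m = ∑ r ∈ W,
      (volume {x ∈ Icc (0 : ℝ) 1 | ∀ j, (f j).val x = r j}).toReal * Ψ r := by
  rw [integral_congr_ae (profile_eq_sum f Ψ W hW), integral_finsetSum]
  · refine Finset.sum_congr rfl fun r _ => ?_
    have hm := (PC.profile f (fun q => q = r)).measurableSet
    rw [integral_indicator_const _ hm, smul_eq_mul, Measure.real,
      m_eq_volume hm (fun x hx => hx.1)]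
    have : {x ∈ Icc (0 : ℝ) 1 | (fun j => (f j).val x) = r} =
        {x ∈ Icc (0 : ℝ) 1 | ∀ j, (f j).val x = r j} := by
      ext x
      simp only [mem_ofPred_eq, funext_iff]
    rw [this]
  · intro r _
    exact (integrable_const _).indicator (PC.profile f (fun q => q = r)).measurableSet

lemma SameLaw.integral_eq {n : ℕ} {f g : Fin n → Density} (h : SameLaw f g)
    (Ψ : (Fin n → ℝ) → ℝ) :
    ∫ x, (Ψ fun j => (f j).val x) ∂m = ∫ x, (Ψ fun j => (g j).val x) ∂m := by
  classical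
  obtain ⟨W, hW⟩ := exists_range_finset f
  obtain ⟨W', hW'⟩ := exists_range_finset g
  rw [integral_profile f Ψ (W ∪ W') fun x hx => Finset.mem_union_left _ (hW x hx),
    integral_profile g Ψ (W ∪ W') fun x hx => Finset.mem_union_right _ (hW' x hx)]
  exact Finset.sum_congr rfl fun r _ => by rw [h r]

/-- Cutting a set at a point so as to get a prescribed length. -/
lemma exists_cut {Z : Set ℝ} (hZ : MeasurableSet Z) {a : ℝ} (h0 : 0 ≤ a) (h1 : a ≤ m.real Z) :
    ∃ c, m.real (Z ∩ Iic c) = a := by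
  have hlip : ∀ c d : ℝ, c ≤ d → m.real (Z ∩ Iic d) ≤ m.real (Z ∩ Iic c) + (d - c) := by
    intro c d hcd
    have hsub : Z ∩ Iic d ⊆ (Z ∩ Iic c) ∪ Ioc c d := by
      rintro x ⟨hx, hxd⟩
      by_cases hxc : x ≤ c
      · exact Or.inl ⟨hx, hxc⟩
      · exact Or.inr ⟨not_le.mp hxc, hxd⟩
    have h2 : m.real (Ioc c d) ≤ d - c := by
      have : m (Ioc c d) ≤ volume (Ioc c d) := Measure.restrict_apply_le _ _
      rw [Real.volume_Ioc] at this
      have := ENNReal.toReal_mono ENNReal.ofReal_ne_top this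
      rwa [ENNReal.toReal_ofReal (by linarith)] at this
    calc m.real (Z ∩ Iic d) ≤ m.real ((Z ∩ Iic c) ∪ Ioc c d) := measureReal_mono hsub
      _ ≤ m.real (Z ∩ Iic c) + m.real (Ioc c d) := measureReal_union_le _ _
      _ ≤ _ := by linarith
  have hmono : ∀ c d : ℝ, c ≤ d → m.real (Z ∩ Iic c) ≤ m.real (Z ∩ Iic d) := by
    intro c d hcd
    exact measureReal_mono (inter_subset_inter_right _ (Iic_subset_Iic.mpr hcd))
  have hcont : Continuous fun c : ℝ => m.real (Z ∩ Iic c) := by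
    refine (LipschitzWith.of_le_add fun c d => ?_).continuous
    rcases le_total c d with h | h
    · have := hmono c d h
      have := dist_nonneg (x := c) (y := d)
      linarith
    · have := hlip d c h
      rw [Real.dist_eq, abs_of_nonneg (by linarith)]
      linarith
  have hlo : m.real (Z ∩ Iic (-1)) = 0 := by
    have : m (Z ∩ Iic (-1)) = 0 := by
      rw [Measure.restrict_apply (hZ.inter measurableSet_Iic)]
      have : Z ∩ Iic (-1) ∩ Icc (0 : ℝ) 1 = ∅ := by
        ext x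
        simp only [mem_inter_iff, mem_Iic, mem_Icc, mem_empty_iff_false, iff_false]
        rintro ⟨⟨-, h1⟩, h2, -⟩
        linarith
      rw [this, measure_empty]
    simp [Measure.real, this]
  have hhi : m.real (Z ∩ Iic 1) = m.real Z := by
    have : m (Z ∩ Iic 1) = m Z := by
      rw [Measure.restrict_apply (hZ.inter measurableSet_Iic), Measure.restrict_apply hZ]
      congr 1
      ext x
      simp only [mem_inter_iff, mem_Iic, mem_Icc]
      tauto
    simp only [Measure.real, this]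
  have := intermediate_value_Icc (show (-1 : ℝ) ≤ 1 by norm_num) hcont.continuousOn
    (show a ∈ Icc (m.real (Z ∩ Iic (-1))) (m.real (Z ∩ Iic 1)) by
      rw [hlo, hhi]; exact ⟨h0, h1⟩)
  obtain ⟨c, -, hc⟩ := this
  exact ⟨c, hc⟩

end Pool.Agent.Lib.MP_e28e82_lc
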