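import Pool.Agent.Lib.MP_e28e82_lc.Serial

/-!
Quotas of the virtual serial processes and the two potential functions.
-/

namespace Pool.Agent.Lib.MP_e28e82_lc

open MeasureTheory Set

/-- The scales. -/
noncomputable def sc (k : ℕ) : ℝ := (1 / 7) ^ k

/-- The quota at scale `l` in a process aimed at scale `k`. -/
noncomputable def qc (k l : ℕ) : ℝ := if l ≤ k then 3 / 2 * sc l else 3 * sc l

/-- The quota at position `r` in the process without agent `i` aimed at scale `k`. -/
noncomputable def quota (n i k r : ℕ) : ℝ := if r % n = i then 0 else qc k (r / n)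

lemma sc_pos (k : ℕ) : 0 < sc k := by unfold sc; positivity

lemma sc_succ (k : ℕ) : sc (k + 1) = sc k / 7 := by unfold sc; ring

lemma qc_nonneg (k l : ℕ) : 0 ≤ qc k l := by
  have := sc_pos l
  unfold qc
  split_ifs <;> linarith

lemma qc_anti {k k' : ℕ} (h : k ≤ k') (l : ℕ) : qc k' l ≤ qc k l := by
  have := sc_pos l
  unfold qc
  split_ifs <;> first | linarith | omega

lemma qc_succ {k l : ℕ} (h : k ≤ l) : qc k (l + 1) = 3 / 7 * sc l := by
  unfold qc
  rw [if_neg (by omega), sc_succ]
  ring

lemma quota_nonneg (n i k r : ℕ) : 0 ≤ quota n i k r := by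
  unfold quota
  split_ifs
  · exact le_rfl
  · exact qc_nonneg _ _

lemma succ_cases {n : ℕ} (hn : 0 < n) (r : ℕ) :
    ((r + 1) / n = r / n ∧ (r + 1) % n = r % n + 1) ∨
      ((r + 1) / n = r / n + 1 ∧ (r + 1) % n = 0 ∧ r % n + 1 = n) := by
  have h1 := Nat.mod_add_div r n
  have h2 := Nat.mod_lt r hn
  by_cases h : r % n + 1 < n
  · exact Or.inl ((Nat.div_mod_unique hn).mpr ⟨by omega, h⟩)
  · have h3 : r % n + 1 = n := by omega
    have := (Nat.div_mod_unique (a := r + 1) (d := r / n + 1) (c := 0) hn).mpr
      ⟨by rw [Nat.mul_succ]; omega, hn⟩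
    exact Or.inr ⟨this.1, this.2, h3⟩

lemma pos_div_mod {n i : ℕ} (hi : i < n) (k : ℕ) : (k * n + i) / n = k ∧ (k * n + i) % n = i :=
  (Nat.div_mod_unique (by omega)).mpr ⟨by rw [Nat.mul_comm]; omega, hi⟩

/-- The quotas still to be spent at the positions of agent `i`. -/
noncomputable def pot (n i k r : ℕ) : ℝ :=
  (if r % n ≤ i then qc k (r / n) else 0) + sc (r / n) / 2

lemma pot_nonneg (n i k r : ℕ) : 0 ≤ pot n i k r := by
  have h1 := sc_pos (r / n)
  have h2 := qc_nonneg k (r / n)
  unfold pot
  split_ifs <;> linarith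

lemma pot_step {n i k r : ℕ} (hi : i < n) (hr : k * n ≤ r) :
    pot n i k (r + 1) + (if r % n = i then qc k (r / n) else 0) ≤ pot n i k r := by
  have hn : 0 < n := by omega
  have hk : k ≤ r / n := (Nat.le_div_iff_mul_le hn).mpr hr
  unfold pot
  rcases succ_cases hn r with ⟨h1, h2⟩ | ⟨h1, h2, h3⟩
  · rw [h1, h2]
    split_ifs <;> first | linarith | omega
  · rw [h1, h2, if_pos (Nat.zero_le _), qc_succ hk, sc_succ]
    split_ifs <;> first | linarith | omega

variable {κ : ℕ → ℝ → ℝ}

/-- The set closed to agent `i` at scale `k`. -/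
def closed (κ : ℕ → ℝ → ℝ) (n i k : ℕ) : Set ℝ := remAll κ (quota n i k) (k * n + i + 1)

lemma closed_le (hκ : ∀ r, GoodKey (κ r)) {n i : ℕ} (hi : i < n) (k : ℕ) :
    m.real (closed κ n i k) ≤ 2 * ((n : ℝ) - 1) * sc k := by
  classical
  have hn : 0 < n := by omega
  let S := (Finset.range n).erase i
  have h1 := remAll_le hκ (quota_nonneg n i k) (fun r => ∑ j ∈ S, pot n j k r)
    (fun r => Finset.sum_nonneg fun j _ => pot_nonneg n j k r) (k * n) (by
      intro r hr
      have h2 : quota n i k r = ∑ j ∈ S, (if r % n = j then qc k (r / n) else 0) := by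
        rw [Finset.sum_ite_eq]
        have := Nat.mod_lt r hn
        unfold quota
        by_cases h : r % n = i <;> simp [S, h, this]
      rw [h2, ← Finset.sum_add_distrib]
      exact Finset.sum_le_sum fun j hj =>
        pot_step (Finset.mem_range.mp (Finset.mem_of_mem_erase hj)) hr)
  have h3 : ∀ j, pot n j k (k * n) = 2 * sc k := by
    intro j
    have := pos_div_mod hn k
    rw [add_zero] at this
    unfold pot qc
    rw [this.1, this.2, if_pos (Nat.zero_le _), if_pos le_rfl]
    ring
  simp only [h3, Finset.sum_const, nsmul_eq_mul] at h1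
  have h4 : (S.card : ℝ) = (n : ℝ) - 1 := by
    rw [Finset.card_erase_of_mem (Finset.mem_range.mpr hi), Finset.card_range,
      Nat.cast_sub hn, Nat.cast_one]
  rw [h4] at h1
  have h5 : closed κ n i k ⊆ remAll κ (quota n i k) (k * n) := remAll_anti _ _ (by omega)
  exact (measureReal_mono h5).trans (by linarith)

/-- Every option at an earlier position is closed at a later position of another agent. -/
lemma option_subset (hκ : ∀ r, GoodKey (κ r)) {n i j k k' : ℕ} (hi : i < n) (hj : j < n)
    (hij : j ≠ i) (hp : k * n + i < k' * n + j) :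
    top (κ (k' * n + j)) (sc k') (closed κ n j k')ᶜ ⊆ closed κ n i k := by
  have hk : k ≤ k' := by
    by_contra h
    have : (k' + 1) * n ≤ k * n := Nat.mul_le_mul_right _ (by omega)
    rw [Nat.succ_mul] at this
    omega
  obtain ⟨e1, e2⟩ := pos_div_mod hj k'
  refine pick_subset hκ (quota_nonneg n j k') (pot n i k') (pot_nonneg n i k') (by omega) ?_ ?_
  · intro r hr
    refine le_trans ?_ (pot_step hi (show k' * n ≤ r by omega))
    have h1 := qc_nonneg k' (r / n)
    have h2 := qc_anti hk (r / n)
    refine add_le_add le_rfl (max_le ?_ ?_)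
    · unfold quota
      split_ifs <;> linarith
    · split_ifs <;> linarith
  · have h1 := pot_step (k := k') hi (show k' * n ≤ k' * n + j by omega)
    rw [e2, if_neg hij, add_zero] at h1
    refine le_trans (add_le_add le_rfl h1) ?_
    have h2 := sc_pos k'
    unfold pot quota qc
    rw [e1, e2, if_neg hij, if_pos le_rfl]
    by_cases h : k' ≤ k
    · obtain rfl : k' = k := le_antisymm h hk
      rw [if_pos le_rfl, if_neg (by omega)]
      linarith
    · rw [if_neg h]
      split_ifs <;> linarith

end Pool.Agent.Lib.MP_e28e82_lc
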