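import Pool.Agent.Lib.MP_e28e82_lc.Top

/-!
The serial removal process run over infinitely many positions in descending order.
-/

namespace Pool.Agent.Lib.MP_e28e82_lc

open MeasureTheory Set Filter Topology

/-- The set removed after the positions `p + N - 1, …, p` have acted, in this order. -/
def rem (κ : ℕ → ℝ → ℝ) (q : ℕ → ℝ) : ℕ → ℕ → Set ℝ
  | _, 0 => ∅
  | p, N + 1 => rem κ q (p + 1) N ∪ top (κ p) (q p) (rem κ q (p + 1) N)ᶜ

/-- The set removed after all positions from `p` on have acted. -/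
def remAll (κ : ℕ → ℝ → ℝ) (q : ℕ → ℝ) (p : ℕ) : Set ℝ := ⋃ N, rem κ q p N

variable {κ : ℕ → ℝ → ℝ} {q q' : ℕ → ℝ}

lemma rem_measurable (hκ : ∀ r, GoodKey (κ r)) (q : ℕ → ℝ) (N : ℕ) :
    ∀ p, MeasurableSet (rem κ q p N) := by
  induction N with
  | zero => exact fun _ => MeasurableSet.empty
  | succ N ih => exact fun p => (ih _).union (top_measurable (hκ p).1 _ (ih _).compl)

lemma remAll_measurable (hκ : ∀ r, GoodKey (κ r)) (q : ℕ → ℝ) (p : ℕ) :
    MeasurableSet (remAll κ q p) := MeasurableSet.iUnion fun N => rem_measurable hκ q N p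

lemma rem_succ (κ : ℕ → ℝ → ℝ) (q : ℕ → ℝ) (N : ℕ) : ∀ p, rem κ q p N ⊆ rem κ q p (N + 1) := by
  induction N with
  | zero => exact fun _ => empty_subset _
  | succ N ih =>
    intro p
    refine union_subset ((ih _).trans subset_union_left) ?_
    have h : m.real (rem κ q (p + 1) N \ rem κ q (p + 1) (N + 1)) ≤ 0 := by
      rw [diff_eq_empty.mpr (ih _)]
      simp
    have := top_displace (κ p) (q := q p) h
    rwa [add_zero] at this

lemma rem_mono (κ : ℕ → ℝ → ℝ) (q : ℕ → ℝ) (p : ℕ) : Monotone (rem κ q p) :=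
  monotone_nat_of_le_succ fun N => rem_succ κ q N p

lemma remAll_succ (κ : ℕ → ℝ → ℝ) (q : ℕ → ℝ) (p : ℕ) : remAll κ q (p + 1) ⊆ remAll κ q p :=
  iUnion_subset fun N => subset_iUnion_of_subset (N + 1) subset_union_left

lemma remAll_anti (κ : ℕ → ℝ → ℝ) (q : ℕ → ℝ) : Antitone (remAll κ q) :=
  antitone_nat_of_succ_le (remAll_succ κ q)

lemma top_remAll (hκ : ∀ r, GoodKey (κ r)) (q : ℕ → ℝ) (p : ℕ) :
    top (κ p) (q p) (remAll κ q (p + 1))ᶜ ⊆ remAll κ q p := by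
  intro x hx
  let A : ℕ → Set ℝ := fun N => (rem κ q (p + 1) N)ᶜ ∩ κ p ⁻¹' Ioi (κ p x)
  have hA : Antitone A := fun N M h =>
    inter_subset_inter_left _ (compl_subset_compl.mpr (rem_mono κ q _ h))
  have hI : ⋂ N, A N = (remAll κ q (p + 1))ᶜ ∩ κ p ⁻¹' Ioi (κ p x) := by
    rw [remAll, compl_iUnion, iInter_inter]
  have h1 := tendsto_measure_iInter_atTop (μ := m)
    (fun N => ((rem_measurable hκ q N (p + 1)).compl.inter
      ((hκ p).1 measurableSet_Ioi)).nullMeasurableSet) hA ⟨0, measure_ne_top _ _⟩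
  have h2 := (ENNReal.tendsto_toReal (measure_ne_top m _)).comp h1
  rw [hI] at h2
  obtain ⟨N, hN⟩ := (h2.eventually (gt_mem_nhds hx.2)).exists
  refine mem_iUnion.mpr ⟨N + 1, Or.inr ⟨fun h => hx.1 (mem_iUnion.mpr ⟨N, h⟩), hN⟩⟩

lemma rem_diff (hκ : ∀ r, GoodKey (κ r)) (hq : ∀ r, 0 ≤ q r) (Φ : ℕ → ℝ) (hΦ : ∀ r, 0 ≤ Φ r)
    (N : ℕ) : ∀ p, (∀ r, p ≤ r → Φ (r + 1) + max (q r - q' r) 0 ≤ Φ r) →
      m.real (rem κ q p N \ rem κ q' p N) ≤ Φ p := by
  induction N with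
  | zero => intro p _; simpa [rem] using hΦ p
  | succ N ih =>
    intro p h
    have h1 := ih (p + 1) fun r hr => h r (by omega)
    have h2 := step_diff (hκ p) (b := q' p) (hq p) (rem_measurable hκ q N (p + 1))
      (rem_measurable hκ q' N (p + 1))
    have h3 := h p le_rfl
    exact h2.trans (by linarith)

lemma real_iUnion_le {A : ℕ → Set ℝ} (hA : Monotone A) {c : ℝ} (h : ∀ N, m.real (A N) ≤ c) :
    m.real (⋃ N, A N) ≤ c :=
  le_of_tendsto' ((ENNReal.tendsto_toReal (measure_ne_top m _)).comp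
    (tendsto_measure_iUnion_atTop (μ := m) hA)) h

lemma remAll_diff (hκ : ∀ r, GoodKey (κ r)) (hq : ∀ r, 0 ≤ q r) (Φ : ℕ → ℝ) (hΦ : ∀ r, 0 ≤ Φ r)
    (p : ℕ) (h : ∀ r, p ≤ r → Φ (r + 1) + max (q r - q' r) 0 ≤ Φ r) :
    m.real (remAll κ q p \ remAll κ q' p) ≤ Φ p := by
  have e : remAll κ q p \ remAll κ q' p = ⋃ N, (rem κ q p N \ remAll κ q' p) := by
    rw [← iUnion_diff]; rfl
  rw [e]
  refine real_iUnion_le (fun N M hNM => diff_subset_diff_left (rem_mono κ q p hNM)) fun N => ?_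
  refine le_trans (measureReal_mono ?_) (rem_diff hκ hq Φ hΦ N p h)
  exact diff_subset_diff_right (subset_iUnion (rem κ q' p) N)

lemma rem_zero (κ : ℕ → ℝ → ℝ) (N : ℕ) : ∀ p, rem κ (fun _ => 0) p N = ∅ := by
  induction N with
  | zero => exact fun _ => rfl
  | succ N ih => intro p; rw [rem, ih, top_nonpos _ le_rfl, union_empty]

lemma remAll_le (hκ : ∀ r, GoodKey (κ r)) (hq : ∀ r, 0 ≤ q r) (Φ : ℕ → ℝ) (hΦ : ∀ r, 0 ≤ Φ r)
    (p : ℕ) (h : ∀ r, p ≤ r → Φ (r + 1) + q r ≤ Φ r) : m.real (remAll κ q p) ≤ Φ p := by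
  have h1 := remAll_diff (q' := fun _ => 0) hκ hq Φ hΦ p fun r hr => by
    rw [sub_zero, max_eq_left (hq r)]; exact h r hr
  have h2 : remAll κ (fun _ => 0) p = ∅ := by simp [remAll, rem_zero]
  rwa [h2, diff_empty] at h1

lemma rem_congr {κ' : ℕ → ℝ → ℝ} (h : ∀ r, q r ≤ 0 ∨ κ r = κ' r) (N : ℕ) :
    ∀ p, rem κ q p N = rem κ' q p N := by
  induction N with
  | zero => exact fun _ => rfl
  | succ N ih =>
    intro p
    rw [rem, rem, ih]
    rcases h p with h1 | h1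
    · rw [top_nonpos _ h1, top_nonpos _ h1]
    · rw [h1]

lemma remAll_congr {κ' : ℕ → ℝ → ℝ} (h : ∀ r, q r ≤ 0 ∨ κ r = κ' r) (p : ℕ) :
    remAll κ q p = remAll κ' q p := iUnion_congr fun N => rem_congr h N p

/-- A pick made against one virtual process is removed in another virtual process whose quota
at that position absorbs the displacement. -/
lemma pick_subset (hκ : ∀ r, GoodKey (κ r)) (hq : ∀ r, 0 ≤ q r) (Φ : ℕ → ℝ) (hΦ : ∀ r, 0 ≤ Φ r)
    {p p' : ℕ} (hp : p ≤ p') (h : ∀ r, p' + 1 ≤ r → Φ (r + 1) + max (q r - q' r) 0 ≤ Φ r) {t : ℝ}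
    (ht : t + Φ (p' + 1) ≤ q' p') :
    top (κ p') t (remAll κ q (p' + 1))ᶜ ⊆ remAll κ q' p := by
  refine (top_displace (κ p') (remAll_diff hκ hq Φ hΦ (p' + 1) h)).trans ?_
  refine subset_trans (union_subset (remAll_succ κ q' p') ?_) (remAll_anti κ q' hp)
  exact (top_mono _ ht _).trans (top_remAll hκ q' p')

end Pool.Agent.Lib.MP_e28e82_lc
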