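import Pool.Agent.Lib.MP_e28e82_lc.Guarantee

/-!
Top sets of prescribed length with respect to a key function with null level sets.
-/

namespace Pool.Agent.Lib.MP_e28e82_lc

open MeasureTheory Set

/-- The points of `E` above which, in the order given by `κ`, lies less than length `a` of `E`. -/
def top (κ : ℝ → ℝ) (a : ℝ) (E : Set ℝ) : Set ℝ :=
  {x | x ∈ E ∧ m.real (E ∩ κ ⁻¹' Ioi (κ x)) < a}

/-- A measurable key with null level sets. -/
def GoodKey (κ : ℝ → ℝ) : Prop := Measurable κ ∧ ∀ c, m (κ ⁻¹' {c}) = 0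

lemma tail_anti (κ : ℝ → ℝ) (E : Set ℝ) {c d : ℝ} (h : c ≤ d) :
    m.real (E ∩ κ ⁻¹' Ioi d) ≤ m.real (E ∩ κ ⁻¹' Ioi c) :=
  measureReal_mono (inter_subset_inter_right _ (preimage_mono (Ioi_subset_Ioi h)))

lemma top_subset (κ : ℝ → ℝ) (a : ℝ) (E : Set ℝ) : top κ a E ⊆ E := fun _ h => h.1

lemma top_mono (κ : ℝ → ℝ) {a b : ℝ} (h : a ≤ b) (E : Set ℝ) : top κ a E ⊆ top κ b E :=
  fun _ hx => ⟨hx.1, hx.2.trans_le h⟩

lemma top_nonpos (κ : ℝ → ℝ) {a : ℝ} (h : a ≤ 0) (E : Set ℝ) : top κ a E = ∅ := by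
  ext x
  simp only [top, mem_setOf_eq, mem_empty_iff_false, iff_false, not_and, not_lt]
  exact fun _ => h.trans measureReal_nonneg

lemma top_upper {κ : ℝ → ℝ} {a : ℝ} {E : Set ℝ} {x y : ℝ} (hx : x ∈ top κ a E) (hy : y ∈ E)
    (h : κ x ≤ κ y) : y ∈ top κ a E :=
  ⟨hy, (tail_anti κ E h).trans_lt hx.2⟩

lemma top_measurable {κ : ℝ → ℝ} (hκ : Measurable κ) (a : ℝ) {E : Set ℝ} (hE : MeasurableSet E) :
    MeasurableSet (top κ a E) := by
  have h1 : Antitone fun c : ℝ => m.real (E ∩ κ ⁻¹' Ioi c) := fun c d h => tail_anti κ E h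
  have h2 : Measurable fun x => m.real (E ∩ κ ⁻¹' Ioi (κ x)) := h1.measurable.comp hκ
  exact hE.inter (measurableSet_lt h2 measurable_const)

lemma top_le {κ : ℝ → ℝ} (hκ : GoodKey κ) {a : ℝ} (ha : 0 ≤ a) (E : Set ℝ) :
    m.real (top κ a E) ≤ a := by
  let U : Set ℝ := {c | m.real (E ∩ κ ⁻¹' Ioi c) < a}
  let A : {q : ℚ // (q : ℝ) ∈ U} → Set ℝ := fun q => E ∩ κ ⁻¹' Ioi (q.1 : ℝ)
  have hsub : top κ a E ⊆ (⋃ q, A q) ∪ κ ⁻¹' {sInf U} := by
    intro x hx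
    by_cases h : ∃ u ∈ U, u < κ x
    · obtain ⟨u, hu, hux⟩ := h
      obtain ⟨q, h1, h2⟩ := exists_rat_btwn hux
      exact Or.inl (mem_iUnion.mpr ⟨⟨q, (tail_anti κ E h1.le).trans_lt hu⟩, hx.1, h2⟩)
    · push Not at h
      exact Or.inr (IsLeast.csInf_eq (⟨hx.2, fun u hu => h u hu⟩ : IsLeast U (κ x))).symm
  have hdir : Directed (· ⊆ ·) A := by
    intro p q
    rcases le_total (p.1 : ℝ) (q.1 : ℝ) with h | h
    · exact ⟨p, subset_rfl, inter_subset_inter_right _ (preimage_mono (Ioi_subset_Ioi h))⟩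
    · exact ⟨q, inter_subset_inter_right _ (preimage_mono (Ioi_subset_Ioi h)), subset_rfl⟩
  have h1 : m (⋃ q, A q) ≤ ENNReal.ofReal a := by
    rw [hdir.measure_iUnion]
    refine iSup_le fun q => ?_
    exact (ENNReal.le_ofReal_iff_toReal_le (measure_ne_top _ _) ha).mpr (le_of_lt q.2)
  have h2 : m (top κ a E) ≤ ENNReal.ofReal a := by
    refine (measure_mono hsub).trans ((measure_union_le _ _).trans ?_)
    rw [hκ.2, add_zero]
    exact h1
  exact ENNReal.toReal_le_of_le_ofReal ha h2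

lemma top_ge {κ : ℝ → ℝ} (hκ : GoodKey κ) {a : ℝ} {E : Set ℝ} (hE : MeasurableSet E) {x₀ : ℝ}
    (h0 : x₀ ∈ E) (h1 : x₀ ∉ top κ a E) : a ≤ m.real (top κ a E) := by
  let L : Set ℝ := {c | a ≤ m.real (E ∩ κ ⁻¹' Ioi c)}
  have hx0 : κ x₀ ∈ L := not_lt.mp fun h => h1 ⟨h0, h⟩
  let A : {q : ℚ // (q : ℝ) ∈ L} → Set ℝ := fun q => E ∩ κ ⁻¹' Ioi (q.1 : ℝ)
  obtain ⟨q₀, hq₀⟩ := exists_rat_lt (κ x₀)
  haveI : Nonempty {q : ℚ // (q : ℝ) ∈ L} := ⟨⟨q₀, hx0.trans (tail_anti κ E hq₀.le)⟩⟩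
  have hsub : (⋂ q, A q) ⊆ top κ a E ∪ κ ⁻¹' {sSup L} := by
    intro x hx
    rw [mem_iInter] at hx
    have hxE : x ∈ E := (hx ⟨q₀, hx0.trans (tail_anti κ E hq₀.le)⟩).1
    by_cases h : κ x ∈ L
    · refine Or.inr (IsGreatest.csSup_eq (⟨h, fun l hl => ?_⟩ : IsGreatest L (κ x))).symm
      by_contra hlt
      obtain ⟨q, h2, h3⟩ := exists_rat_btwn (not_le.mp hlt)
      have := (hx ⟨q, le_trans hl (tail_anti κ E h3.le)⟩).2
      exact lt_asymm h2 this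
    · exact Or.inl ⟨hxE, not_le.mp h⟩
  have hdir : Directed (· ⊇ ·) A := by
    intro p q
    rcases le_total (p.1 : ℝ) (q.1 : ℝ) with h | h
    · exact ⟨q, inter_subset_inter_right _ (preimage_mono (Ioi_subset_Ioi h)), subset_rfl⟩
    · exact ⟨p, subset_rfl, inter_subset_inter_right _ (preimage_mono (Ioi_subset_Ioi h))⟩
  have h2 : ENNReal.ofReal a ≤ m (⋂ q, A q) := by
    rw [hdir.measure_iInter
      (fun q => (hE.inter (hκ.1 measurableSet_Ioi)).nullMeasurableSet)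
      ⟨Classical.arbitrary _, measure_ne_top _ _⟩]
    exact le_iInf fun q => ENNReal.ofReal_le_of_le_toReal q.2
  have h3 : ENNReal.ofReal a ≤ m (top κ a E) := by
    refine h2.trans ((measure_mono hsub).trans ((measure_union_le _ _).trans ?_))
    rw [hκ.2, add_zero]
  exact (ENNReal.ofReal_le_iff_le_toReal (measure_ne_top _ _)).mp h3

/-- Displacement: enlarging the removed set by length `s` moves ranks by at most `s`. -/
lemma top_displace (κ : ℝ → ℝ) {q s : ℝ} {Y Z : Set ℝ} (h : m.real (Z \ Y) ≤ s) :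
    top κ q Zᶜ ⊆ Y ∪ top κ (q + s) Yᶜ := by
  intro x hx
  by_cases hY : x ∈ Y
  · exact Or.inl hY
  refine Or.inr ⟨hY, ?_⟩
  have hsub : Yᶜ ∩ κ ⁻¹' Ioi (κ x) ⊆ (Zᶜ ∩ κ ⁻¹' Ioi (κ x)) ∪ (Z \ Y) := by
    intro y hy
    by_cases hZ : y ∈ Z
    · exact Or.inr ⟨hZ, hy.1⟩
    · exact Or.inl ⟨hZ, hy.2⟩
  have h1 := (measureReal_mono (μ := m) hsub).trans (measureReal_union_le _ _)
  have h2 := hx.2
  linarith

/-- One step of the serial process does not increase the excess of one removed set over another,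
beyond the excess of the quotas. -/
lemma step_diff {κ : ℝ → ℝ} (hκ : GoodKey κ) {a b : ℝ} (ha : 0 ≤ a) {P Q : Set ℝ}
    (hP : MeasurableSet P) (hQ : MeasurableSet Q) :
    m.real ((P ∪ top κ a Pᶜ) \ (Q ∪ top κ b Qᶜ)) ≤ m.real (P \ Q) + max (a - b) 0 := by
  have hm := le_max_right (a - b) 0
  have hm' := le_max_left (a - b) 0
  by_cases h : top κ a Pᶜ ⊆ Q ∪ top κ b Qᶜ
  · have : (P ∪ top κ a Pᶜ) \ (Q ∪ top κ b Qᶜ) ⊆ P \ Q := by
      rintro x ⟨h1 | h1, h2⟩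
      · exact ⟨h1, fun h3 => h2 (Or.inl h3)⟩
      · exact absurd (h h1) h2
    have := measureReal_mono (μ := m) this
    linarith
  obtain ⟨x₀, hx1, hx2⟩ := not_subset.mp h
  have hxQ : x₀ ∈ Qᶜ := fun h3 => hx2 (Or.inl h3)
  have hxT : x₀ ∉ top κ b Qᶜ := fun h3 => hx2 (Or.inr h3)
  have hb := top_ge hκ hQ.compl hxQ hxT
  have hTa := top_le hκ ha Pᶜ
  set S := top κ a Pᶜ with hS
  set T := top κ b Qᶜ with hT
  have hSm : MeasurableSet S := top_measurable hκ.1 a hP.compl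
  have hTm : MeasurableSet T := top_measurable hκ.1 b hQ.compl
  have hTS : T \ P ⊆ S ∩ T := by
    intro y hy
    refine ⟨top_upper hx1 hy.2 ?_, hy.1⟩
    by_contra hlt
    exact hxT (top_upper hy.1 hxQ (not_le.mp hlt).le)
  have e1 : (P ∪ S) \ (Q ∪ T) ⊆ ((P \ Q) \ T) ∪ (S \ T) := by
    rintro x ⟨h1 | h1, h2⟩
    · exact Or.inl ⟨⟨h1, fun h3 => h2 (Or.inl h3)⟩, fun h3 => h2 (Or.inr h3)⟩
    · exact Or.inr ⟨h1, fun h3 => h2 (Or.inr h3)⟩
  have e2 := (measureReal_mono (μ := m) e1).trans (measureReal_union_le _ _)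
  have e3 := measureReal_inter_add_sdiff (μ := m) (s := P \ Q) hTm
  have e4 := measureReal_inter_add_sdiff (μ := m) (s := S) hTm
  have e5 := measureReal_inter_add_sdiff (μ := m) (s := T) hP
  have e6 := measureReal_mono (μ := m) hTS
  have e7 : T ∩ P ⊆ (P \ Q) ∩ T := fun y hy => ⟨⟨hy.2, hy.1.1⟩, hy.1⟩
  have e8 := measureReal_mono (μ := m) e7
  linarith

end Pool.Agent.Lib.MP_e28e82_lc
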