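import Pool.Agent.Lib.MP_e28e82_lc.Quota

/-!
The scale menu with a constant linear in the number of agents.
-/

namespace Pool.Agent.Lib.MP_e28e82_lc

open MeasureTheory Set Filter Topology

lemma exists_key (f : Density) : ∃ κ : ℝ → ℝ, GoodKey κ ∧
    ∀ x ∈ Icc (0 : ℝ) 1, ∀ y ∈ Icc (0 : ℝ) 1, κ y ≤ κ x → f.val y ≤ f.val x := by
  have hV := f.finite_range
  have h1 : ∀ᶠ γ in 𝓝[>] (0 : ℝ), ∀ p ∈ (f.val '' Icc (0 : ℝ) 1) ×ˢ (f.val '' Icc (0 : ℝ) 1),
      p.1 < p.2 → γ < p.2 - p.1 := by
    rw [eventually_all_finite (hV.prod hV)]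
    intro p _
    by_cases h : p.1 < p.2
    · exact ((gt_mem_nhds (sub_pos.mpr h)).filter_mono nhdsWithin_le_nhds).mono fun γ hγ _ => hγ
    · exact Eventually.of_forall fun γ h' => absurd h' h
  obtain ⟨γ, h2, h3⟩ := (h1.and self_mem_nhdsWithin).exists
  have hγ : 0 < γ := h3
  have hg : Measurable (indicator (Icc (0 : ℝ) 1) f.val) := by
    refine measurable_of_Ioi fun c => ?_
    have : indicator (Icc (0 : ℝ) 1) f.val ⁻¹' Ioi c =
        {x ∈ Icc (0 : ℝ) 1 | c < f.val x} ∪ ((Icc (0 : ℝ) 1)ᶜ ∩ {_x | c < 0}) := by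
      ext x
      by_cases hx : x ∈ Icc (0 : ℝ) 1 <;> simp only [mem_preimage, mem_Ioi, mem_union, mem_setOf_eq,
        mem_inter_iff, mem_compl_iff, hx, indicator_of_mem, indicator_of_notMem, not_true, not_false_iff,
        true_and, false_and, or_false, false_or]
    rw [this]
    exact (PC.level f fun w => c < w).measurableSet.union
      (measurableSet_Icc.compl.inter (MeasurableSet.const _))
  refine ⟨fun x => indicator (Icc (0 : ℝ) 1) f.val x - γ * x,
    ⟨hg.sub (measurable_id.const_mul γ), fun c => ?_⟩, fun x hx y hy h => ?_⟩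
  · rw [Measure.restrict_apply' measurableSet_Icc]
    refine measure_mono_null (t := (fun v => (v - c) / γ) '' (f.val '' Icc (0 : ℝ) 1)) ?_
      ((hV.image _).measure_zero _)
    rintro x ⟨h, hx⟩
    refine ⟨f.val x, ⟨x, hx, rfl⟩, ?_⟩
    have h' : indicator (Icc (0 : ℝ) 1) f.val x - γ * x = c := h
    rw [indicator_of_mem hx] at h'
    rw [div_eq_iff hγ.ne']
    linarith
  · by_contra hlt
    have h4 := h2 (f.val x, f.val y) ⟨⟨x, hx, rfl⟩, ⟨y, hy, rfl⟩⟩ (not_le.mp hlt)
    simp only [indicator_of_mem hx, indicator_of_mem hy] at h h4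
    have h5 : γ * (y - x) ≤ γ * 1 := mul_le_mul_of_nonneg_left (by linarith [hx.1, hy.2]) hγ.le
    linarith

lemma real_inter_I (A : Set ℝ) : m.real (A ∩ Icc (0 : ℝ) 1) = m.real A := by
  simp only [Measure.real, Measure.restrict_apply' (measurableSet_Icc (a := (0 : ℝ)) (b := 1)),
    inter_assoc, inter_self]

/-- The key chosen for a density. -/
noncomputable def key (f : Density) : ℝ → ℝ := Classical.choose (exists_key f)

lemma key_good (f : Density) : GoodKey (key f) := (Classical.choose_spec (exists_key f)).1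

lemma bathtub (f : Density) {E S : Set ℝ} (hE : MeasurableSet E) (hS : MeasurableSet S)
    (hSE : S ⊆ E) (hSI : S ⊆ Icc (0 : ℝ) 1) {a : ℝ} (ha : m.real S ≤ a) :
    ∫ x in S, f.val x ∂m ≤ ∫ x in top (key f) a E ∩ Icc (0 : ℝ) 1, f.val x ∂m := by
  have hk := (Classical.choose_spec (exists_key f)).2
  have hT := top_measurable (key_good f).1 a hE
  by_cases h : E ⊆ top (key f) a E
  · refine setIntegral_mono_set f.integrable.integrableOn ?_
      (HasSubset.Subset.eventuallyLE (subset_inter (hSE.trans h) hSI))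
    filter_upwards [ae_restrict_mem (hT.inter measurableSet_Icc)] with x hx
    exact f.nonneg x hx.2
  obtain ⟨x₀, h0, h1⟩ := not_subset.mp h
  have h2 := top_ge (key_good f) hE h0 h1
  let W := f.val '' (Icc (0 : ℝ) 1 ∩ (E \ top (key f) a E))
  have hW : BddAbove W := (f.finite_range.subset (image_mono inter_subset_left)).bddAbove
  have hc : 0 ≤ sSup W := Real.sSup_nonneg (by rintro _ ⟨y, hy, rfl⟩; exact f.nonneg y hy.1)
  rw [strong_dual f (Y := E ∩ Icc (0 : ℝ) 1) (θ := sSup W) (hT.inter measurableSet_Icc)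
    (hE.inter measurableSet_Icc) (inter_subset_inter_left _ (top_subset _ _ _)) rfl]
  · exact weak_dual f hS (subset_inter hSE hSI) (by rw [real_inter_I]; linarith) hc
  · intro x hx
    refine Real.sSup_le ?_ (f.nonneg x hx.2)
    rintro _ ⟨y, hy, rfl⟩
    refine hk x hx.2 y hy.1 ?_
    by_contra hlt
    exact hy.2.2 (top_upper hx.1 hy.2.1 (not_le.mp hlt).le)
  · intro x hx hlt
    refine ⟨?_, hx.2⟩
    by_contra hT'
    exact absurd (le_csSup hW ⟨x, ⟨hx.2, hx.1, hT'⟩, rfl⟩) (not_le.mpr hlt)

lemma total_le_log (f : Density) {g B : ℝ} (hg : ∀ v, v * m.real (up f v) ≤ g)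
    (hB : ∀ x ∈ Icc (0 : ℝ) 1, f.val x ≤ B) :
    f.value (Icc 0 1) ≤ 2 * g * Real.log (2 * B / f.value (Icc 0 1)) := by
  have hW : 0 < f.value (Icc 0 1) := f.pos
  set W := f.value (Icc 0 1) with hWdef
  have hWB : W ≤ B := by
    have : ∫ x, f.val x ∂m ≤ ∫ _x, B ∂m := integral_mono_ae f.integrable (integrable_const _)
      (by filter_upwards [ae_mem_I] with x hx using hB x hx)
    rw [integral_const, probReal_univ, one_smul] at this
    exact this
  let μ : ℝ → ℝ := fun t => m.real {x | t ≤ f.val x}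
  have hμ : Antitone μ := fun s t h => measureReal_mono fun x hx => le_trans h hx
  have h1 : W = ∫ t in (0 : ℝ)..B, μ t := by
    rw [intervalIntegral.integral_of_le (by linarith)]
    exact f.integrable.integral_eq_integral_Ioc_meas_le
      (by filter_upwards [ae_mem_I] with x hx using f.nonneg x hx)
      (by filter_upwards [ae_mem_I] with x hx using hB x hx)
  have h2 : ∫ t in (0 : ℝ)..(W / 2), μ t ≤ ∫ _t in (0 : ℝ)..(W / 2), (1 : ℝ) :=
    intervalIntegral.integral_mono_on (by linarith) (hμ.intervalIntegrable) (by simp)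
      fun t _ => measureReal_le_one
  have hnot : (0 : ℝ) ∉ uIcc (W / 2) B := by
    rw [uIcc_of_le (by linarith)]
    exact fun h => absurd h.1 (by linarith)
  have h3 : ∫ t in (W / 2)..B, μ t ≤ ∫ t in (W / 2)..B, g * t⁻¹ := by
    refine intervalIntegral.integral_mono_on (by linarith) (hμ.intervalIntegrable)
      ((intervalIntegral.intervalIntegrable_inv (fun t ht h => hnot (h ▸ ht))
        continuousOn_id).const_mul g) fun t ht => ?_
    have ht0 : 0 < t := by linarith [ht.1]
    have h4 := hg t
    have h5 : up f t = {x | t ≤ f.val x} ∩ Icc (0 : ℝ) 1 := by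
      ext x
      exact and_comm
    rw [h5, real_inter_I] at h4
    rw [← div_eq_mul_inv, le_div_iff₀ ht0, mul_comm]
    exact h4
  rw [intervalIntegral.integral_const_mul, integral_inv hnot] at h3
  have h6 := intervalIntegral.integral_add_adjacent_intervals (μ := volume)
    (hμ.intervalIntegrable (a := 0) (b := W / 2)) (hμ.intervalIntegrable (a := W / 2) (b := B))
  have h7 : B / (W / 2) = 2 * B / W := by field_simp
  rw [h7] at h3
  simp only [intervalIntegral.integral_const, sub_zero, smul_eq_mul, mul_one] at h2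
  linarith

/-- The keys by position. -/
noncomputable def keys {n : ℕ} (hn : 0 < n) (f : Fin n → Density) (r : ℕ) : ℝ → ℝ :=
  key (f ⟨r % n, Nat.mod_lt r hn⟩)

/-- The best piece of length `sc k` for the density `g` outside the set closed to agent `i`. -/
def opt {n : ℕ} (f : Fin n → Density) (i : Fin n) (g : Density) (k : ℕ) : Set ℝ :=
  top (key g) (sc k) (closed (keys i.pos f) n i k)ᶜ ∩ Icc (0 : ℝ) 1

lemma closed_measurable {n : ℕ} (f : Fin n → Density) (i : Fin n) (k : ℕ) :
    MeasurableSet (closed (keys i.pos f) n i k) := remAll_measurable (fun _ => key_good _) _ _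

lemma opt_measurable {n : ℕ} (f : Fin n → Density) (i : Fin n) (g : Density) (k : ℕ) :
    MeasurableSet (opt f i g k) :=
  (top_measurable (key_good g).1 _ (closed_measurable f i k).compl).inter measurableSet_Icc

lemma opt_le {n : ℕ} (f : Fin n → Density) (i : Fin n) (g : Density) (k : ℕ) :
    m.real (opt f i g k) ≤ sc k := by
  rw [opt, real_inter_I]
  exact top_le (key_good g) (sc_pos k).le _

lemma opt_update {n : ℕ} (f : Fin n → Density) (i : Fin n) (g g' : Density) (k : ℕ) :
    opt (Function.update f i g') i g k = opt f i g k := by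
  have : closed (keys i.pos (Function.update f i g')) n i k = closed (keys i.pos f) n i k := by
    refine remAll_congr (fun r => ?_) _
    by_cases h : r % n = i
    · exact Or.inl (by rw [quota, if_pos h])
    · refine Or.inr ?_
      unfold keys
      rw [Function.update_of_ne (fun e => h (congrArg Fin.val e))]
  rw [opt, opt, this]

lemma opt_disjoint {n : ℕ} (f : Fin n → Density) {i j : Fin n} (hij : i ≠ j) {k k' : ℕ}
    (h : k * n + i < k' * n + j) : Disjoint (opt f i (f i) k) (opt f j (f j) k') := by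
  have h1 := option_subset (κ := keys i.pos f) (fun _ => key_good _) i.2 j.2
    (fun e => hij (Fin.ext e).symm) h
  have h2 : keys i.pos f (k' * n + j) = key (f j) := by
    unfold keys
    congr 2
    exact Fin.ext (pos_div_mod j.2 k').2
  rw [h2] at h1
  exact Set.disjoint_left.mpr fun x hx hx' => hx.1.1 (h1 hx'.1)

lemma exists_best {n : ℕ} (f : Fin n → Density) (i : Fin n) :
    ∃ k₀, ∀ k, ∫ x in opt f i (f i) k, (f i).val x ∂m ≤ ∫ x in opt f i (f i) k₀, (f i).val x ∂m := by
  obtain ⟨M, hM0, hM⟩ := (f i).exists_bound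
  have h0 : ∀ k, 0 ≤ ∫ x in opt f i (f i) k, (f i).val x ∂m := fun k =>
    (f i).setIntegral_nonneg' (opt_measurable f i _ k) inter_subset_right
  refine exists_max_of_tendsto h0 (squeeze_zero h0 (g := fun k => M * sc k) (fun k => ?_) ?_)
  · have h1 : ∫ x in opt f i (f i) k, (f i).val x ∂m ≤ ∫ _x in opt f i (f i) k, M ∂m :=
      setIntegral_mono_on (f i).integrable.integrableOn (integrable_const _)
        (opt_measurable f i _ k) fun x hx => hM x hx.2
    rw [setIntegral_const, smul_eq_mul, mul_comm] at h1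
    exact h1.trans (mul_le_mul_of_nonneg_left (opt_le f i _ k) hM0)
  · have := (tendsto_pow_atTop_nhds_zero_of_lt_one (r := (1 / 7 : ℝ)) (by norm_num)
      (by norm_num)).const_mul M
    rwa [mul_zero] at this

lemma level_le {n : ℕ} (f : Fin n → Density) (i : Fin n) {u : ℝ} (hu0 : 0 ≤ u)
    (hu : ∀ k, ∫ x in opt f i (f i) k, (f i).val x ∂m ≤ u) (v : ℝ) :
    v * m.real (up (f i) v) ≤ (14 * (n : ℝ) - 7) * u := by
  classical
  have hn : (1 : ℝ) ≤ n := by exact_mod_cast i.pos
  have hC : 0 ≤ (14 * (n : ℝ) - 7) * u := mul_nonneg (by linarith) hu0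
  rcases le_or_gt v 0 with hv | hv
  · exact (mul_nonpos_of_nonpos_of_nonneg hv measureReal_nonneg).trans hC
  rcases (measureReal_nonneg (μ := m) (s := up (f i) v)).eq_or_lt with h0 | h0
  · rw [← h0, mul_zero]; exact hC
  set μ := m.real (up (f i) v) with hμ
  have hμ1 : μ ≤ 1 := measureReal_le_one
  have hex : ∃ k, (2 * (n : ℝ) - 1) * sc k ≤ μ := by
    have := (tendsto_pow_atTop_nhds_zero_of_lt_one (r := (1 / 7 : ℝ)) (by norm_num)
      (by norm_num)).const_mul (2 * (n : ℝ) - 1)
    rw [mul_zero] at this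
    exact (this.eventually (ge_mem_nhds h0)).exists
  obtain ⟨k, hk1, hk2⟩ : ∃ k, (2 * (n : ℝ) - 1) * sc k ≤ μ ∧ μ ≤ (14 * (n : ℝ) - 7) * sc k := by
    refine ⟨Nat.find hex, Nat.find_spec hex, ?_⟩
    rcases h : Nat.find hex with _ | l
    · simp only [sc, pow_zero]; linarith
    · have := not_le.mp (Nat.find_min hex (show l < Nat.find hex by omega))
      rw [sc_succ]
      linarith
  have hZ := closed_le (κ := keys i.pos f) (fun _ => key_good _) i.2 k
  have hZm := closed_measurable f i k
  set Z := closed (keys i.pos f) n i k with hZdef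
  have hU := (PC_up (f i) v).measurableSet
  have h1 : sc k ≤ m.real (up (f i) v \ Z) := by
    have e1 := measureReal_inter_add_sdiff (μ := m) (s := up (f i) v) hZm
    have e2 := measureReal_mono (μ := m) (inter_subset_right (s := up (f i) v) (t := Z))
    linarith
  obtain ⟨c, hc⟩ := exists_cut (hU.diff hZm) (sc_pos k).le h1
  have hS := (hU.diff hZm).inter (measurableSet_Iic (a := c))
  have h2 := bathtub (f i) hZm.compl hS (fun x hx => hx.1.2) (fun x hx => hx.1.1.1) hc.le
  have h3 : ∫ _x in (up (f i) v \ Z) ∩ Iic c, v ∂m ≤ ∫ x in (up (f i) v \ Z) ∩ Iic c, (f i).val x ∂m :=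
    setIntegral_mono_on (integrable_const _) (f i).integrable.integrableOn hS fun x hx => hx.1.1.2
  rw [setIntegral_const, smul_eq_mul, hc] at h3
  have h4 : sc k * v ≤ u := h3.trans (h2.trans (hu k))
  calc v * μ ≤ v * ((14 * (n : ℝ) - 7) * sc k) := mul_le_mul_of_nonneg_left hk2 hv.le
    _ = (14 * (n : ℝ) - 7) * (sc k * v) := by ring
    _ ≤ _ := mul_le_mul_of_nonneg_left h4 (by linarith)

theorem exists_uniform (n : ℕ) : ∃ M : Mechanism n, M.Truthful ∧
    ∀ (f : Fin n → Density) (i : Fin n) (v : ℝ),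
      v * m.real (up (f i) v) ≤ (14 * (n : ℝ) - 7) * (f i).value (M.alloc f i) := by
  choose b hb using fun (f : Fin n → Density) (i : Fin n) => exists_best f i
  have hval : ∀ (f : Fin n → Density) (i : Fin n) (g g' : Density) (k : ℕ),
      g.value (opt f i g' k) = ∫ x in opt f i g' k, g.val x ∂m := fun f i g g' k =>
    g.value_eq (opt_measurable f i g' k) inter_subset_right
  refine ⟨⟨fun f i => opt f i (f i) (b f i), fun f i => opt_measurable f i _ _,
    fun f i => inter_subset_right, fun f i j hij => ?_⟩, fun f i g => ?_, fun f i v => ?_⟩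
  · rcases lt_trichotomy (b f i * n + i) (b f j * n + j) with h | h | h
    · exact opt_disjoint f hij h
    · exfalso
      have h1 := (pos_div_mod i.2 (b f i)).2
      rw [h, (pos_div_mod j.2 (b f j)).2] at h1
      exact hij (Fin.ext h1).symm
    · exact (opt_disjoint f hij.symm h).symm
  · show (f i).value (opt _ i _ _) ≤ (f i).value (opt f i _ _)
    rw [opt_update, hval, hval]
    refine le_trans ?_ (hb f i (b (Function.update f i g) i))
    exact bathtub (f i) (closed_measurable f i _).compl (opt_measurable f i _ _)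
      (fun x hx => hx.1.1) inter_subset_right (opt_le f i _ _)
  · show _ ≤ _ * (f i).value (opt f i _ _)
    rw [hval]
    exact level_le f i ((f i).setIntegral_nonneg' (opt_measurable f i _ _) inter_subset_right)
      (hb f i) v

end Pool.Agent.Lib.MP_e28e82_lc
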