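import Pool.Agent.Lib.MP_e28e82_lc.Uniform

namespace Pool.Agent.Lib.MP_e28e82_lc

open MeasureTheory Set

theorem uniform_consequences (n : ℕ) (hn : 2 ≤ n) :
    ∃ M : Mechanism n, M.Truthful ∧
      (∀ (f : Fin n → Density) (i : Fin n) (v : ℝ),
        v * (volume {x ∈ Icc (0 : ℝ) 1 | v ≤ (f i).val x}).toReal / (14 * (n : ℝ) - 7) ≤
          (f i).value (M.alloc f i)) ∧
      (∀ (f : Fin n → Density) (i : Fin n) (k : ℕ), (f i).ValuesLe k →
        1 / (14 * (k : ℝ)) / n * (f i).value (Icc 0 1) ≤ (f i).value (M.alloc f i)) ∧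
      (∀ (f : Fin n → Density) (i : Fin n) (B : ℝ), (∀ x ∈ Icc (0 : ℝ) 1, (f i).val x ≤ B) →
        1 / (28 * Real.log (2 * B / (f i).value (Icc 0 1))) / n * (f i).value (Icc 0 1) ≤
          (f i).value (M.alloc f i)) := by
  obtain ⟨M, h1, h2⟩ := exists_uniform n
  have hn' : (2 : ℝ) ≤ n := by exact_mod_cast hn
  have h0 : ∀ (f : Fin n → Density) (i : Fin n), 0 ≤ (f i).value (M.alloc f i) := fun f i => by
    rw [(f i).value_eq (M.measurable f i) (M.subset f i)]
    exact (f i).setIntegral_nonneg' (M.measurable f i) (M.subset f i)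
  have h3 : ∀ (f : Fin n → Density) (i : Fin n) (v : ℝ),
      v * m.real (up (f i) v) ≤ 14 * (n : ℝ) * (f i).value (M.alloc f i) := fun f i v =>
    (h2 f i v).trans (mul_le_mul_of_nonneg_right (by linarith) (h0 f i))
  have hkey : ∀ (c W u : ℝ), 0 < W → 0 ≤ u → W ≤ c * (n * u) → 1 / c / n * W ≤ u := by
    intro c W u hW hu h
    have hc : 0 < c := by
      by_contra hc
      have := mul_nonpos_of_nonpos_of_nonneg (not_lt.mp hc)
        (mul_nonneg (show (0 : ℝ) ≤ n by linarith) hu)
      linarith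
    rw [div_div, div_mul_eq_mul_div, one_mul, div_le_iff₀ (by positivity)]
    linarith
  refine ⟨M, h1, fun f i v => ?_, fun f i k hk => ?_, fun f i B hB => ?_⟩
  · rw [div_le_iff₀ (by linarith), mul_comm ((f i).value _)]
    have := h2 f i v
    rwa [Measure.real, m_eq_volume (PC_up (f i) v).measurableSet fun x hx => hx.1] at this
  · have := total_le (f i) hk (mul_nonneg (by linarith) (h0 f i)) (h3 f i)
    exact hkey _ _ _ (f i).pos (h0 f i) (by linarith)
  · have := total_le_log (f i) (h3 f i) hB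
    exact hkey _ _ _ (f i).pos (h0 f i) (by linarith)

end Pool.Agent.Lib.MP_e28e82_lc
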